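import Pool.Agent.LibComplexity.Calc

/-!
Equality tests; conversion between words and encoded lists; Turing machines for the functions of
the calculus; nondeterministic guessing.
-/

namespace Pool.Agent.LibComplexity

open Function Enc

variable {𝒜 : Set Orc} {α β γ δ τ : Type} [Enc α] [Enc β] [Enc γ] [Enc δ] [Enc τ]

theorem Runs.casF' {A k ce cf ct σ σ1 σ' n} {r} (hk : σ k = false :: r) (hσ : update σ k r = σ1)
    (h : Runs A cf σ1 σ' n) : Runs A (.cas k ce cf ct) σ σ' (n + 2) := by
  subst hσ; exact Runs.casF hk h

theorem Runs.loopF' {A k cf ct σ σ1 σ2 σ' n m} {r} (hk : σ k = false :: r)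
    (hσ : update σ k r = σ1) (h : Runs A cf σ1 σ2 n) (h' : Runs A (.loop k cf ct) σ2 σ' m) :
    Runs A (.loop k cf ct) σ σ' (n + m + 2) := by
  subst hσ; exact Runs.loopF hk h h'

theorem Runs.loopT' {A k cf ct σ σ1 σ2 σ' n m} {r} (hk : σ k = true :: r)
    (hσ : update σ k r = σ1) (h : Runs A ct σ1 σ2 n) (h' : Runs A (.loop k cf ct) σ2 σ' m) :
    Runs A (.loop k cf ct) σ σ' (n + m + 2) := by
  subst hσ; exact Runs.loopT hk h h'

/-! ### Equality test -/

/-- the number of positions where the first word differs from the second -/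
def mis : List Bool → List Bool → ℕ
  | [], _ => 0
  | _ :: w, [] => mis w [] + 1
  | a :: w, b :: v => if a = b then mis w v else mis w v + 1

theorem mis_eq (w v : List Bool) : (mis w v = 0 ∧ v.length ≤ w.length) ↔ w = v := by
  induction w generalizing v with
  | nil =>
    cases v with
    | nil => simp [mis]
    | cons b v => simp [mis]
  | cons a w ih =>
    cases v with
    | nil => simp [mis]
    | cons b v =>
      rw [mis]
      by_cases hab : a = b
      · subst hab
        rw [if_pos rfl, List.length_cons, List.length_cons, Nat.add_le_add_iff_right, ih]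
        simp
      · rw [if_neg hab]
        constructor
        · rintro ⟨h, _⟩; omega
        · intro h
          exact absurd (List.cons.inj h).1 hab

theorem mis_le (w v : List Bool) : mis w v ≤ w.length := by
  induction w generalizing v with
  | nil => simp [mis]
  | cons a w ih =>
    cases v with
    | nil => rw [mis, List.length_cons]; have := ih []; omega
    | cons b v => rw [mis, List.length_cons]; have := ih v; split_ifs <;> omega

/-- compare register `2` with register `3`; a mark is put on register `4` for each difference -/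
def cmp : Com := .loop 2 (.cas 3 (.push 4 true) .skip (.push 4 true))
  (.cas 3 (.push 4 true) (.push 4 true) .skip)

theorem runs_cmp {A : Orc} : ∀ (w v : List Bool) (m : ℕ),
    Runs A cmp (R [[], [], w, v, List.replicate m true])
      (R [[], [], [], v.drop w.length, List.replicate (mis w v + m) true])
      (5 * w.length + 1) := by
  intro w
  induction w with
  | nil =>
    intro v m
    refine (Runs.loopE rfl).cast ?_ le_rfl
    simp [mis]
  | cons a w ih =>
    intro v m
    have e0 : update (R [[], [], a :: w, v, List.replicate m true]) 2 w =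
        R [[], [], w, v, List.replicate m true] := by rw [R_update _ _ _ (by simp)]; rfl
    have ep : Runs A (.push 4 true) (R [[], [], w, v.tail, List.replicate m true])
        (R [[], [], w, v.tail, List.replicate (m + 1) true]) 1 := by
      refine Runs.push.cast ?_ le_rfl
      rw [R_update _ _ _ (by simp)]; rfl
    cases v with
    | nil =>
      have h1 : Runs A (.push 4 true) (R [[], [], w, [], List.replicate m true])
        (R [[], [], w, [], List.replicate (m + 1) true]) 1 := ep
      have h2 := ih [] (m + 1)
      have h3 : mis w [] + (m + 1) = mis (a :: w) [] + m := by rw [mis]; omega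
      rw [h3, List.drop_nil] at h2
      have h4 : 1 + 2 + (5 * w.length + 1) + 2 ≤ 5 * (a :: w).length + 1 := by
        rw [List.length_cons]; omega
      rw [List.drop_nil]
      cases a
      · exact (Runs.loopF' rfl e0 (Runs.casE rfl h1) h2).mono h4
      · exact (Runs.loopT' rfl e0 (Runs.casE rfl h1) h2).mono h4
    | cons b v =>
      have e1 : update (R [[], [], w, b :: v, List.replicate m true]) 3 v =
          R [[], [], w, v, List.replicate m true] := by rw [R_update _ _ _ (by simp)]; rfl
      have h4 : 1 + 2 + (5 * w.length + 1) + 2 ≤ 5 * (a :: w).length + 1 := by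
        rw [List.length_cons]; omega
      have h4' : 0 + 2 + (5 * w.length + 1) + 2 ≤ 5 * (a :: w).length + 1 := by
        rw [List.length_cons]; omega
      have h5 : List.drop (a :: w).length (b :: v) = v.drop w.length := by simp
      rw [h5]
      by_cases hab : a = b
      · have h3 : mis (a :: w) (b :: v) = mis w v := by rw [mis, if_pos hab]
        rw [h3]
        have h2 := ih v m
        subst hab
        cases a
        · exact (Runs.loopF' rfl e0 (Runs.casF' rfl e1 Runs.skip) h2).mono h4'
        · exact (Runs.loopT' rfl e0 (Runs.casT' rfl e1 Runs.skip) h2).mono h4'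
      · have h3 : mis (a :: w) (b :: v) + m = mis w v + (m + 1) := by
          rw [mis, if_neg hab]; omega
        rw [h3]
        have h2 := ih v (m + 1)
        have h1 : Runs A (.push 4 true) (R [[], [], w, v, List.replicate m true])
          (R [[], [], w, v, List.replicate (m + 1) true]) 1 := ep
        cases a
        · cases b
          · exact absurd rfl hab
          · exact (Runs.loopF' rfl e0 (Runs.casT' rfl e1 h1) h2).mono h4
        · cases b
          · exact (Runs.loopT' rfl e0 (Runs.casF' rfl e1 h1) h2).mono h4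
          · exact absurd rfl hab

/-- one mark for each symbol in register `3` -/
def marks : Com := .loop 3 (.push 4 true) (.push 4 true)

theorem runs_marks {A : Orc} : ∀ (v : List Bool) (m : ℕ),
    Runs A marks (R [[], [], [], v, List.replicate m true])
      (R [[], [], [], [], List.replicate (v.length + m) true]) (3 * v.length + 1) := by
  intro v
  induction v with
  | nil => intro m; exact (Runs.loopE rfl).cast (by simp) (by simp)
  | cons a v ih =>
    intro m
    have e0 : update (R [[], [], [], a :: v, List.replicate m true]) 3 v =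
        R [[], [], [], v, List.replicate m true] := by rw [R_update _ _ _ (by simp)]; rfl
    have h1 : Runs A (.push 4 true) (R [[], [], [], v, List.replicate m true])
        (R [[], [], [], v, List.replicate (m + 1) true]) 1 := by
      refine Runs.push.cast ?_ le_rfl
      rw [R_update _ _ _ (by simp)]; rfl
    have h2 := ih (m + 1)
    have h3 : v.length + (m + 1) = (a :: v).length + m := by rw [List.length_cons]; omega
    rw [h3] at h2
    have h4 : 1 + (3 * v.length + 1) + 2 ≤ 3 * (a :: v).length + 1 := by
      rw [List.length_cons]; omega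
    cases a
    · exact (Runs.loopF' rfl e0 h1 h2).mono h4
    · exact (Runs.loopT' rfl e0 h1 h2).mono h4

/-- the final part of the equality test: the answer is `true` if there are no marks -/
def verdict : Com := .cas 4 (pushw 0 [true, false, false]) .skip (.seq (clear 4) (.push 0 false))

theorem runs_verdict {A : Orc} (m : ℕ) :
    Runs A verdict (R [[], [], [], [], List.replicate m true]) (R [(e (decide (m = 0))).enc])
      (2 * m + 6) := by
  cases m with
  | zero =>
    have h1 := runs_pushw (A := A) (a := 0) [true, false, false] (R [[], [], [], [], []])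
    refine (Runs.casE rfl h1).cast ?_ (by simp)
    rw [R_update _ _ _ (by simp)]
    simp only [List.set_cons_zero]
    rw [R_pad4, R_pad3, R_pad2, R_pad1]
    simp [R, e_true, Tr.enc]
  | succ m =>
    have e0 : update (R [[], [], [], [], List.replicate (m + 1) true]) 4
        (List.replicate m true) = R [[], [], [], [], List.replicate m true] := by
      rw [R_update _ _ _ (by simp)]; rfl
    have h1 := runs_clear (A := A) (a := 4) (List.replicate m true)
      (R [[], [], [], [], List.replicate m true]) rfl
    have h2 := h1.seq (Runs.push (k := 0) (b := false))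
    refine (Runs.casT' rfl e0 h2).cast ?_ ?_
    · rw [R_update _ _ _ (by simp), R_update _ _ _ (by simp)]
      simp only [List.set_cons_zero, List.set_cons_succ]
      rw [R_pad4, R_pad3, R_pad2, R_pad1]
      simp [R, e_false, Tr.enc]
    · rw [List.length_replicate]; omega

/-- the program of the equality test -/
def eqCom : Com := .cas 0 .skip .skip (.seq (.push 3 true) (.seq (parse 0 2 3)
  (.seq (mv 0 3) (.seq cmp (.seq marks verdict)))))

theorem enc_injective : ∀ (a b : Tr) (r s : List Bool), a.enc ++ r = b.enc ++ s → a = b ∧ r = s := by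
  intro a
  induction a with
  | nil =>
    intro b r s h
    cases b with
    | nil => simpa [Tr.enc] using h
    | cons c d => simp [Tr.enc] at h
  | cons x y ihx ihy =>
    intro b r s h
    cases b with
    | nil => simp [Tr.enc] at h
    | cons c d =>
      simp only [Tr.enc, List.cons_append, List.append_assoc, List.cons.injEq, true_and] at h
      obtain ⟨h1, h2⟩ := ihx _ _ _ h
      obtain ⟨h3, h4⟩ := ihy _ _ _ h2
      rw [h1, h3]
      exact ⟨rfl, h4⟩

theorem enc_inj {a b : Tr} (h : a.enc = b.enc) : a = b :=
  (enc_injective a b [] [] (by rw [h])).1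

open Classical in
theorem PTf.eqTr : PTf 𝒜 (fun _ (p : Tr × Tr) => decide (p.1 = p.2)) := by
  refine ⟨eqCom, ⟨trivial, trivial, trivial, det_parse _ _ _, det_mv _ _,
    ⟨⟨trivial, trivial, trivial⟩, ⟨trivial, trivial, trivial⟩⟩, ⟨trivial, trivial⟩,
    det_pushw _ _, trivial, det_clear _, trivial⟩, 50 * Polynomial.X + 50, fun A _ x => ?_⟩
  obtain ⟨a, b⟩ := x
  have hx : (e (a, b)).enc = true :: (a.enc ++ b.enc) := rfl
  have hsz : sz (a, b) = a.size + b.size + 1 := rfl
  rw [hx, hsz, ← R_pad1, ← R_pad2, ← R_pad3, ← R_pad4]
  have e0 : update (R [true :: (a.enc ++ b.enc), [], [], [], []]) 0 (a.enc ++ b.enc) =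
      R [a.enc ++ b.enc, [], [], [], []] := by rw [R_update _ _ _ (by simp)]; rfl
  have h1 : Runs A (.push 3 true) (R [a.enc ++ b.enc, [], [], [], []])
      (R [a.enc ++ b.enc, [], [], [true], []]) 1 := by
    refine Runs.push.cast ?_ le_rfl
    rw [R_update _ _ _ (by simp)]; rfl
  have h2 := runs_parse (A := A) (a := 0) (b := 2) (c := 3) (by decide) (by decide) (by decide)
    a (R [a.enc ++ b.enc, [], [], [true], []]) b.enc rfl rfl
  have e2 : update (update (update (R [a.enc ++ b.enc, [], [], [true], []]) 0 b.enc) 2
      (a.enc.reverse ++ (R [a.enc ++ b.enc, [], [], [true], []]) 2)) 3 [] =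
      R [b.enc, [], a.enc.reverse, [], []] := by
    simp [R_update, R]
  rw [e2] at h2
  have h3 := runs_mv (A := A) (a := 0) (b := 3) (by decide) b.enc
    (R [b.enc, [], a.enc.reverse, [], []]) rfl
  have e3 : update (update (R [b.enc, [], a.enc.reverse, [], []]) 0 []) 3
      (b.enc.reverse ++ (R [b.enc, [], a.enc.reverse, [], []]) 3) =
      R [[], [], a.enc.reverse, b.enc.reverse, List.replicate 0 true] := by
    simp [R_update, R]
  rw [e3] at h3
  have h4 := runs_cmp (A := A) a.enc.reverse b.enc.reverse 0
  have h5 := runs_marks (A := A) (b.enc.reverse.drop a.enc.reverse.length)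
    (mis a.enc.reverse b.enc.reverse + 0)
  have h6 := runs_verdict (A := A) ((b.enc.reverse.drop a.enc.reverse.length).length +
    (mis a.enc.reverse b.enc.reverse + 0))
  refine (Runs.casT' rfl e0 (h1.seq (h2.seq (h3.seq (h4.seq (h5.seq h6)))))).cast ?_ ?_
  · have : ((b.enc.reverse.drop a.enc.reverse.length).length +
      (mis a.enc.reverse b.enc.reverse + 0) = 0) ↔ a = b := by
      rw [List.length_drop]
      have h7 := mis_eq a.enc.reverse b.enc.reverse
      constructor
      · intro h
        have h8 := h7.1 ⟨by omega, by omega⟩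
        exact enc_inj (List.reverse_injective h8)
      · intro h
        subst h
        have := h7.2 rfl
        omega
    simp only [this]
  · have h7 := mis_le a.enc.reverse b.enc.reverse
    simp only [List.length_drop, List.length_reverse, Tr.length_enc, Polynomial.eval_add,
      Polynomial.eval_mul, Polynomial.eval_X, Polynomial.eval_ofNat] at *
    omega

/-- equality test -/
theorem PTf.decide_eq {f g : Orc → α → β} [∀ A x, Decidable (f A x = g A x)] (hf : PTf 𝒜 f)
    (hg : PTf 𝒜 g) : PTf 𝒜 (fun A x => decide (f A x = g A x)) := by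
  classical
  exact (PTf.eqTr.comp (hf.toTr.pair hg.toTr)).congr fun A _ x => by
    by_cases h : f A x = g A x
    · simp [h]
    · have : e (f A x) ≠ e (g A x) := fun h' => h (Enc.inj h')
      simp [h, this]

theorem PTf.beq [BEq β] [LawfulBEq β] {f g : Orc → α → β} (hf : PTf 𝒜 f)
    (hg : PTf 𝒜 g) : PTf 𝒜 (fun A x => f A x == g A x) := by
  classical
  exact (PTf.decide_eq hf hg).congr fun A _ x => by
    by_cases h : f A x = g A x
    · simp [h]
    · simp [h]

/-! ### Finite case distinctions -/

theorem PTf.listCases {q : Orc → α → β} {g : Orc → β → α → γ} (hq : PTf 𝒜 q)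
    (hg : ∀ b : β, PTf 𝒜 (fun A x => g A b x)) (d : γ) (L : List β) :
    ∃ h : Orc → α → γ, PTf 𝒜 h ∧ ∀ A x, q A x ∈ L → h A x = g A (q A x) x := by
  classical
  induction L with
  | nil => exact ⟨fun _ _ => d, PTf.const d, fun A x h => by cases h⟩
  | cons b L ih =>
    obtain ⟨h, hh, hh'⟩ := ih
    refine ⟨fun A x => if q A x = b then g A b x else h A x,
      PTf.ifP (PTf.decide_eq hq (PTf.const b)) (hg b) hh, fun A x hx => ?_⟩
    by_cases hb : q A x = b
    · simp only [hb, if_true]
    · simp only [hb, if_false]
      exact hh' A x ((List.mem_cons.1 hx).resolve_left hb)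

/-- case distinction on a value of a finite type -/
theorem PTf.finCases [Finite β] {q : Orc → α → β} {g : Orc → β → α → γ} (hq : PTf 𝒜 q)
    (hg : ∀ b : β, PTf 𝒜 (fun A x => g A b x)) : PTf 𝒜 (fun A x => g A (q A x) x) := by
  classical
  by_cases hne : Nonempty α
  · obtain ⟨x0⟩ := hne
    cases nonempty_fintype β
    obtain ⟨h, hh, hh'⟩ := PTf.listCases hq hg (g ∅ (q ∅ x0) x0) (Finset.univ : Finset β).toList
    exact hh.congr fun A _ x => hh' A x (by simp)
  · exact ⟨.skip, trivial, 0, fun A _ x => absurd ⟨x⟩ hne⟩

/-- every function on a finite type is computable in polynomial time -/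
theorem PTf.ofFinite [Finite β] (F : β → γ) {q : Orc → α → β} (hq : PTf 𝒜 q) :
    PTf 𝒜 (fun A x => F (q A x)) :=
  PTf.finCases (g := fun _ b _ => F b) hq fun b => PTf.const (F b)

/-! ### Words -/

/-- convert the word in register `0` into an encoded list -/
def tolist : Com := .seq (mv 0 2) (.seq (.push 0 false)
  (.loop 2 (.seq (.push 0 false) (.push 0 true)) (pushw 0 [true, true, false, false])))

theorem det_tolist : tolist.Det := ⟨det_mv _ _, trivial, ⟨trivial, trivial⟩, det_pushw _ _⟩

theorem runs_tolist_loop {A : Orc} : ∀ (u v : List Bool),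
    Runs A (.loop 2 (.seq (.push 0 false) (.push 0 true)) (pushw 0 [true, true, false, false]))
      (R [(e v).enc, [], u]) (R [(e (u.reverse ++ v)).enc]) (6 * u.length + 1) := by
  intro u
  induction u with
  | nil =>
    intro v
    rw [R_pad2, R_pad1]
    exact Runs.loopE (by simp [R])
  | cons a u ih =>
    intro v
    have e0 : update (R [(e v).enc, [], a :: u]) 2 u = R [(e v).enc, [], u] := by
      rw [R_update _ _ _ (by simp)]; rfl
    have h2 := ih (a :: v)
    have h3 : (u.reverse ++ a :: v) = ((a :: u).reverse ++ v) := by simp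
    rw [h3] at h2
    cases a with
    | false =>
      have h1 : Runs A (.seq (.push 0 false) (.push 0 true)) (R [(e v).enc, [], u])
          (R [(e (false :: v)).enc, [], u]) (1 + 1) := by
        refine (Runs.push.seq Runs.push).cast ?_ le_rfl
        rw [R_update _ _ _ (by simp), R_update _ _ _ (by simp)]; rfl
      exact (Runs.loopF' rfl e0 h1 h2).mono (by rw [List.length_cons]; omega)
    | true =>
      have h1 : Runs A (pushw 0 [true, true, false, false]) (R [(e v).enc, [], u])
          (R [(e (true :: v)).enc, [], u]) 4 := by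
        refine (runs_pushw _ _).cast ?_ le_rfl
        rw [R_update _ _ _ (by simp)]; rfl
      exact (Runs.loopT' rfl e0 h1 h2).mono (by rw [List.length_cons]; omega)

theorem runs_tolist {A : Orc} (w : List Bool) :
    Runs A tolist (R [w]) (R [(e w).enc]) (9 * w.length + 3) := by
  have h1 := runs_mv (A := A) (a := 0) (b := 2) (by decide) w (R [w, [], []]) rfl
  have e1 : update (update (R [w, [], []]) 0 []) 2 (w.reverse ++ (R [w, [], []]) 2) =
      R [[], [], w.reverse] := by
    simp [R_update, R]
  rw [e1] at h1
  have h2 : Runs A (.push 0 false) (R [[], [], w.reverse])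
      (R [(e ([] : List Bool)).enc, [], w.reverse]) 1 := by
    refine Runs.push.cast ?_ le_rfl
    rw [R_update _ _ _ (by simp)]; rfl
  have h3 := runs_tolist_loop (A := A) w.reverse []
  rw [pad2 w]
  refine (h1.seq (h2.seq h3)).cast ?_ ?_
  · simp
  · rw [List.length_reverse]; omega

/-- convert the encoded list in register `0` into a word -/
def fromlist : Com := .seq unlist (mv 2 0)

theorem det_fromlist : fromlist.Det := ⟨det_unlist, det_mv _ _⟩

theorem runs_fromlist {A : Orc} (w : List Bool) :
    Runs A fromlist (R [(e w).enc]) (R [w]) (14 * w.length + 4) := by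
  have h1 := runs_unlist (A := A) w []
  rw [pad2, List.append_nil] at *
  have h2 := runs_mv (A := A) (a := 2) (b := 0) (by decide) w.reverse
    (R [[], [], w.reverse]) rfl
  refine (h1.seq h2).cast ?_ ?_
  · rw [pad2]
    simp [R_update, R]
  · rw [List.length_reverse]; omega

theorem sz_word_le (w : List Bool) : sz w ≤ 4 * w.length + 1 := by
  have := sz_list_le (l := w) (B := 3) (fun b _ => sz_bool b)
  omega

/-! ### Turing machines for the functions of the calculus -/

/-- Turing machines for polynomial-time functions on words -/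
theorem exists_tm_of_PTf {f : Orc → List Bool → List Bool} (hf : PTf 𝒜 f) :
    ∃ (M : TM) (p : Polynomial ℕ), M.Det ∧ ∀ A ∈ 𝒜, ∀ w β, ∃ c,
      M.Halts A w β (p.eval w.length) c true ∧ OnTape (c.tape 0) (c.head 0) (f A w) := by
  obtain ⟨Q, hQ⟩ := hf.size_le
  obtain ⟨c, hc, P, hP⟩ := hf
  obtain ⟨M, hM, hM'⟩ := exists_tm_fun (.seq tolist (.seq c fromlist))
  refine ⟨M, 2 * (9 * Polynomial.X + 3 + P.comp (4 * Polynomial.X + 1) +
    (14 * Q.comp (4 * Polynomial.X + 1) + 4)), hM ⟨det_tolist, hc, det_fromlist⟩,
    fun A hA w β => ?_⟩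
  have h1 := runs_tolist (A := A) w
  have h2 := hP A hA w
  have h3 := runs_fromlist (A := A) (f A w)
  obtain ⟨t, ht, h⟩ := (h1.seq (h2.seq h3)) β
  rw [← inp_eq, ← inp_eq] at h
  obtain ⟨cf, hcf, hcf'⟩ := hM' A w β _ _ _ h
  refine ⟨cf, ?_, hcf'⟩
  obtain ⟨n, hn, hh⟩ := hcf
  refine ⟨n, hn.trans ?_, hh⟩
  simp only [Polynomial.eval_add, Polynomial.eval_mul, Polynomial.eval_X, Polynomial.eval_ofNat,
    Polynomial.eval_comp, Polynomial.eval_one]
  have h4 := peval_mono P (sz_word_le w)
  have h5 := hQ A hA w
  have h6 := peval_mono Q (sz_word_le w)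
  have h7 := length_le_sz (f A w)
  omega

theorem Halts.unique {M : TM} {A : Orc} {w : List Bool} {β : ℕ → Bool} {t t' c c' b b'}
    (h : M.Halts A w β t c b) (h' : M.Halts A w β t' c' b') : b = b' ∧ c = c' := by
  obtain ⟨n, _, h1, h2⟩ := h
  obtain ⟨n', _, h1', h2'⟩ := h'
  have key : ∀ k (c : Cfg M) b m, M.act c.q = .halt b → M.run A w β k = some c →
      M.run A w β (k + m + 1) = none := by
    intro k c b m hc hk
    have hnone : ∀ m, M.run A w β (k + 1 + m) = none := by
      intro m
      induction m with
      | zero =>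
        unfold TM.run at hk ⊢
        rw [Nat.add_zero, iterate_succ_apply', hk]
        simp only [Option.bind_some]
        unfold TM.step
        rw [hc]
      | succ m ih =>
        unfold TM.run at ih ⊢
        rw [← Nat.add_assoc, iterate_succ_apply', ih]
        rfl
    have := hnone m
    rwa [show k + 1 + m = k + m + 1 by ring] at this
  rcases lt_trichotomy n n' with hlt | heq | hlt
  · obtain ⟨m, rfl⟩ := Nat.exists_eq_add_of_lt hlt
    rw [key n c b m h2 h1] at h1'
    cases h1'
  · subst heq
    rw [h1] at h1'
    cases h1'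
    rw [h2] at h2'
    cases h2'
    exact ⟨rfl, rfl⟩
  · obtain ⟨m, rfl⟩ := Nat.exists_eq_add_of_lt hlt
    rw [key n' c' b' m h2' h1'] at h1
    cases h1

theorem top_bool (b : Bool) : ∃ r, (e b).enc = b :: r := by
  cases b
  · exact ⟨[], rfl⟩
  · exact ⟨_, rfl⟩

/-- Turing machines for polynomial-time decisions on words -/
theorem exists_tm_of_PTf_dec {f : Orc → List Bool → Bool} (hf : PTf 𝒜 f) :
    ∃ (M : TM) (p : Polynomial ℕ), M.Det ∧ M.TimeBound 𝒜 p ∧
      ∀ A ∈ 𝒜, M.lang A = {w | f A w = true} := by
  obtain ⟨c, hc, P, hP⟩ := hf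
  obtain ⟨M, hM, hM'⟩ := exists_tm_dec (.seq tolist c)
  let T : Polynomial ℕ := 2 * (9 * Polynomial.X + 3 + P.comp (4 * Polynomial.X + 1) + 1)
  have key : ∀ A ∈ 𝒜, ∀ w β, ∃ cf, M.Halts A w β (T.eval w.length) cf (f A w) := by
    intro A hA w β
    have h1 := runs_tolist (A := A) w
    have h2 := hP A hA w
    obtain ⟨t, ht, h⟩ := (h1.seq h2) β
    rw [← inp_eq, ← inp_eq] at h
    obtain ⟨r, hr⟩ := top_bool (f A w)
    obtain ⟨cf, n, hn, hh⟩ := hM' A w β _ _ _ (f A w) r h (by simpa [inp] using hr)
    refine ⟨cf, n, hn.trans ?_, hh⟩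
    simp only [T, Polynomial.eval_add, Polynomial.eval_mul, Polynomial.eval_X,
      Polynomial.eval_ofNat, Polynomial.eval_comp, Polynomial.eval_one]
    have h4 := peval_mono P (sz_word_le w)
    omega
  refine ⟨M, T, hM ⟨det_tolist, hc⟩, fun A hA w β => ?_, fun A hA => ?_⟩
  · obtain ⟨cf, h⟩ := key A hA w β
    exact ⟨cf, _, h⟩
  · ext w
    constructor
    · rintro ⟨β, t, c', h⟩
      obtain ⟨cf, h'⟩ := key A hA w β
      exact (Halts.unique h h').1.symm
    · intro h
      obtain ⟨cf, h'⟩ := key A hA w (fun _ => false)
      rw [h] at h'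
      exact ⟨_, _, _, h'⟩

theorem inP_of_PTf {A : Orc} {f : Orc → List Bool → Bool} (hf : PTf {A} f) :
    InP A {w | f A w = true} := by
  obtain ⟨M, p, h1, h2, h3⟩ := exists_tm_of_PTf_dec hf
  exact ⟨M, p, h1, h2, h3 A rfl⟩

theorem inFP_of_PTf {A : Orc} {f : Orc → List Bool → List Bool} (hf : PTf {A} f) :
    InFP A (f A) := by
  obtain ⟨M, p, h1, h2⟩ := exists_tm_of_PTf hf
  refine ⟨M, p, h1, fun w β => ?_⟩
  obtain ⟨c, hc⟩ := h2 A rfl w β
  exact ⟨c, true, hc⟩

/-! ### Guessing -/

/-- the choice bits after the first `n` -/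
def Bits.drop (n : ℕ) (β : Bits) : Bits := fun k => β (n + k)

/-- the word guessed with `n` choice bits -/
def guessed (n : ℕ) (β : Bits) : List Bool := ((List.range n).map β).reverse

theorem guessed_succ (n : ℕ) (β : Bits) : guessed (n + 1) β = guessed n (Bits.tail β) ++ [β 0] := by
  unfold guessed
  rw [List.range_succ_eq_map, List.map_cons, List.reverse_cons, List.map_map]
  rfl

theorem length_guessed (n : ℕ) (β : Bits) : (guessed n β).length = n := by
  simp [guessed]

theorem exists_guessed (y : List Bool) : ∃ β, guessed y.length β = y := by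
  refine ⟨fun k => y.reverse.getD k false, ?_⟩
  unfold guessed
  apply List.reverse_injective
  rw [List.reverse_reverse]
  apply List.ext_getElem
  · simp
  · intro i h1 h2
    simp only [List.getElem_map, List.getElem_range]
    rw [List.getD_eq_getElem?_getD, List.getElem?_eq_getElem h2]
    rfl

/-- guess a word, one bit for each symbol `true` in register `3`, and push its encoding on
register `0` -/
def guess : Com := .loop 3 .skip (.choose (.seq (.push 0 false) (.push 0 true))
  (pushw 0 [true, true, false, false]))

theorem exec_guess {A : Orc} : ∀ (w v x : List Bool) (β : Bits), ∃ t ≤ 8 * w.length + 1,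
    Exec A guess (R [(e v).enc, [], x, w]) β
      (R [(e (guessed (w.count true) β ++ v)).enc, [], x]) (Bits.drop (w.count true) β) t := by
  intro w
  induction w with
  | nil =>
    intro v x β
    refine ⟨1, le_rfl, ?_⟩
    rw [R_pad3]
    have h1 : guessed (List.count true []) β = [] := rfl
    have h2 : Bits.drop (List.count true []) β = β := by
      funext k; simp [Bits.drop]
    rw [h1, h2]
    exact Exec.loopE (by simp [R])
  | cons a w ih =>
    intro v x β
    have e0 : update (R [(e v).enc, [], x, a :: w]) 3 w = R [(e v).enc, [], x, w] := by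
      rw [R_update _ _ _ (by simp)]; rfl
    cases a with
    | false =>
      obtain ⟨t, ht, h⟩ := ih v x β
      have hc : (false :: w).count true = w.count true := by simp
      rw [hc]
      refine ⟨0 + t + 2, by rw [List.length_cons]; omega, ?_⟩
      have : Exec A .skip (update (R [(e v).enc, [], x, false :: w]) 3 w) β
          (R [(e v).enc, [], x, w]) β 0 := by rw [e0]; exact .skip
      exact Exec.loopF rfl this h
    | true =>
      obtain ⟨t, ht, h⟩ := ih (β 0 :: v) x (Bits.tail β)
      have hc : (true :: w).count true = w.count true + 1 := by simp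
      have hg : guessed (w.count true + 1) β ++ v = guessed (w.count true) (Bits.tail β) ++ (β 0 :: v) := by
        rw [guessed_succ, List.append_assoc]; rfl
      have hd : Bits.drop (w.count true + 1) β = Bits.drop (w.count true) (Bits.tail β) := by
        funext k
        simp only [Bits.drop, Bits.tail]
        congr 1; ring
      rw [hc, hg, hd]
      have h1 : Runs A (.seq (.push 0 false) (.push 0 true)) (R [(e v).enc, [], x, w])
          (R [(e (false :: v)).enc, [], x, w]) (1 + 1) := by
        refine (Runs.push.seq Runs.push).cast ?_ le_rfl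
        rw [R_update _ _ _ (by simp), R_update _ _ _ (by simp)]; rfl
      have h1' : Runs A (pushw 0 [true, true, false, false]) (R [(e v).enc, [], x, w])
          (R [(e (true :: v)).enc, [], x, w]) 4 := by
        refine (runs_pushw _ _).cast ?_ le_rfl
        rw [R_update _ _ _ (by simp)]; rfl
      cases hb : β 0 with
      | false =>
        obtain ⟨t', ht', h'⟩ := h1 (Bits.tail β)
        have h2 : Exec A (.choose (.seq (.push 0 false) (.push 0 true))
            (pushw 0 [true, true, false, false])) (update (R [(e v).enc, [], x, true :: w]) 3 w) β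
            (R [(e (false :: v)).enc, [], x, w]) (Bits.tail β) (t' + 2) := by
          rw [e0]; exact .chooseF hb h'
        rw [hb] at h
        exact ⟨t' + 2 + t + 2, by rw [List.length_cons]; omega, Exec.loopT rfl h2 h⟩
      | true =>
        obtain ⟨t', ht', h'⟩ := h1' (Bits.tail β)
        have h2 : Exec A (.choose (.seq (.push 0 false) (.push 0 true))
            (pushw 0 [true, true, false, false])) (update (R [(e v).enc, [], x, true :: w]) 3 w) β
            (R [(e (true :: v)).enc, [], x, w]) (Bits.tail β) (t' + 2) := by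
          rw [e0]; exact .chooseT hb h'
        rw [hb] at h
        exact ⟨t' + 2 + t + 2, by rw [List.length_cons]; omega, Exec.loopT rfl h2 h⟩

/-- Nondeterministic machines: guess a word of length `q(|x|)`, then decide in polynomial time. -/
theorem exists_ntm {V : Orc → List Bool × List Bool → Bool} (hV : PTf 𝒜 V) (q : Polynomial ℕ) :
    ∃ (M : TM) (p : Polynomial ℕ), M.TimeBound 𝒜 p ∧
      ∀ A ∈ 𝒜, M.lang A = {x | ∃ y : List Bool, y.length = q.eval x.length ∧ V A (x, y) = true} := by
  obtain ⟨c, hc, P, hP⟩ := hV
  have hn : PTf (𝒜 := 𝒜) (fun _ (x : List Bool) => q.eval x.length) :=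
    (PTf.id.length).poly q
  obtain ⟨c', hc', P', hP'⟩ := hn
  obtain ⟨M, -, hM'⟩ := exists_tm_dec (.seq (.seq tolist (.seq copy (.seq (call c' 0 1)
    (.seq (mv 0 3) (.push 0 false))))) (.seq guess (.seq prepend (.seq (.push 0 true) c))))
  -- the time bound
  let T : Polynomial ℕ := 2 * (9 * Polynomial.X + 3 + (7 * (4 * Polynomial.X + 1) + 2) +
    P'.comp (4 * Polynomial.X + 1) + (3 * (2 * q + 1) + 1) + 1 + (8 * (2 * q + 1) + 1) +
    (6 * (4 * Polynomial.X + 1) + 2) + 1 +
    P.comp (4 * Polynomial.X + 1 + (4 * q + 1) + 1) + 1)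
  have key : ∀ A ∈ 𝒜, ∀ x β, ∃ cf, M.Halts A x β (T.eval x.length) cf
      (V A (x, guessed (q.eval x.length) β)) := by
    intro A hA x β
    let n := q.eval x.length
    let y := guessed n β
    have h1 := runs_tolist (A := A) x
    have h2 := runs_copy (A := A) (e x).enc
    have h3 : Runs A (call c' 0 1) (R [(e x).enc, [], (e x).enc])
        (R [(e n).enc, [], (e x).enc]) (P'.eval (sz x)) :=
      runs_callR (hP' A hA x) (by decide) (by simp) (by simp) (by simp)
    have h4 := runs_mv (A := A) (a := 0) (b := 3) (by decide) (e n).enc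
      (R [(e n).enc, [], (e x).enc, []]) rfl
    have e4 : update (update (R [(e n).enc, [], (e x).enc, []]) 0 []) 3
        ((e n).enc.reverse ++ (R [(e n).enc, [], (e x).enc, []]) 3) =
        R [[], [], (e x).enc, (e n).enc.reverse] := by
      simp [R_update, R]
    rw [e4, R_pad3] at h4
    have h5 : Runs A (.push 0 false) (R [[], [], (e x).enc, (e n).enc.reverse])
        (R [(e ([] : List Bool)).enc, [], (e x).enc, (e n).enc.reverse]) 1 := by
      refine Runs.push.cast ?_ le_rfl
      rw [R_update _ _ _ (by simp)]; rfl
    obtain ⟨t1, ht1, h6⟩ := (h1.seq (h2.seq (h3.seq (h4.seq h5)))) β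
    have hcount : (e n).enc.reverse.count true = n := by
      rw [List.count_reverse, Tr.count_enc, PTf.nodes_nat]
    obtain ⟨t2, ht2, h7⟩ := exec_guess (A := A) (e n).enc.reverse [] (e x).enc β
    rw [hcount, List.append_nil] at h7
    have h8 := runs_prepend (A := A) (e x).enc (e y).enc
    have h9 : Runs A (.push 0 true) (R [(e x).enc ++ (e y).enc]) (R [(e (x, y)).enc]) 1 := by
      refine Runs.push.cast ?_ le_rfl
      rw [R_update _ _ _ (by simp)]; rfl
    have h10 := hP A hA (x, y)
    obtain ⟨t3, ht3, h11⟩ := (h8.seq (h9.seq h10)) (Bits.drop n β)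
    have h12 := Exec.seq h6 (Exec.seq h7 h11)
    rw [← inp_eq, ← inp_eq] at h12
    obtain ⟨r, hr⟩ := top_bool (V A (x, y))
    obtain ⟨cf, m, hm, hh⟩ := hM' A x β _ _ _ (V A (x, y)) r h12 (by simpa [inp] using hr)
    refine ⟨cf, m, hm.trans ?_, hh⟩
    simp only [T, Polynomial.eval_add, Polynomial.eval_mul, Polynomial.eval_X,
      Polynomial.eval_ofNat, Polynomial.eval_comp, Polynomial.eval_one]
    have k1 := sz_word_le x
    have k2 := sz_word_le y
    have k3 : y.length = n := length_guessed _ _
    have k4 := peval_mono P' k1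
    have k5 : (e n).enc.length = 2 * n + 1 := by rw [Tr.length_enc]; exact sz_nat n
    have k6 : (e n).enc.reverse.length = 2 * n + 1 := by rw [List.length_reverse, k5]
    have k7 : sz (x, y) ≤ 4 * x.length + 1 + (4 * n + 1) + 1 := by rw [sz_pair]; omega
    have k8 := peval_mono P k7
    have k9 : (e x).enc.length = sz x := Tr.length_enc _
    have k10 : n = q.eval x.length := rfl
    rw [← k10]
    omega
  refine ⟨M, T, fun A hA w β => ?_, fun A hA => ?_⟩
  · obtain ⟨cf, h⟩ := key A hA w β
    exact ⟨cf, _, h⟩
  · ext x
    constructor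
    · rintro ⟨β, t, c', h⟩
      obtain ⟨cf, h'⟩ := key A hA x β
      exact ⟨_, length_guessed _ _, (Halts.unique h h').1.symm⟩
    · rintro ⟨y, hy, h⟩
      obtain ⟨β, hβ⟩ := exists_guessed y
      rw [hy] at hβ
      obtain ⟨cf, h'⟩ := key A hA x β
      rw [hβ, h] at h'
      exact ⟨_, _, _, h'⟩

end Pool.Agent.LibComplexity
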