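import Pool.Agent.LibComplexity.IO

/-!
Simulation of Turing machines in the calculus of polynomial-time functions.
-/

namespace Pool.Agent.LibComplexity

open Function Enc

variable {𝒜 : Set Orc} {α β γ δ τ : Type} [Enc α] [Enc β] [Enc γ] [Enc δ] [Enc τ]

/-! ### Finite types and functions on `Fin n` -/

/-- an encoding of a finite type -/
@[instance_reducible]
noncomputable def encFinite (Q : Type) [Finite Q] : Enc Q :=
  ⟨fun q => e ((Finite.equivFin Q q : ℕ)), fun a b h => by
    have := Enc.inj h
    exact (Finite.equivFin Q).injective (Fin.ext this)⟩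

noncomputable instance : Enc Dir :=
  ⟨fun d => match d with | .left => e 0 | .stay => e 1 | .right => e 2, by
    intro a b h
    cases a <;> cases b <;> first | rfl | exact absurd (Enc.inj h) (by decide)⟩

instance : Finite Dir := by
  have : Set.Finite (Set.univ : Set Dir) :=
    Set.Finite.subset (s := {Dir.left, Dir.stay, Dir.right}) (by simp) (by
      intro d _; cases d <;> simp)
  exact Set.finite_univ_iff.1 this

instance {n : ℕ} : Enc (Fin n → β) :=
  ⟨fun f => e (List.ofFn f), fun _ _ h => List.ofFn_injective (Enc.inj h)⟩

theorem e_fin {n : ℕ} (f : Fin n → β) : e f = e (List.ofFn f) := rfl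

theorem e_fin_succ {n : ℕ} (f : Fin (n + 1) → β) : e f = .cons (e (f 0)) (e (fun i => f (Fin.succ i))) := by
  rw [e_fin, List.ofFn_succ]
  rfl

theorem PTf.finFun {n : ℕ} {f : Orc → α → Fin n → β} (h : ∀ i, PTf 𝒜 (fun A x => f A x i)) :
    PTf 𝒜 (fun A x => f A x) := by
  induction n with
  | zero =>
    refine (PTf.const Tr.nil).ofTr' fun A _ x => ?_
    rw [e_fin, List.ofFn_zero]
    rfl
  | succ n ih =>
    have h1 := ih (f := fun A x i => f A x (Fin.succ i)) (fun i => h (Fin.succ i))
    refine ((h 0).toTr.tcons h1.toTr).ofTr' fun A _ x => ?_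
    exact e_fin_succ _

theorem PTf.finApp {n : ℕ} {f : Orc → α → Fin n → β} (h : PTf 𝒜 f) (i : Fin n) :
    PTf 𝒜 (fun A x => f A x i) := by
  induction n with
  | zero => exact i.elim0
  | succ n ih =>
    rcases Fin.eq_zero_or_eq_succ i with rfl | ⟨j, rfl⟩
    · refine h.toTr.tfst'.ofTr' fun A _ x => ?_
      rw [e_fin_succ]; rfl
    · have h1 : PTf 𝒜 (fun A x => (fun i : Fin n => f A x (Fin.succ i))) :=
        h.toTr.tsnd'.ofTr' fun A _ x => by rw [e_fin_succ]; rfl
      exact ih h1 j

theorem sz_fin {n : ℕ} (f : Fin n → β) : sz f = ∑ i, (sz (f i) + 1) + 1 := by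
  induction n with
  | zero => simp [sz, e_fin, List.ofFn_zero, e_nil, Tr.size]
  | succ n ih =>
    have : sz f = sz (f 0) + sz (fun i : Fin n => f (Fin.succ i)) + 1 := by
      unfold sz
      rw [e_fin_succ]
      rfl
    rw [this, ih, Fin.sum_univ_succ]
    ring

/-! ### More list functions -/

theorem PTf.takeWhile {l : Orc → α → List β} {p : Orc → α → β → Bool} (hl : PTf 𝒜 l)
    (hp : PTf 𝒜 (fun A (q : α × β) => p A q.1 q.2)) :
    PTf 𝒜 (fun A x => (l A x).takeWhile (p A x)) := by
  have h1 := PTf.foldl_grow (g := fun A x (s : Bool × List β) (y : β) =>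
      if (s.1 && p A x y) = true then (true, y :: s.2) else (false, s.2)) hl
    (PTf.const (true, []))
    (PTf.ite (PTf.id.snd.fst.fst.band (hp.comp (PTf.id.fst.pair PTf.id.snd.snd)))
      ((PTf.const true).pair (PTf.id.snd.snd.cons PTf.id.snd.fst.snd))
      ((PTf.const false).pair PTf.id.snd.fst.snd)) (d := fun A x => sz (l A x) + 4)
    ((PB.sz hl).add (PB.const 4)) (fun A _ x s y hy => by
      have h1 := sz_mem hy
      have h2 := sz_pos s.1
      split_ifs
      · rw [sz_pair, sz_cons]
        have : sz s = sz s.1 + sz s.2 + 1 := rfl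
        have h3 : sz true = 3 := rfl
        omega
      · rw [sz_pair]
        have : sz s = sz s.1 + sz s.2 + 1 := rfl
        have h3 : sz false = 1 := rfl
        omega)
  refine h1.snd.reverse.congr fun A _ x => ?_
  have key : ∀ (L s : List β),
      (L.foldl (fun (s : Bool × List β) y => if (s.1 && p A x y) = true then (true, y :: s.2)
        else (false, s.2)) (false, s)).2 = s := by
    intro L
    induction L with
    | nil => intro s; rfl
    | cons y L ih => intro s; rw [List.foldl_cons]; simpa using ih s
  have key2 : ∀ (L s : List β),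
      (L.foldl (fun (s : Bool × List β) y => if (s.1 && p A x y) = true then (true, y :: s.2)
        else (false, s.2)) (true, s)).2 = (L.takeWhile (p A x)).reverse ++ s := by
    intro L
    induction L with
    | nil => intro s; rfl
    | cons y L ih =>
      intro s
      rw [List.foldl_cons]
      cases hy : p A x y
      · simp only [Bool.and_false, Bool.false_eq_true, if_false]
        rw [key]
        simp [hy]
      · simp only [Bool.and_true, if_true]
        rw [ih]
        simp [hy]
  rw [key2]
  simp

/-- iteration with bounded growth -/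
theorem PTf.iter_grow {f : Orc → α → ℕ} {h : Orc → α → τ} {g : Orc → τ → τ} (hf : PTf 𝒜 f)
    (hh : PTf 𝒜 h) (hg : PTf 𝒜 g) {d : ℕ} (hd : ∀ A ∈ 𝒜, ∀ s, sz (g A s) ≤ sz s + d) :
    PTf 𝒜 (fun A x => (g A)^[f A x] (h A x)) := by
  refine PTf.iter' hf hh hg (b := fun A x => sz (h A x) + f A x * d)
    ((PB.sz hh).add ((PB.nat hf).mul (PB.const d))) ?_
  intro A hA x i hi
  have key : ∀ i, sz ((g A)^[i] (h A x)) ≤ sz (h A x) + i * d := by
    intro i
    induction i with
    | zero => simp
    | succ i ih =>
      rw [iterate_succ_apply']
      have := hd A hA ((g A)^[i] (h A x))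
      have h3 : (i + 1) * d = i * d + d := by ring
      omega
  exact (key i).trans (Nat.add_le_add_left (Nat.mul_le_mul_right _ hi) _)

/-! ### Tapes -/

/-- A tape as two lists: the part to the left of the head (nearest cell first), and the part from
the head to the right. -/
abbrev TC : Type := List Sym × List Sym

/-- write and move -/
def tapeAct (t : TC) (s : Sym) : Dir → TC
  | .stay => (t.1, s :: t.2.tail)
  | .right => (s :: t.1, t.2.tail)
  | .left => (t.1.tail, t.1.headD none :: s :: t.2.tail)

/-- the code represents the tape -/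
def RepT (tape : ℤ → Sym) (head : ℤ) (t : TC) : Prop :=
  (∀ j : ℕ, tape (head + j) = t.2.getD j none) ∧ (∀ j : ℕ, tape (head - 1 - j) = t.1.getD j none)

theorem getD_tail (l : List Sym) (j : ℕ) : l.tail.getD j none = l.getD (j + 1) none := by
  cases l with
  | nil => simp
  | cons a l => simp

theorem headD_eq (l : List Sym) : l.headD none = l.getD 0 none := by
  cases l <;> simp

theorem repT_act {tape head t} (h : RepT tape head t) (s : Sym) (d : Dir) :
    RepT (update tape head s) (head + d.disp) (tapeAct t s d) := by
  obtain ⟨h1, h2⟩ := h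
  cases d with
  | stay =>
    constructor
    · intro j
      simp only [Dir.disp, tapeAct, add_zero]
      cases j with
      | zero => simp
      | succ j =>
        rw [update_of_ne (by push_cast; omega), h1, List.getD_cons_succ, getD_tail]
    · intro j
      simp only [Dir.disp, tapeAct, add_zero]
      rw [update_of_ne (by omega), h2]
  | right =>
    constructor
    · intro j
      simp only [Dir.disp, tapeAct]
      rw [update_of_ne (by omega), getD_tail, ← h1]
      congr 1
      push_cast; ring
    · intro j
      simp only [Dir.disp, tapeAct]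
      cases j with
      | zero => simp
      | succ j =>
        rw [update_of_ne (by push_cast; omega), List.getD_cons_succ, ← h2]
        congr 1
        push_cast; ring
  | left =>
    constructor
    · intro j
      simp only [Dir.disp, tapeAct]
      cases j with
      | zero =>
        rw [update_of_ne (by push_cast; omega), List.getD_cons_zero, headD_eq, ← h2]
        congr 1
      | succ j =>
        rw [List.getD_cons_succ]
        cases j with
        | zero => simp
        | succ j =>
          rw [update_of_ne (by push_cast; omega), List.getD_cons_succ, getD_tail, ← h1]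
          congr 1
          push_cast; ring
    · intro j
      simp only [Dir.disp, tapeAct]
      rw [update_of_ne (by omega), getD_tail, ← h2]
      congr 1
      push_cast; ring

/-- the word on the tape -/
def tword (t : TC) : List Bool := (t.2.takeWhile Option.isSome).map fun s => s.getD false

theorem onTape_tword {tape head t} (h : RepT tape head t) : OnTape tape head (tword t) := by
  intro j hj
  rw [h.1]
  unfold tword at *
  generalize t.2 = l at *
  clear h t
  induction l generalizing j with
  | nil => simp
  | cons s l ih =>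
    cases s with
    | none =>
      simp only [List.takeWhile_cons, Option.isSome_none, Bool.false_eq_true, if_false,
        List.map_nil, List.length_nil, nonpos_iff_eq_zero] at hj
      subst hj
      simp
    | some b =>
      cases j with
      | zero => simp
      | succ j =>
        simp only [List.takeWhile_cons, Option.isSome_some, if_true, List.map_cons,
          List.length_cons, add_le_add_iff_right] at hj
        simp only [List.getD_cons_succ, List.takeWhile_cons, Option.isSome_some, if_true,
          List.map_cons, List.getElem?_cons_succ]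
        exact ih j hj

theorem tword_ask {tape head t} (h : RepT tape head t) (A : Orc) :
    (∃ w ∈ A, OnTape tape head w) ↔ tword t ∈ A := by
  constructor
  · rintro ⟨w, hw, hw'⟩
    rwa [onTape_unique hw' (onTape_tword h)] at hw
  · intro hA
    exact ⟨_, hA, onTape_tword h⟩

/-! ### Configurations -/

variable (M : TM)

/-- codes of configurations: state, tapes, choice bits -/
abbrev CC : Type := M.Q × (Fin (M.K + 2) → TC) × List Bool

open Classical in
/-- one step on codes -/
noncomputable def stepC (A : Orc) (s : CC M) : CC M :=
  match M.act s.1 with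
  | .move f =>
    ((f fun i => (s.2.1 i).2.headD none).1,
      fun i => tapeAct (s.2.1 i) ((f fun i => (s.2.1 i).2.headD none).2 i).1
        ((f fun i => (s.2.1 i).2.headD none).2 i).2, s.2.2)
  | .ask yes no => (if tword (s.2.1 1) ∈ A then yes else no, s.2.1, s.2.2)
  | .choose q₀ q₁ => (if s.2.2.headD false = true then q₁ else q₀, s.2.1, s.2.2.tail)
  | .halt _ => s

/-- the code represents the configuration -/
structure RepC (c : Cfg M) (s : CC M) : Prop where
  q : c.q = s.1
  tape : ∀ i, RepT (c.tape i) (c.head i) (s.2.1 i)
  ch : ∀ k, c.ch k = s.2.2.getD k false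

variable {M}

theorem repC_step {A : Orc} {c c' : Cfg M} {s : CC M} (h : RepC M c s)
    (hc : M.step A c = some c') : RepC M c' (stepC M A s) := by
  obtain ⟨hq, ht, hch⟩ := h
  have hhead : (fun i => c.tape i (c.head i)) = fun i => (s.2.1 i).2.headD none := by
    funext i
    have := (ht i).1 0
    rw [headD_eq, ← this]
    simp
  unfold TM.step at hc
  unfold stepC
  rw [hq] at hc
  cases hact : M.act s.1 with
  | move f =>
    rw [hact] at hc
    simp only [Option.some.injEq] at hc
    subst hc
    rw [hhead]
    exact ⟨rfl, fun i => repT_act (ht i) _ _, hch⟩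
  | ask yes no =>
    rw [hact] at hc
    simp only [Option.some.injEq] at hc
    subst hc
    refine ⟨?_, ht, hch⟩
    have h1 := tword_ask (ht 1) A
    by_cases hA : tword (s.2.1 1) ∈ A
    · simp only [if_pos hA, if_pos (h1.2 hA)]
    · simp only [if_neg hA, if_neg (fun h => hA (h1.1 h))]
  | choose q₀ q₁ =>
    rw [hact] at hc
    simp only [Option.some.injEq] at hc
    subst hc
    refine ⟨?_, ht, fun k => ?_⟩
    · simp only [hch 0]
      congr 2
      cases s.2.2 <;> rfl
    · simp only [hch]
      cases s.2.2 <;> simp
  | halt b =>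
    rw [hact] at hc
    cases hc

theorem stepC_halt {A : Orc} {s : CC M} {b : Bool} (h : M.act s.1 = .halt b) :
    stepC M A s = s := by
  unfold stepC
  rw [h]

/-- the code of the initial configuration -/
def initC (M : TM) (w y : List Bool) : CC M :=
  (M.start, fun i => if i = 0 then ([], w.map some) else ([], []), y)

theorem repC_init (w y : List Bool) :
    RepC M (M.init w fun k => y.getD k false) (initC M w y) := by
  refine ⟨rfl, fun i => ?_, fun k => rfl⟩
  by_cases hi : i = 0
  · subst hi
    constructor
    · intro j
      rw [init_tape_zero]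
      simp only [TM.init, initC, if_true, zero_add, wordTape]
      rw [if_neg (by omega)]
      simp [List.getD_eq_getElem?_getD]
      cases w[j]? <;> rfl
    · intro j
      rw [init_tape_zero]
      simp only [TM.init, initC, if_true, wordTape]
      rw [if_pos (by omega)]
      simp
  · constructor
    · intro j
      rw [init_tape_ne _ _ _ hi]
      simp [initC, hi]
    · intro j
      rw [init_tape_ne _ _ _ hi]
      simp [initC, hi]

theorem repC_run {A : Orc} {w y : List Bool} {n : ℕ} {c : Cfg M}
    (h : M.run A w (fun k => y.getD k false) n = some c) :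
    RepC M c ((stepC M A)^[n] (initC M w y)) := by
  induction n generalizing c with
  | zero =>
    simp only [TM.run, iterate_zero, id, Option.some.injEq] at h
    subst h
    exact repC_init w y
  | succ n ih =>
    unfold TM.run at h
    rw [iterate_succ_apply'] at h
    cases hn : M.run A w (fun k => y.getD k false) n with
    | none =>
      unfold TM.run at hn
      rw [hn] at h
      cases h
    | some c₁ =>
      have h1 := ih hn
      unfold TM.run at hn
      rw [hn] at h
      rw [iterate_succ_apply']
      exact repC_step h1 h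

theorem repC_halts {A : Orc} {w y : List Bool} {t : ℕ} {c : Cfg M} {b : Bool}
    (h : M.Halts A w (fun k => y.getD k false) t c b) :
    RepC M c ((stepC M A)^[t] (initC M w y)) := by
  obtain ⟨n, hn, h1, h2⟩ := h
  have h3 := repC_run h1
  obtain ⟨m, rfl⟩ := Nat.exists_eq_add_of_le hn
  have h4 : M.act ((stepC M A)^[n] (initC M w y)).1 = .halt b := by rw [← h3.q]; exact h2
  have h5 : (stepC M A)^[n + m] (initC M w y) = (stepC M A)^[n] (initC M w y) := by
    rw [add_comm, iterate_add_apply]
    induction m with
    | zero => rfl
    | succ m ih => rw [iterate_succ_apply', ih (by omega), stepC_halt h4]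
  rw [h5]
  exact h3

/-! ### The simulation is a polynomial-time function -/

theorem PTf.tapeAct {t : Orc → α → TC} {s : Orc → α → Sym} {d : Orc → α → Dir} (ht : PTf 𝒜 t)
    (hs : PTf 𝒜 s) (hd : PTf 𝒜 d) :
    PTf 𝒜 (fun A x => LibComplexity.tapeAct (t A x) (s A x) (d A x)) := by
  refine PTf.finCases (g := fun A b x => LibComplexity.tapeAct (t A x) (s A x) b) hd ?_
  intro b
  cases b with
  | left => exact ht.fst.tail.pair ((ht.fst.headD (PTf.const none)).cons (hs.cons ht.snd.tail))
  | stay => exact ht.fst.pair (hs.cons ht.snd.tail)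
  | right => exact (hs.cons ht.fst).pair ht.snd.tail

theorem PTf.tword {t : Orc → α → TC} (ht : PTf 𝒜 t) :
    PTf 𝒜 (fun A x => LibComplexity.tword (t A x)) := by
  unfold LibComplexity.tword
  exact (ht.snd.takeWhile (p := fun _ _ s => s.isSome) PTf.id.snd.isSome).map
    (g := fun _ _ s => s.getD false) (PTf.id.snd.getD (PTf.const false))

/-- the encoding of the states -/
noncomputable instance encQ (M : TM) : Enc M.Q := @encFinite M.Q M.fin

theorem PTf.stepC (M : TM) : PTf 𝒜 (fun A s => LibComplexity.stepC M A s) := by
  classical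
  have := M.fin
  have h1 : PTf 𝒜 (fun _ (s : CC M) => s.1) := PTf.id.fst
  refine (PTf.finCases (g := fun A q (s : CC M) => match M.act q with
    | .move f =>
      ((f fun i => (s.2.1 i).2.headD none).1,
        fun i => LibComplexity.tapeAct (s.2.1 i) ((f fun i => (s.2.1 i).2.headD none).2 i).1
          ((f fun i => (s.2.1 i).2.headD none).2 i).2, s.2.2)
    | .ask yes no => (if LibComplexity.tword (s.2.1 1) ∈ A then yes else no, s.2.1, s.2.2)
    | .choose q₀ q₁ => (if s.2.2.headD false = true then q₁ else q₀, s.2.1, s.2.2.tail)
    | .halt _ => s) h1 ?_).congr fun A _ s => rfl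
  intro q
  cases M.act q with
  | move f =>
    have h2 : PTf 𝒜 (fun _ (s : CC M) => fun i => (s.2.1 i).2.headD none) :=
      PTf.finFun fun i => (PTf.id.snd.fst.finApp i).snd.headD (PTf.const none)
    have h3 : PTf 𝒜 (fun _ (s : CC M) => f fun i => (s.2.1 i).2.headD none) :=
      PTf.ofFinite f h2
    refine h3.fst.pair (PTf.pair (PTf.finFun fun i => ?_) PTf.id.snd.snd)
    exact PTf.tapeAct (PTf.id.snd.fst.finApp i) (h3.snd.finApp i).fst (h3.snd.finApp i).snd
  | ask yes no =>
    refine PTf.pair (PTf.ifP ?_ (PTf.const yes) (PTf.const no)) PTf.id.snd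
    exact PTf.ask (PTf.tword (PTf.id.snd.fst.finApp 1))
  | choose q₀ q₁ =>
    refine PTf.pair (PTf.ite (PTf.id.snd.snd.headD (PTf.const false)) (PTf.const q₁)
      (PTf.const q₀)) (PTf.pair PTf.id.snd.fst PTf.id.snd.snd.tail)
  | halt b => exact PTf.id

theorem sz_sym (s : Sym) : sz s ≤ 5 := by
  cases s with
  | none => decide
  | some b => cases b <;> decide

theorem sz_tail_le (l : List β) : sz l.tail ≤ sz l := by
  cases l with
  | nil => exact le_rfl
  | cons a l => rw [List.tail_cons, sz_cons]; omega

theorem sz_tapeAct (t : TC) (s : Sym) (d : Dir) : sz (tapeAct t s d) ≤ sz t + 8 := by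
  obtain ⟨l, r⟩ := t
  have h1 := sz_sym s
  have h2 := sz_tail_le r
  cases d with
  | stay => simp only [tapeAct, sz_pair, sz_cons]; omega
  | right => simp only [tapeAct, sz_pair, sz_cons]; omega
  | left =>
    simp only [tapeAct, sz_pair, sz_cons]
    cases l with
    | nil =>
      have : sz (none : Sym) = 1 := rfl
      simp only [List.tail_nil, List.headD_nil]
      omega
    | cons a l =>
      simp only [List.tail_cons, List.headD_cons, sz_cons]
      omega

theorem exists_sz_bound (Q : Type) [Finite Q] [Enc Q] : ∃ C, ∀ q : Q, sz q ≤ C := by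
  obtain ⟨C, hC⟩ := (Set.finite_range (fun q : Q => sz q)).bddAbove
  exact ⟨C, fun q => hC ⟨q, rfl⟩⟩

theorem exists_growth (M : TM) : ∃ d, ∀ (A : Orc) (s : CC M), sz (stepC M A s) ≤ sz s + d := by
  classical
  have := M.fin
  obtain ⟨C, hC⟩ := exists_sz_bound M.Q
  refine ⟨C + (M.K + 2) * 8, fun A s => ?_⟩
  have hs : sz s = sz s.1 + (sz s.2.1 + sz s.2.2 + 1) + 1 := rfl
  unfold stepC
  cases hact : M.act s.1 with
  | move f =>
    simp only [sz_pair]
    rw [hs, sz_fin, sz_fin]
    have h1 : ∑ i, (sz (tapeAct (s.2.1 i) ((f fun i => (s.2.1 i).2.headD none).2 i).1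
        ((f fun i => (s.2.1 i).2.headD none).2 i).2) + 1) ≤
        ∑ i, (sz (s.2.1 i) + 1) + (M.K + 2) * 8 := by
      have : (M.K + 2) * 8 = ∑ _i : Fin (M.K + 2), 8 := by simp
      rw [this, ← Finset.sum_add_distrib]
      refine Finset.sum_le_sum fun i _ => ?_
      have := sz_tapeAct (s.2.1 i) ((f fun i => (s.2.1 i).2.headD none).2 i).1
        ((f fun i => (s.2.1 i).2.headD none).2 i).2
      omega
    have h2 := hC (f fun i => (s.2.1 i).2.headD none).1
    omega
  | ask yes no =>
    simp only [sz_pair]
    have h2 := hC (if tword (s.2.1 1) ∈ A then yes else no)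
    omega
  | choose q₀ q₁ =>
    simp only [sz_pair]
    have h2 := hC (if s.2.2.headD false = true then q₁ else q₀)
    have h3 := sz_tail_le s.2.2
    omega
  | halt b => simp only; omega

theorem PTf.initC (M : TM) {w y : Orc → α → List Bool} (hw : PTf 𝒜 w) (hy : PTf 𝒜 y) :
    PTf 𝒜 (fun A x => LibComplexity.initC M (w A x) (y A x)) := by
  have := M.fin
  refine (PTf.const M.start).pair (PTf.pair (PTf.finFun fun i => ?_) hy)
  by_cases hi : i = 0
  · subst hi
    simp only [if_true]
    exact (PTf.const []).pair (hw.map (g := fun _ _ b => Option.some b) PTf.id.snd.some)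
  · simp only [if_neg hi]
    exact PTf.const _

/-- the state of the simulated machine after `n` steps -/
theorem PTf.simC (M : TM) {w y : Orc → α → List Bool} {n : Orc → α → ℕ} (hw : PTf 𝒜 w)
    (hy : PTf 𝒜 y) (hn : PTf 𝒜 n) :
    PTf 𝒜 (fun A x => (LibComplexity.stepC M A)^[n A x] (LibComplexity.initC M (w A x) (y A x))) := by
  obtain ⟨d, hd⟩ := exists_growth M
  exact PTf.iter_grow hn (PTf.initC M hw hy) (PTf.stepC M) (fun A _ s => hd A s)

/-- the answer of a state -/
def answer (M : TM) (q : M.Q) : Bool :=
  match M.act q with
  | .halt b => b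
  | _ => false

theorem PTf.answer (M : TM) {q : Orc → α → M.Q} (hq : PTf 𝒜 q) :
    PTf 𝒜 (fun A x => LibComplexity.answer M (q A x)) := by
  have := M.fin
  exact PTf.ofFinite _ hq

theorem replicate_getD (n : ℕ) : (fun k => (List.replicate n false).getD k false) =
    fun _ => false := by
  funext k
  simp [List.getD_eq_getElem?_getD, List.getElem?_replicate]
  split_ifs <;> rfl

/-- Languages in `P^A` are decided in the calculus. -/
theorem ptf_of_inP {A : Orc} {L : Set (List Bool)} (h : InP A L) :
    ∃ f : Orc → List Bool → Bool, PTf {A} f ∧ ∀ w, f A w = true ↔ w ∈ L := by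
  obtain ⟨M, p, hdet, hT, hL⟩ := h
  refine ⟨fun A w => answer M ((stepC M A)^[p.eval w.length] (initC M w [])).1,
    PTf.answer M (PTf.simC M PTf.id (PTf.const []) (PTf.id.length.poly p)).fst, fun w => ?_⟩
  obtain ⟨c, b, hc⟩ := hT A rfl w (fun k => ([] : List Bool).getD k false)
  have h1 := repC_halts hc
  have h2 : answer M ((stepC M A)^[p.eval w.length] (initC M w [])).1 = b := by
    obtain ⟨n, hn, h3, h4⟩ := hc
    rw [← h1.q]
    unfold answer
    rw [h4]
  show answer M ((stepC M A)^[p.eval w.length] (initC M w [])).1 = true ↔ w ∈ L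
  rw [h2, ← hL]
  constructor
  · intro hb
    rw [hb] at hc
    exact ⟨_, _, _, hc⟩
  · rintro ⟨β, t, c', h'⟩
    -- the machine is deterministic: the choice bits do not matter
    have key : ∀ (β β' : ℕ → Bool) (n : ℕ) (c : Cfg M), M.run A w β n = some c →
        ∃ c', M.run A w β' n = some c' ∧ c'.q = c.q ∧ c'.tape = c.tape ∧ c'.head = c.head := by
      intro β β' n
      induction n with
      | zero =>
        intro c hc
        simp only [TM.run, iterate_zero, id, Option.some.injEq] at hc ⊢
        subst hc
        exact ⟨_, rfl, rfl, rfl, rfl⟩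
      | succ n ih =>
        intro c hc
        unfold TM.run at hc ⊢
        rw [iterate_succ_apply'] at hc ⊢
        cases hn : M.run A w β n with
        | none =>
          unfold TM.run at hn
          rw [hn] at hc
          cases hc
        | some c₁ =>
          obtain ⟨c₂, h1, h2, h3, h4⟩ := ih c₁ hn
          unfold TM.run at hn h1
          rw [hn] at hc
          rw [h1]
          simp only [Option.bind_some] at hc ⊢
          unfold TM.step at hc ⊢
          rw [h2, h3, h4]
          cases hact : M.act c₁.q with
          | move f =>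
            rw [hact] at hc
            simp only [Option.some.injEq] at hc
            subst hc
            exact ⟨_, rfl, rfl, rfl, rfl⟩
          | ask yes no =>
            rw [hact] at hc
            simp only [Option.some.injEq] at hc
            subst hc
            exact ⟨_, rfl, rfl, rfl, rfl⟩
          | choose q₀ q₁ => exact absurd hact (hdet _ _ _)
          | halt b =>
            rw [hact] at hc
            cases hc
    obtain ⟨n, hn, h3, h4⟩ := h'
    obtain ⟨c₂, h5, h6, -, -⟩ := key β (fun k => ([] : List Bool).getD k false) n c' h3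
    have h7 : M.Halts A w (fun k => ([] : List Bool).getD k false) n c₂ true :=
      ⟨n, le_rfl, h5, by rw [h6]; exact h4⟩
    exact (Halts.unique hc h7).1

/-- Functions in `FP^A` are computed in the calculus. -/
theorem ptf_of_inFP {A : Orc} {f : List Bool → List Bool} (h : InFP A f) :
    PTf {A} (fun _ w => f w) := by
  obtain ⟨M, p, hdet, hT⟩ := h
  refine (PTf.tword ((PTf.simC M PTf.id (PTf.const [])
    (PTf.id.length.poly p)).snd.fst.finApp 0)).congr fun A' hA' w => ?_
  obtain rfl : A' = A := hA'
  obtain ⟨c, b, hc, hout⟩ := hT w (fun k => ([] : List Bool).getD k false)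
  have h1 := repC_halts hc
  exact onTape_unique (onTape_tword (h1.tape 0)) hout

theorem inP_iff {A : Orc} {L : Set (List Bool)} :
    InP A L ↔ ∃ f : Orc → List Bool → Bool, PTf {A} f ∧ ∀ w, f A w = true ↔ w ∈ L := by
  constructor
  · exact ptf_of_inP
  · rintro ⟨f, hf, h⟩
    have := inP_of_PTf hf
    have h2 : {w | f A w = true} = L := by ext w; exact h w
    rwa [h2] at this

theorem inFP_iff {A : Orc} {f : List Bool → List Bool} : InFP A f ↔ PTf {A} (fun _ w => f w) :=
  ⟨ptf_of_inFP, fun h => inFP_of_PTf h⟩

/-- Nondeterministic machines have polynomial-time verifiers. -/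
theorem exists_verifier {M : TM} {p : Polynomial ℕ} (hT : M.TimeBound 𝒜 p) :
    ∃ V : Orc → List Bool × List Bool → Bool, PTf 𝒜 V ∧
      ∀ A ∈ 𝒜, ∀ x, x ∈ M.lang A ↔ ∃ y : List Bool, y.length = p.eval x.length ∧ V A (x, y) = true := by
  refine ⟨fun A xy => answer M ((stepC M A)^[p.eval xy.1.length] (initC M xy.1 xy.2)).1,
    PTf.answer M (PTf.simC M PTf.id.fst PTf.id.snd (PTf.id.fst.length.poly p)).fst,
    fun A hA x => ?_⟩
  have hans : ∀ (y : List Bool) (c : Cfg M) (b : Bool),
      M.Halts A x (fun k => y.getD k false) (p.eval x.length) c b →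
      answer M ((stepC M A)^[p.eval x.length] (initC M x y)).1 = b := by
    intro y c b hc
    have h1 := repC_halts hc
    obtain ⟨n, hn, h3, h4⟩ := hc
    rw [← h1.q]
    unfold answer
    rw [h4]
  constructor
  · rintro ⟨β, t, c, n, hn, h1, h2⟩
    -- the run depends only on the first choice bits
    obtain ⟨c0, b0, n0, hn0, h3, h4⟩ := hT A hA x β
    have hu := Halts.unique (⟨n, le_rfl, h1, h2⟩ : M.Halts A x β n c true)
      (⟨n0, le_rfl, h3, h4⟩ : M.Halts A x β n0 c0 b0)
    obtain ⟨hb, -⟩ := hu
    subst hb
    let T := p.eval x.length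
    let y : List Bool := (List.range T).map β
    have hy : ∀ k < T, y.getD k false = β k := by
      intro k hk
      simp only [y, List.getD_eq_getElem?_getD, List.getElem?_map, List.getElem?_range hk]
      rfl
    have key : ∀ n ≤ T, ∀ c : Cfg M, M.run A x β n = some c →
        ∃ c', M.run A x (fun k => y.getD k false) n = some c' ∧ c'.q = c.q ∧ c'.tape = c.tape ∧
          c'.head = c.head ∧ ∃ m ≤ n, (∀ k, c.ch k = β (m + k)) ∧
            ∀ k, c'.ch k = y.getD (m + k) false := by
      intro n
      induction n with
      | zero =>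
        intro _ c hc
        simp only [TM.run, iterate_zero, id, Option.some.injEq] at hc ⊢
        subst hc
        exact ⟨_, rfl, rfl, rfl, rfl, 0, le_rfl, fun k => by simp [TM.init],
          fun k => by simp [TM.init]⟩
      | succ n ih =>
        intro hnT c hc
        unfold TM.run at hc ⊢
        rw [iterate_succ_apply'] at hc ⊢
        cases hn : M.run A x β n with
        | none =>
          unfold TM.run at hn
          rw [hn] at hc
          cases hc
        | some c₁ =>
          obtain ⟨c₂, h1, h2, h3, h4, m, hm, h5, h6⟩ := ih (by omega) c₁ hn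
          unfold TM.run at hn h1
          rw [hn] at hc
          rw [h1]
          simp only [Option.bind_some] at hc ⊢
          unfold TM.step at hc ⊢
          rw [h2, h3, h4]
          cases hact : M.act c₁.q with
          | move f =>
            rw [hact] at hc
            simp only [Option.some.injEq] at hc
            subst hc
            exact ⟨_, rfl, rfl, rfl, rfl, m, by omega, h5, h6⟩
          | ask yes no =>
            rw [hact] at hc
            simp only [Option.some.injEq] at hc
            subst hc
            exact ⟨_, rfl, rfl, rfl, rfl, m, by omega, h5, h6⟩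
          | choose q₀ q₁ =>
            rw [hact] at hc
            simp only [Option.some.injEq] at hc
            subst hc
            refine ⟨_, rfl, ?_, rfl, rfl, m + 1, by omega, fun k => ?_, fun k => ?_⟩
            · simp only [h5, h6]
              rw [hy (m + 0) (by omega)]
            · simp only [h5]; congr 1; ring
            · simp only [h6]; congr 1; ring
          | halt b =>
            rw [hact] at hc
            cases hc
    obtain ⟨c', h5, h6, -⟩ := key n0 hn0 c0 h3
    exact ⟨y, by simp [y, T], hans y c' true ⟨n0, hn0, h5, by rw [h6]; exact h4⟩⟩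
  · rintro ⟨y, hy, h⟩
    obtain ⟨c, b, hc⟩ := hT A hA x (fun k => y.getD k false)
    have h1 := hans y c b hc
    have h2 : answer M ((stepC M A)^[p.eval x.length] (initC M x y)).1 = true := h
    rw [h2] at h1
    rw [← h1] at hc
    exact ⟨_, _, _, hc⟩

theorem inNP_iff {A : Orc} {L : Set (List Bool)} :
    InNP A L ↔ ∃ (V : Orc → List Bool × List Bool → Bool) (q : Polynomial ℕ), PTf {A} V ∧
      ∀ x, x ∈ L ↔ ∃ y : List Bool, y.length = q.eval x.length ∧ V A (x, y) = true := by
  constructor
  · rintro ⟨M, p, hT, hL⟩
    obtain ⟨V, hV, h⟩ := exists_verifier hT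
    refine ⟨V, p, hV, fun x => ?_⟩
    rw [← hL]
    exact h A rfl x
  · rintro ⟨V, q, hV, h⟩
    obtain ⟨M, p, h1, h2⟩ := exists_ntm hV q
    refine ⟨M, p, h1, ?_⟩
    rw [h2 A rfl]
    ext x
    exact (h x).symm

end Pool.Agent.LibComplexity
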