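import Pool.Agent.LibComplexity.Tree

/-!
Basic closure properties of the polynomial-time functions: pairing, projections, case
distinctions, iteration, oracle queries.
-/

namespace Pool.Agent.LibComplexity

open Function Enc

variable {𝒜 : Set Orc} {α β γ δ τ : Type} [Enc α] [Enc β] [Enc γ] [Enc δ] [Enc τ]

theorem Runs.casT' {A k ce cf ct σ σ1 σ' n} {r} (hk : σ k = true :: r) (hσ : update σ k r = σ1)
    (h : Runs A ct σ1 σ' n) : Runs A (.cas k ce cf ct) σ σ' (n + 2) := by
  subst hσ; exact Runs.casT hk h

theorem pad2 (w : List Bool) : R [w] = R [w, [], []] := by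
  rw [R_pad2, R_pad1]

theorem pad3 (w : List Bool) : R [w] = R [w, [], [], []] := by
  rw [R_pad3, R_pad2, R_pad1]

/-- move register `2` on top of register `0`, keeping the order -/
def prepend : Com := .seq (mv 2 3) (mv 3 0)

theorem det_prepend : prepend.Det := ⟨det_mv _ _, det_mv _ _⟩

theorem runs_prepend {A : Set (List Bool)} (v w : List Bool) :
    Runs A prepend (R [w, [], v]) (R [v ++ w]) (6 * v.length + 2) := by
  rw [← R_pad3]
  have h1 := runs_mv (A := A) (a := 2) (b := 3) (by decide) v (R [w, [], v, []]) rfl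
  have e1 : update (update (R [w, [], v, []]) 2 []) 3 (v.reverse ++ (R [w, [], v, []]) 3) =
      R [w, [], [], v.reverse] := by
    simp [R_update, R]
  rw [e1] at h1
  have h2 := runs_mv (A := A) (a := 3) (b := 0) (by decide) v.reverse
    (R [w, [], [], v.reverse]) rfl
  have e2 : update (update (R [w, [], [], v.reverse]) 3 []) 0
      (v.reverse.reverse ++ (R [w, [], [], v.reverse]) 0) = R [v ++ w] := by
    rw [pad3]
    simp [R_update, R]
  rw [e2] at h2
  refine (h1.seq h2).mono ?_
  rw [List.length_reverse]
  omega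

namespace PTf

/-- pairing -/
theorem pair {f : Orc → α → β} {g : Orc → α → γ} (hf : PTf 𝒜 f) (hg : PTf 𝒜 g) :
    PTf 𝒜 (fun A x => (f A x, g A x)) := by
  obtain ⟨Q, hQ⟩ := hf.size_le
  obtain ⟨c, hc, P, hP⟩ := hf
  obtain ⟨c', hc', P', hP'⟩ := hg
  refine ⟨.seq copy (.seq (call c' 0 1) (.seq (call c 2 1) (.seq prepend (.push 0 true)))),
    ⟨det_copy, det_call hc' _ _, det_call hc _ _, det_prepend, trivial⟩,
    7 * Polynomial.X + P' + P + 6 * Q + 5, fun A hA x => ?_⟩
  have h1 := runs_copy (A := A) (e x).enc
  have h2 : Runs A (call c' 0 1) (R [(e x).enc, [], (e x).enc])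
      (R [(e (g A x)).enc, [], (e x).enc]) (P'.eval (sz x)) :=
    runs_callR (hP' A hA x) (by decide) (by simp) (by simp) (by simp)
  have h3 : Runs A (call c 2 1) (R [(e (g A x)).enc, [], (e x).enc])
      (R [(e (g A x)).enc, [], (e (f A x)).enc]) (P.eval (sz x)) :=
    runs_callR (hP A hA x) (by decide) (by simp) (by simp) (by simp)
  have h4 := runs_prepend (A := A) (e (f A x)).enc (e (g A x)).enc
  have h5 := Runs.push (A := A) (k := 0) (b := true)
    (σ := R [(e (f A x)).enc ++ (e (g A x)).enc])
  refine (h1.seq (h2.seq (h3.seq (h4.seq h5)))).cast ?_ ?_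
  · rw [R_update _ _ _ (by simp)]
    rfl
  · have := hQ A hA x
    simp only [Tr.length_enc, Polynomial.eval_add, Polynomial.eval_mul, Polynomial.eval_X,
      Polynomial.eval_ofNat]
    unfold sz at *
    omega

end PTf

/-- the first component of a tree -/
def Tr.fst : Tr → Tr
  | .nil => .nil
  | .cons a _ => a

/-- the second component of a tree -/
def Tr.snd : Tr → Tr
  | .nil => .nil
  | .cons _ b => b

/-- distinguishes leaves and inner nodes -/
def Tr.isCons : Tr → Bool
  | .nil => false
  | .cons _ _ => true

/-- program for `Tr.fst` -/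
def fstCom : Com := .cas 0 .skip (.push 0 false) (.seq (.push 3 true) (.seq (parse 0 2 3)
  (.seq (clear 0) (mv 2 0))))

theorem PTf.tfst : PTf 𝒜 (fun _ (x : Tr) => x.fst) := by
  refine ⟨fstCom, ⟨trivial, trivial, trivial, det_parse _ _ _, det_clear _, det_mv _ _⟩,
    12 * Polynomial.X + 6, fun A _ x => ?_⟩
  have hid : ∀ y : Tr, e y = y := fun _ => rfl
  simp only [hid]
  have hsz : sz x = x.size := rfl
  rw [hsz, pad3]
  cases x with
  | nil =>
    refine (Runs.casF (r := []) rfl Runs.push).cast ?_ ?_
    · rw [R_update _ _ _ (by simp)]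
      simp [R, R_update, Tr.fst, Tr.enc]
      funext k
      rcases k with _ | _ | _ | _ | k <;> rfl
    · simp
  | cons a b =>
    have e0 : update (R [(Tr.cons a b).enc, [], [], []]) 0 (a.enc ++ b.enc) =
        R [a.enc ++ b.enc, [], [], []] := by
      rw [R_update _ _ _ (by simp)]; rfl
    have h1 := Runs.push (A := A) (k := 3) (b := true) (σ := R [a.enc ++ b.enc, [], [], []])
    rw [R_update _ _ _ (by simp)] at h1
    have h2 := runs_parse (A := A) (a := 0) (b := 2) (c := 3) (by decide) (by decide) (by decide)
      a (R [a.enc ++ b.enc, [], [], [true]]) b.enc rfl rfl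
    rw [R_update _ _ _ (by simp), List.set_cons_zero, R_update _ _ _ (by simp)] at h2
    simp only [List.set_cons_zero, List.set_cons_succ] at h2
    rw [R_update _ _ _ (by simp)] at h2
    simp only [List.set_cons_zero, List.set_cons_succ] at h2
    have h3 := runs_clear (A := A) (a := 0) b.enc
      (R [b.enc, [], a.enc.reverse ++ (R [a.enc ++ b.enc, [], [], [true]]) 2, []]) rfl
    rw [R_update _ _ _ (by simp), List.set_cons_zero] at h3
    have h4 := runs_mv (A := A) (a := 2) (b := 0) (by decide) a.enc.reverse
      (R [[], [], a.enc.reverse ++ (R [a.enc ++ b.enc, [], [], [true]]) 2, []])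
      (by simp [R])
    have h5 := h1.seq (h2.seq (h3.seq h4))
    refine (Runs.casT' rfl e0 h5).cast ?_ ?_
    · rw [pad3, R_update _ _ _ (by simp), R_update _ _ _ (by simp)]
      simp [R, Tr.fst]
    · simp only [Tr.length_enc, List.length_reverse, Tr.size, Polynomial.eval_add,
        Polynomial.eval_mul, Polynomial.eval_X, Polynomial.eval_ofNat]
      omega

/-- program for `Tr.snd` -/
def sndCom : Com := .cas 0 .skip (.push 0 false) (.seq (.push 3 true) (.seq (parse 0 2 3)
  (clear 2)))

theorem PTf.tsnd : PTf 𝒜 (fun _ (x : Tr) => x.snd) := by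
  refine ⟨sndCom, ⟨trivial, trivial, trivial, det_parse _ _ _, det_clear _⟩,
    12 * Polynomial.X + 6, fun A _ x => ?_⟩
  have hid : ∀ y : Tr, e y = y := fun _ => rfl
  simp only [hid]
  have hsz : sz x = x.size := rfl
  rw [hsz, pad3]
  cases x with
  | nil =>
    refine (Runs.casF (r := []) rfl Runs.push).cast ?_ ?_
    · rw [R_update _ _ _ (by simp)]
      simp [R, R_update, Tr.snd, Tr.enc]
      funext k
      rcases k with _ | _ | _ | _ | k <;> rfl
    · simp
  | cons a b =>
    have e0 : update (R [(Tr.cons a b).enc, [], [], []]) 0 (a.enc ++ b.enc) =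
        R [a.enc ++ b.enc, [], [], []] := by
      rw [R_update _ _ _ (by simp)]; rfl
    have h1 := Runs.push (A := A) (k := 3) (b := true) (σ := R [a.enc ++ b.enc, [], [], []])
    rw [R_update _ _ _ (by simp)] at h1
    have h2 := runs_parse (A := A) (a := 0) (b := 2) (c := 3) (by decide) (by decide) (by decide)
      a (R [a.enc ++ b.enc, [], [], [true]]) b.enc rfl rfl
    rw [R_update _ _ _ (by simp), List.set_cons_zero, R_update _ _ _ (by simp)] at h2
    simp only [List.set_cons_zero, List.set_cons_succ] at h2
    rw [R_update _ _ _ (by simp)] at h2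
    simp only [List.set_cons_zero, List.set_cons_succ] at h2
    have h3 := runs_clear (A := A) (a := 2) a.enc.reverse
      (R [b.enc, [], a.enc.reverse ++ (R [a.enc ++ b.enc, [], [], [true]]) 2, []])
      (by simp [R])
    rw [R_update _ _ _ (by simp)] at h3
    have h5 := h1.seq (h2.seq h3)
    refine (Runs.casT' rfl e0 h5).cast ?_ ?_
    · rw [pad3]
      simp [Tr.snd]
    · simp only [Tr.length_enc, List.length_reverse, Tr.size, Polynomial.eval_add,
        Polynomial.eval_mul, Polynomial.eval_X, Polynomial.eval_ofNat]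
      omega

/-- program for `Tr.isCons` -/
def isConsCom : Com := .cas 0 .skip (.push 0 false)
  (.seq (clear 0) (pushw 0 [true, false, false]))

theorem PTf.isCons : PTf 𝒜 (fun _ (x : Tr) => x.isCons) := by
  refine ⟨isConsCom, ⟨trivial, trivial, det_clear _, det_pushw _ _⟩,
    2 * Polynomial.X + 6, fun A _ x => ?_⟩
  have hid : ∀ y : Tr, e y = y := fun _ => rfl
  have hid' : ∀ y : Bool, e y = eBool y := fun _ => rfl
  simp only [hid, hid']
  have hsz : sz x = x.size := rfl
  rw [hsz]
  cases x with
  | nil =>
    refine (Runs.casF (r := []) rfl Runs.push).cast ?_ ?_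
    · rw [R_update _ _ _ (by simp), R_update _ _ _ (by simp)]
      simp [R, Tr.isCons, Tr.enc, eBool]
    · simp
  | cons a b =>
    have e0 : update (R [(Tr.cons a b).enc]) 0 (a.enc ++ b.enc) =
        R [a.enc ++ b.enc] := by
      rw [R_update _ _ _ (by simp)]; rfl
    have h1 := runs_clear (A := A) (a := 0) (a.enc ++ b.enc) (R [a.enc ++ b.enc]) rfl
    have h2 := runs_pushw (A := A) (a := 0) [true, false, false]
      (update (R [a.enc ++ b.enc]) 0 [])
    have h5 := h1.seq h2
    refine (Runs.casT' rfl e0 h5).cast ?_ ?_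
    · rw [R_update _ _ _ (by simp), R_update _ _ _ (by simp)]
      simp [R, Tr.isCons, Tr.enc, eBool]
    · simp only [Tr.length_enc, List.length_append, Tr.size, Polynomial.eval_add,
        Polynomial.eval_mul, Polynomial.eval_X, Polynomial.eval_ofNat, List.length_cons,
        List.length_nil]
      omega

namespace PTf

theorem fst {f : Orc → γ → α × β} (hf : PTf 𝒜 f) : PTf 𝒜 (fun A x => (f A x).1) := by
  have : PTf 𝒜 (fun _ (p : α × β) => p.1) :=
    PTf.tfst.retype (fun p : α × β => e p) (fun _ => rfl) (fun _ _ _ => rfl)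
  exact this.comp hf

theorem snd {f : Orc → γ → α × β} (hf : PTf 𝒜 f) : PTf 𝒜 (fun A x => (f A x).2) := by
  have : PTf 𝒜 (fun _ (p : α × β) => p.2) :=
    PTf.tsnd.retype (fun p : α × β => e p) (fun _ => rfl) (fun _ _ _ => rfl)
  exact this.comp hf

/-- case distinction -/
theorem ite {p : Orc → α → Bool} {f g : Orc → α → β} (hp : PTf 𝒜 p) (hf : PTf 𝒜 f)
    (hg : PTf 𝒜 g) : PTf 𝒜 (fun A x => if p A x = true then f A x else g A x) := by
  obtain ⟨c0, hc0, P0, hP0⟩ := hp
  obtain ⟨c1, hc1, P1, hP1⟩ := hf
  obtain ⟨c2, hc2, P2, hP2⟩ := hg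
  refine ⟨.seq copy (.seq (call c0 2 1) (.cas 2 .skip c2 (.seq (clear 2) c1))),
    ⟨det_copy, det_call hc0 _ _, trivial, hc2, det_clear _, hc1⟩,
    7 * Polynomial.X + P0 + P1 + P2 + 9, fun A hA x => ?_⟩
  have h1 := runs_copy (A := A) (e x).enc
  have h2 : Runs A (call c0 2 1) (R [(e x).enc, [], (e x).enc])
      (R [(e x).enc, [], (e (p A x)).enc]) (P0.eval (sz x)) :=
    runs_callR (hP0 A hA x) (by decide) (by simp) (by simp) (by simp)
  have hlen : (e x).enc.length = sz x := Tr.length_enc _
  cases hpx : p A x with
  | false =>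
    rw [hpx] at h2
    have e0 : update (R [(e x).enc, [], (e false).enc]) 2 [] = R [(e x).enc] := by
      rw [R_update _ _ _ (by simp), pad2]; rfl
    have h3 : Runs A c2 (update (R [(e x).enc, [], (e false).enc]) 2 [])
        (R [(e (g A x)).enc]) (P2.eval (sz x)) := by
      rw [e0]; exact hP2 A hA x
    have h4 := h1.seq (h2.seq (Runs.casF (ce := .skip) (ct := .seq (clear 2) c1) rfl h3))
    refine h4.cast (by simp only [hpx]; rfl) ?_
    rw [hlen]
    simp only [Polynomial.eval_add, Polynomial.eval_mul, Polynomial.eval_X, Polynomial.eval_ofNat]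
    omega
  | true =>
    rw [hpx] at h2
    have e0 : update (R [(e x).enc, [], (e true).enc]) 2 [false, false] =
        R [(e x).enc, [], [false, false]] := by
      rw [R_update _ _ _ (by simp)]; rfl
    have h3 : Runs A (.seq (clear 2) c1) (update (R [(e x).enc, [], (e true).enc]) 2 [false, false])
        (R [(e (f A x)).enc]) (2 * 2 + 1 + P1.eval (sz x)) := by
      rw [e0]
      have h5 := runs_clear (A := A) (a := 2) [false, false] (R [(e x).enc, [], [false, false]]) rfl
      have e1 : update (R [(e x).enc, [], [false, false]]) 2 [] = R [(e x).enc] := by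
        rw [R_update _ _ _ (by simp), pad2]; rfl
      rw [e1] at h5
      exact h5.seq (hP1 A hA x)
    have h4 := h1.seq (h2.seq (Runs.casT (ce := .skip) (cf := c2) rfl h3))
    refine h4.cast (by simp only [hpx]; rfl) ?_
    rw [hlen]
    simp only [Polynomial.eval_add, Polynomial.eval_mul, Polynomial.eval_X, Polynomial.eval_ofNat]
    omega

end PTf

/-- number of inner nodes -/
def Tr.nodes : Tr → ℕ
  | .nil => 0
  | .cons a b => a.nodes + b.nodes + 1

theorem Tr.count_enc (t : Tr) : t.enc.count true = t.nodes := by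
  induction t with
  | nil => rfl
  | cons a b iha ihb => simp [Tr.enc, Tr.nodes, iha, ihb]

theorem Tr.nodes_le (t : Tr) : t.nodes ≤ t.size := by
  induction t with
  | nil => simp [Tr.nodes]
  | cons a b iha ihb => simp only [Tr.nodes, Tr.size]; omega

/-- the loop of an iteration: one round for each symbol `true` in register `2` -/
theorem runs_iter {A : Orc} {c : Com} {G : τ → τ} {P : Polynomial ℕ}
    (hP : ∀ x : τ, Runs A c (R [(e x).enc]) (R [(e (G x)).enc]) (P.eval (sz x))) (B : ℕ) :
    ∀ (w : List Bool) (s : τ), (∀ i ≤ w.count true, sz (G^[i] s) ≤ B) →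
      Runs A (.loop 2 .skip (call c 0 1)) (R [(e s).enc, [], w])
        (R [(e (G^[w.count true] s)).enc]) (w.length * (P.eval B + 2) + 1) := by
  intro w
  induction w with
  | nil =>
    intro s hs
    rw [R_pad2, R_pad1]
    refine (Runs.loopE ?_).mono (by simp)
    simp [R]
  | cons b w ih =>
    intro s hs
    have e1 : update (R [(e s).enc, [], b :: w]) 2 w = R [(e s).enc, [], w] := by
      rw [R_update _ _ _ (by simp)]; rfl
    have h6 : P.eval (sz s) ≤ P.eval B := peval_mono _ (hs 0 (by omega))
    have h7 : (w.length + 1) * (P.eval B + 2) + 1 =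
      w.length * (P.eval B + 2) + 1 + (P.eval B + 2) := by ring
    cases b with
    | false =>
      have hc : (false :: w).count true = w.count true := by simp
      rw [hc] at hs ⊢
      have h3 := ih s hs
      rw [← e1] at h3
      have h4 := Runs.loopF (k := 2) (cf := .skip) rfl Runs.skip h3
      refine h4.mono ?_
      rw [List.length_cons, h7]
      omega
    | true =>
      have hc : (true :: w).count true = w.count true + 1 := by simp
      rw [hc] at hs ⊢
      have h2 : Runs A (call c 0 1) (R [(e s).enc, [], w])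
          (R [(e (G s)).enc, [], w]) (P.eval (sz s)) :=
        runs_callR (hP s) (by decide) (by simp) (by simp) (by simp)
      have h3 := ih (G s) (fun i hi => by
        rw [← Function.iterate_succ_apply]
        exact hs (i + 1) (by omega))
      rw [← e1] at h2
      have h5 := Runs.loopT (k := 2) (cf := .skip) rfl h2 h3
      rw [← Function.iterate_succ_apply] at h5
      refine h5.mono ?_
      rw [List.length_cons, h7]
      omega

namespace PTf

/-- iteration, once for each inner node of a tree -/
theorem iterT {f : Orc → α → Tr} {h : Orc → α → τ} {g : Orc → τ → τ} (hf : PTf 𝒜 f)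
    (hh : PTf 𝒜 h) (hg : PTf 𝒜 g)
    (hb : ∃ Q : Polynomial ℕ, ∀ A ∈ 𝒜, ∀ x, ∀ i ≤ (f A x).nodes,
      sz ((g A)^[i] (h A x)) ≤ Q.eval (sz x)) :
    PTf 𝒜 (fun A x => (g A)^[(f A x).nodes] (h A x)) := by
  obtain ⟨Q, hQ⟩ := hb
  obtain ⟨S, hS⟩ := hf.size_le
  obtain ⟨c0, hc0, P0, hP0⟩ := hf
  obtain ⟨c1, hc1, P1, hP1⟩ := hh
  obtain ⟨c2, hc2, P2, hP2⟩ := hg
  refine ⟨.seq copy (.seq (call c1 0 1) (.seq (call c0 2 1) (.loop 2 .skip (call c2 0 1)))),
    ⟨det_copy, det_call hc1 _ _, det_call hc0 _ _, trivial, det_call hc2 _ _⟩,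
    7 * Polynomial.X + 3 + P0 + P1 + S * (P2.comp Q + 2), fun A hA x => ?_⟩
  have h1 := runs_copy (A := A) (e x).enc
  have h2 : Runs A (call c1 0 1) (R [(e x).enc, [], (e x).enc])
      (R [(e (h A x)).enc, [], (e x).enc]) (P1.eval (sz x)) :=
    runs_callR (hP1 A hA x) (by decide) (by simp) (by simp) (by simp)
  have h3 : Runs A (call c0 2 1) (R [(e (h A x)).enc, [], (e x).enc])
      (R [(e (h A x)).enc, [], (e (f A x)).enc]) (P0.eval (sz x)) :=
    runs_callR (hP0 A hA x) (by decide) (by simp) (by simp) (by simp)
  have hn : (e (f A x)).enc.count true = (f A x).nodes := Tr.count_enc _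
  have h4 := runs_iter (hP2 A hA) (Q.eval (sz x)) (e (f A x)).enc (h A x)
    (by rw [hn]; exact hQ A hA x)
  rw [hn] at h4
  refine (h1.seq (h2.seq (h3.seq h4))).mono ?_
  have h5 : (e (f A x)).enc.length ≤ S.eval (sz x) := by
    rw [Tr.length_enc]
    exact hS A hA x
  have h6 : (e (f A x)).enc.length * (P2.eval (Q.eval (sz x)) + 2) ≤
      S.eval (sz x) * (P2.eval (Q.eval (sz x)) + 2) :=
    Nat.mul_le_mul_right _ h5
  rw [Tr.length_enc]
  simp only [Polynomial.eval_add, Polynomial.eval_mul, Polynomial.eval_X, Polynomial.eval_ofNat,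
    Polynomial.eval_comp]
  have h7 : (e x).size = sz x := rfl
  omega

theorem nodes_nat (n : ℕ) : (e n).nodes = n := by
  induction n with
  | zero => rfl
  | succ n ih => rw [e_succ, Tr.nodes, ih, Tr.nodes, Nat.zero_add]

/-- iteration -/
theorem iter {f : Orc → α → ℕ} {h : Orc → α → τ} {g : Orc → τ → τ} (hf : PTf 𝒜 f)
    (hh : PTf 𝒜 h) (hg : PTf 𝒜 g)
    (hb : ∃ Q : Polynomial ℕ, ∀ A ∈ 𝒜, ∀ x, ∀ i ≤ f A x, sz ((g A)^[i] (h A x)) ≤ Q.eval (sz x)) :
    PTf 𝒜 (fun A x => (g A)^[f A x] (h A x)) := by
  have hf' : PTf 𝒜 (fun A x => e (f A x)) := hf.retype (fun x => x) (fun _ => rfl)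
    (fun _ _ _ => rfl)
  have := iterT hf' hh hg (by simpa only [nodes_nat] using hb)
  simpa only [nodes_nat] using this

end PTf

/-! ### Strings and oracle queries -/

/-- one step of the conversion: remove a symbol from the encoded list in register `0` and push it
on register `2` -/
def strBody : Com := .cas 0 .skip (.push 2 false)
  (.seq (.cas 0 .skip .skip .skip) (.seq (.cas 0 .skip .skip .skip) (.push 2 true)))

/-- the encoded list of truth values in register `0` is converted to a word, reversed, in
register `2` -/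
def unlist : Com := .loop 0 .skip strBody

theorem det_unlist : unlist.Det :=
  ⟨trivial, trivial, trivial, ⟨trivial, trivial, trivial⟩, ⟨trivial, trivial, trivial⟩, trivial⟩

theorem runs_unlist {A : Orc} : ∀ (w : List Bool) (v : List Bool),
    Runs A unlist (R [(e w).enc, [], v]) (R [[], [], w.reverse ++ v]) (11 * w.length + 3) := by
  intro w
  induction w with
  | nil =>
    intro v
    have e1 : (e ([] : List Bool)).enc = [false] := rfl
    have e0 : update (R [(e ([] : List Bool)).enc, [], v]) 0 [] = R [[], [], v] := by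
      rw [R_update _ _ _ (by simp)]; rfl
    have h1 : Runs A unlist (update (R [(e ([] : List Bool)).enc, [], v]) 0 [])
        (R [[], [], v]) 1 := by
      rw [e0]; exact Runs.loopE rfl
    exact (Runs.loopF (cf := .skip) (r := []) rfl Runs.skip h1).mono (by simp)
  | cons b w ih =>
    intro v
    cases b with
    | false =>
      have e1 : (e (false :: w)).enc = true :: false :: (e w).enc := rfl
      rw [e1]
      have e0 : update (R [true :: false :: (e w).enc, [], v]) 0 (false :: (e w).enc) =
          R [false :: (e w).enc, [], v] := by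
        rw [R_update _ _ _ (by simp)]; rfl
      have e2 : update (R [false :: (e w).enc, [], v]) 0 (e w).enc = R [(e w).enc, [], v] := by
        rw [R_update _ _ _ (by simp)]; rfl
      have h2 : Runs A strBody (R [false :: (e w).enc, [], v]) (R [(e w).enc, [], false :: v])
          (1 + 2) := by
        refine Runs.casF rfl ?_
        rw [e2]
        refine Runs.push.cast ?_ le_rfl
        rw [R_update _ _ _ (by simp)]; rfl
      rw [← e0] at h2
      refine (Runs.loopT rfl h2 (ih (false :: v))).cast ?_ ?_
      · simp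
      · simp only [List.length_cons]; omega
    | true =>
      have e1 : (e (true :: w)).enc = true :: true :: false :: false :: (e w).enc := rfl
      rw [e1]
      have e0 : update (R [true :: true :: false :: false :: (e w).enc, [], v]) 0
          (true :: false :: false :: (e w).enc) =
          R [true :: false :: false :: (e w).enc, [], v] := by
        rw [R_update _ _ _ (by simp)]; rfl
      have e2 : update (R [true :: false :: false :: (e w).enc, [], v]) 0
          (false :: false :: (e w).enc) = R [false :: false :: (e w).enc, [], v] := by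
        rw [R_update _ _ _ (by simp)]; rfl
      have e3 : update (R [false :: false :: (e w).enc, [], v]) 0
          (false :: (e w).enc) = R [false :: (e w).enc, [], v] := by
        rw [R_update _ _ _ (by simp)]; rfl
      have e4 : update (R [false :: (e w).enc, [], v]) 0
          ((e w).enc) = R [(e w).enc, [], v] := by
        rw [R_update _ _ _ (by simp)]; rfl
      have h3 : Runs A (.cas 0 .skip .skip .skip) (R [false :: false :: (e w).enc, [], v])
          (R [false :: (e w).enc, [], v]) (0 + 2) := by
        refine Runs.casF rfl ?_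
        rw [e3]
        exact Runs.skip
      have h4 : Runs A (.cas 0 .skip .skip .skip) (R [false :: (e w).enc, [], v])
          (R [(e w).enc, [], v]) (0 + 2) := by
        refine Runs.casF rfl ?_
        rw [e4]
        exact Runs.skip
      have h5 : Runs A (.push 2 true) (R [(e w).enc, [], v]) (R [(e w).enc, [], true :: v]) 1 := by
        refine Runs.push.cast ?_ le_rfl
        rw [R_update _ _ _ (by simp)]; rfl
      have h2 : Runs A strBody (R [true :: false :: false :: (e w).enc, [], v])
          (R [(e w).enc, [], true :: v]) ((0 + 2) + ((0 + 2) + 1) + 2) := by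
        refine Runs.casT rfl ?_
        rw [e2]
        exact h3.seq (h4.seq h5)
      rw [← e0] at h2
      refine (Runs.loopT rfl h2 (ih (true :: v))).cast ?_ ?_
      · simp
      · simp only [List.length_cons]; omega

namespace PTf

open Classical in
/-- oracle queries -/
theorem ask {q : Orc → α → List Bool} (hq : PTf 𝒜 q) :
    PTf 𝒜 (fun A x => decide (q A x ∈ A)) := by
  obtain ⟨Q, hQ⟩ := hq.size_le
  obtain ⟨c, hc, P, hP⟩ := hq
  refine ⟨.seq c (.seq unlist (.seq (mv 2 1) (.ask (.seq (clear 1) (pushw 0 [true, false, false]))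
    (.seq (clear 1) (pushw 0 [false]))))), ⟨hc, det_unlist, det_mv _ _,
      ⟨det_clear _, det_pushw _ _⟩, ⟨det_clear _, det_pushw _ _⟩⟩,
    P + 16 * Q + 11, fun A hA x => ?_⟩
  have h1 := hP A hA x
  rw [pad2 (e (q A x)).enc] at h1
  have h2 := runs_unlist (A := A) (q A x) []
  have h3 := runs_mv (A := A) (a := 2) (b := 1) (by decide) (q A x).reverse
    (R [[], [], (q A x).reverse ++ []]) (by simp [R])
  have e3 : update (update (R [[], [], (q A x).reverse ++ []]) 2 []) 1 ((q A x).reverse.reverse ++
      (R [[], [], (q A x).reverse ++ []]) 1) = R [[], q A x, []] := by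
    simp [R_update, R]
  rw [e3] at h3
  have hlen : (q A x).length ≤ sz (q A x) := by
    generalize q A x = w
    induction w with
    | nil => simp
    | cons b w ih => rw [sz_cons, List.length_cons]; omega
  have hQ' := hQ A hA x
  have h4 := runs_clear (A := A) (a := 1) (q A x) (R [[], q A x, []]) rfl
  by_cases hA' : q A x ∈ A
  · have h5 := runs_pushw (A := A) (a := 0) [true, false, false]
      (update (R [[], q A x, []]) 1 [])
    have h6 := h1.seq (h2.seq (h3.seq (Runs.askY (d := .seq (clear 1) (pushw 0 [false]))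
      (by simpa [R] using hA') (h4.seq h5))))
    refine h6.cast ?_ ?_
    · rw [pad2]
      simp [hA', R_update, R, e_true, Tr.enc]
    · simp only [List.length_cons, List.length_nil, Polynomial.eval_add, Polynomial.eval_mul,
        Polynomial.eval_ofNat, List.length_reverse]
      omega
  · have h5 := runs_pushw (A := A) (a := 0) [false] (update (R [[], q A x, []]) 1 [])
    have h6 := h1.seq (h2.seq (h3.seq (Runs.askN (c := .seq (clear 1)
      (pushw 0 [true, false, false])) (by simpa [R] using hA') (h4.seq h5))))
    refine h6.cast ?_ ?_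
    · rw [pad2]
      simp [hA', R_update, R, e_false, Tr.enc]
    · simp only [List.length_cons, List.length_nil, Polynomial.eval_add, Polynomial.eval_mul,
        Polynomial.eval_ofNat, List.length_reverse]
      omega

end PTf

end Pool.Agent.LibComplexity
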