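import Pool.Agent.LibComplexity.Base

/-!
The calculus of polynomial-time functions: polynomial bounds, truth values, numbers in unary,
lists, equality tests.
-/

namespace Pool.Agent.LibComplexity

open Function Enc

variable {𝒜 : Set Orc} {α β γ δ τ : Type} [Enc α] [Enc β] [Enc γ] [Enc δ] [Enc τ]

/-! ### Polynomially bounded quantities -/

/-- `b` is bounded by a polynomial in the size of the argument. -/
def PB (𝒜 : Set Orc) (b : Orc → α → ℕ) : Prop :=
  ∃ Q : Polynomial ℕ, ∀ A ∈ 𝒜, ∀ x, b A x ≤ Q.eval (sz x)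

namespace PB

theorem mono {b c : Orc → α → ℕ} (h : PB 𝒜 c) (hbc : ∀ A ∈ 𝒜, ∀ x, b A x ≤ c A x) : PB 𝒜 b := by
  obtain ⟨Q, hQ⟩ := h
  exact ⟨Q, fun A hA x => (hbc A hA x).trans (hQ A hA x)⟩

theorem const (n : ℕ) : PB 𝒜 (fun _ (_ : α) => n) := ⟨Polynomial.C n, fun _ _ _ => by simp⟩

theorem add {b c : Orc → α → ℕ} (h : PB 𝒜 b) (h' : PB 𝒜 c) : PB 𝒜 (fun A x => b A x + c A x) := by
  obtain ⟨Q, hQ⟩ := h
  obtain ⟨Q', hQ'⟩ := h'
  exact ⟨Q + Q', fun A hA x => by
    rw [Polynomial.eval_add]; exact Nat.add_le_add (hQ A hA x) (hQ' A hA x)⟩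

theorem mul {b c : Orc → α → ℕ} (h : PB 𝒜 b) (h' : PB 𝒜 c) : PB 𝒜 (fun A x => b A x * c A x) := by
  obtain ⟨Q, hQ⟩ := h
  obtain ⟨Q', hQ'⟩ := h'
  exact ⟨Q * Q', fun A hA x => by
    rw [Polynomial.eval_mul]; exact Nat.mul_le_mul (hQ A hA x) (hQ' A hA x)⟩

theorem pow {b : Orc → α → ℕ} (h : PB 𝒜 b) (k : ℕ) : PB 𝒜 (fun A x => b A x ^ k) := by
  obtain ⟨Q, hQ⟩ := h
  exact ⟨Q ^ k, fun A hA x => by
    rw [Polynomial.eval_pow]; exact Nat.pow_le_pow_left (hQ A hA x) k⟩

theorem poly {b : Orc → α → ℕ} (h : PB 𝒜 b) (P : Polynomial ℕ) :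
    PB 𝒜 (fun A x => P.eval (b A x)) := by
  obtain ⟨Q, hQ⟩ := h
  exact ⟨P.comp Q, fun A hA x => by
    rw [Polynomial.eval_comp]; exact peval_mono _ (hQ A hA x)⟩

theorem sz {f : Orc → α → β} (h : PTf 𝒜 f) : PB 𝒜 (fun A x => sz (f A x)) := h.size_le

theorem self : PB 𝒜 (fun _ (x : α) => LibComplexity.sz x) := ⟨Polynomial.X, fun _ _ _ => by simp⟩

theorem nat {f : Orc → α → ℕ} (h : PTf 𝒜 f) : PB 𝒜 (fun A x => f A x) :=
  (PB.sz h).mono fun A _ x => by rw [sz_nat]; omega

end PB

namespace PTf

/-! ### Trees -/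

theorem toTr {f : Orc → α → β} (h : PTf 𝒜 f) : PTf 𝒜 (fun A x => e (f A x)) :=
  h.retype (fun x => x) (fun _ => rfl) (fun _ _ _ => rfl)

theorem ofTr {f : Orc → α → β} (h : PTf 𝒜 (fun A x => e (f A x))) : PTf 𝒜 f :=
  h.retype (fun x => x) (fun _ => rfl) (fun _ _ _ => rfl)

/-- If the encodings of the values agree with a polynomial-time function with values in trees. -/
theorem ofTr' {f : Orc → α → β} {g : Orc → α → Tr} (h : PTf 𝒜 g)
    (hfg : ∀ A ∈ 𝒜, ∀ x, e (f A x) = g A x) : PTf 𝒜 f :=
  h.retype (fun x => x) (fun _ => rfl) hfg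

theorem tfst' {f : Orc → α → Tr} (h : PTf 𝒜 f) : PTf 𝒜 (fun A x => (f A x).fst) :=
  PTf.tfst.comp h

theorem tsnd' {f : Orc → α → Tr} (h : PTf 𝒜 f) : PTf 𝒜 (fun A x => (f A x).snd) :=
  PTf.tsnd.comp h

theorem tisCons {f : Orc → α → Tr} (h : PTf 𝒜 f) : PTf 𝒜 (fun A x => (f A x).isCons) :=
  PTf.isCons.comp h

theorem tcons {f g : Orc → α → Tr} (hf : PTf 𝒜 f) (hg : PTf 𝒜 g) :
    PTf 𝒜 (fun A x => Tr.cons (f A x) (g A x)) :=
  (hf.pair hg).retype (fun x => x) (fun _ => rfl) (fun _ _ _ => rfl)

/-! ### Composition in the form used below -/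

theorem comp₂ {g : Orc → β → γ → δ} (hg : PTf 𝒜 (fun A (p : β × γ) => g A p.1 p.2))
    {f : Orc → α → β} {h : Orc → α → γ} (hf : PTf 𝒜 f) (hh : PTf 𝒜 h) :
    PTf 𝒜 (fun A x => g A (f A x) (h A x)) :=
  hg.comp (hf.pair hh)

/-! ### Truth values -/

theorem ifP {p : Orc → α → Prop} [∀ A x, Decidable (p A x)] {f g : Orc → α → β}
    (hp : PTf 𝒜 (fun A x => decide (p A x))) (hf : PTf 𝒜 f)
    (hg : PTf 𝒜 g) : PTf 𝒜 (fun A x => if p A x then f A x else g A x) :=
  (hp.ite hf hg).congr fun A _ x => by simp only [decide_eq_true_eq]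

theorem decide_eq_true' {p : Orc → α → Bool} [∀ A x, Decidable (p A x = true)] (hp : PTf 𝒜 p) :
    PTf 𝒜 (fun A x => decide (p A x = true)) :=
  hp.congr fun A _ x => by by_cases h : p A x = true <;> simp [h]

theorem bnot {p : Orc → α → Bool} (hp : PTf 𝒜 p) : PTf 𝒜 (fun A x => !p A x) :=
  (hp.ite (PTf.const false) (PTf.const true)).congr fun A _ x => by cases p A x <;> rfl

theorem band {p q : Orc → α → Bool} (hp : PTf 𝒜 p) (hq : PTf 𝒜 q) :
    PTf 𝒜 (fun A x => p A x && q A x) :=
  (hp.ite hq (PTf.const false)).congr fun A _ x => by cases p A x <;> rfl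

theorem bor {p q : Orc → α → Bool} (hp : PTf 𝒜 p) (hq : PTf 𝒜 q) :
    PTf 𝒜 (fun A x => p A x || q A x) :=
  (hp.ite (PTf.const true) hq).congr fun A _ x => by cases p A x <;> rfl

theorem decide_and {p q : Orc → α → Prop} [∀ A x, Decidable (p A x)] [∀ A x, Decidable (q A x)]
    [∀ A x, Decidable (p A x ∧ q A x)]
    (hp : PTf 𝒜 (fun A x => decide (p A x))) (hq : PTf 𝒜 (fun A x => decide (q A x))) :
    PTf 𝒜 (fun A x => decide (p A x ∧ q A x)) :=
  (hp.band hq).congr fun A _ x => by simp

theorem decide_or {p q : Orc → α → Prop} [∀ A x, Decidable (p A x)] [∀ A x, Decidable (q A x)]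
    [∀ A x, Decidable (p A x ∨ q A x)]
    (hp : PTf 𝒜 (fun A x => decide (p A x))) (hq : PTf 𝒜 (fun A x => decide (q A x))) :
    PTf 𝒜 (fun A x => decide (p A x ∨ q A x)) :=
  (hp.bor hq).congr fun A _ x => by simp

theorem decide_not {p : Orc → α → Prop} [∀ A x, Decidable (p A x)] [∀ A x, Decidable (¬ p A x)]
    (hp : PTf 𝒜 (fun A x => decide (p A x))) :
    PTf 𝒜 (fun A x => decide (¬ p A x)) :=
  hp.bnot.congr fun A _ x => by simp

/-! ### Options -/

theorem some {f : Orc → α → β} (hf : PTf 𝒜 f) : PTf 𝒜 (fun A x => some (f A x)) :=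
  (hf.toTr.tcons (PTf.const .nil)).ofTr' fun _ _ _ => rfl

theorem isSome {f : Orc → α → Option β} (hf : PTf 𝒜 f) : PTf 𝒜 (fun A x => (f A x).isSome) :=
  hf.toTr.tisCons.congr fun A _ x => by
    cases f A x <;> rfl

theorem getD {f : Orc → α → Option β} {g : Orc → α → β} (hf : PTf 𝒜 f) (hg : PTf 𝒜 g) :
    PTf 𝒜 (fun A x => (f A x).getD (g A x)) :=
  (hf.isSome.ite hf.toTr.tfst' hg.toTr).ofTr' fun A _ x => by
    cases f A x <;> rfl

/-! ### Lists -/

theorem cons {f : Orc → α → β} {g : Orc → α → List β} (hf : PTf 𝒜 f) (hg : PTf 𝒜 g) :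
    PTf 𝒜 (fun A x => f A x :: g A x) :=
  (hf.toTr.tcons hg.toTr).ofTr' fun _ _ _ => rfl

theorem isEmpty {f : Orc → α → List β} (hf : PTf 𝒜 f) : PTf 𝒜 (fun A x => (f A x).isEmpty) :=
  hf.toTr.tisCons.bnot.congr fun A _ x => by
    cases f A x <;> rfl

theorem tail {f : Orc → α → List β} (hf : PTf 𝒜 f) : PTf 𝒜 (fun A x => (f A x).tail) :=
  hf.toTr.tsnd'.ofTr' fun A _ x => by
    cases f A x <;> rfl

theorem headD {f : Orc → α → List β} {g : Orc → α → β} (hf : PTf 𝒜 f) (hg : PTf 𝒜 g) :
    PTf 𝒜 (fun A x => (f A x).headD (g A x)) :=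
  (hf.isEmpty.ite hg.toTr hf.toTr.tfst').ofTr' fun A _ x => by
    cases f A x <;> rfl

theorem head? {f : Orc → α → List β} (hf : PTf 𝒜 f) :
    PTf 𝒜 (fun A x => (f A x).head?) :=
  (hf.isEmpty.ite (PTf.const .nil) (hf.toTr.tfst'.tcons (PTf.const .nil))).ofTr' fun A _ x => by
    cases f A x <;> rfl

/-! ### Numbers -/

theorem succ {f : Orc → α → ℕ} (hf : PTf 𝒜 f) : PTf 𝒜 (fun A x => f A x + 1) :=
  (PTf.const Tr.nil |>.tcons hf.toTr).ofTr' fun _ _ _ => rfl

theorem pred {f : Orc → α → ℕ} (hf : PTf 𝒜 f) : PTf 𝒜 (fun A x => f A x - 1) :=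
  hf.toTr.tsnd'.ofTr' fun A _ x => by
    cases f A x <;> rfl

theorem isPos {f : Orc → α → ℕ} (hf : PTf 𝒜 f) : PTf 𝒜 (fun A x => decide (0 < f A x)) :=
  hf.toTr.tisCons.congr fun A _ x => by
    cases f A x with
    | zero => rfl
    | succ n => simp [e_succ, Tr.isCons]

end PTf

/-! ### Iteration with bounded growth -/

/-- iteration, bound given by a polynomially bounded quantity -/
theorem PTf.iter' {f : Orc → α → ℕ} {h : Orc → α → τ} {g : Orc → τ → τ} (hf : PTf 𝒜 f)
    (hh : PTf 𝒜 h) (hg : PTf 𝒜 g) {b : Orc → α → ℕ} (hb : PB 𝒜 b)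
    (hb' : ∀ A ∈ 𝒜, ∀ x, ∀ i ≤ f A x, sz ((g A)^[i] (h A x)) ≤ b A x) :
    PTf 𝒜 (fun A x => (g A)^[f A x] (h A x)) := by
  obtain ⟨Q, hQ⟩ := hb
  exact PTf.iter hf hh hg ⟨Q, fun A hA x i hi => (hb' A hA x i hi).trans (hQ A hA x)⟩

namespace PTf

theorem add {f g : Orc → α → ℕ} (hf : PTf 𝒜 f) (hg : PTf 𝒜 g) :
    PTf 𝒜 (fun A x => f A x + g A x) := by
  have key : ∀ (n m : ℕ), (fun k : ℕ => k + 1)^[n] m = m + n := by
    intro n
    induction n with
    | zero => intro m; rfl
    | succ n ih => intro m; rw [iterate_succ_apply, ih]; omega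
  have := PTf.iter' (g := fun _ k => k + 1) hg hf (PTf.id.succ)
    (b := fun A x => 2 * (f A x + g A x) + 1)
    (((PB.const 2).mul ((PB.nat hf).add (PB.nat hg))).add (PB.const 1)) (by
      intro A hA x i hi
      rw [key, sz_nat]
      omega)
  exact this.congr fun A _ x => key _ _

theorem sub {f g : Orc → α → ℕ} (hf : PTf 𝒜 f) (hg : PTf 𝒜 g) :
    PTf 𝒜 (fun A x => f A x - g A x) := by
  have key : ∀ (n m : ℕ), (fun k : ℕ => k - 1)^[n] m = m - n := by
    intro n
    induction n with
    | zero => intro m; rfl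
    | succ n ih => intro m; rw [iterate_succ_apply, ih]; omega
  have := PTf.iter' (g := fun _ k => k - 1) hg hf (PTf.id.pred)
    (b := fun A x => 2 * (f A x) + 1)
    (((PB.const 2).mul ((PB.nat hf))).add (PB.const 1)) (by
      intro A hA x i hi
      rw [key, sz_nat]
      omega)
  exact this.congr fun A _ x => key _ _

theorem decide_le {f g : Orc → α → ℕ} [∀ A x, Decidable (f A x ≤ g A x)] (hf : PTf 𝒜 f)
    (hg : PTf 𝒜 g) : PTf 𝒜 (fun A x => decide (f A x ≤ g A x)) :=
  (hf.sub hg).isPos.bnot.congr fun A _ x => by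
    by_cases h : f A x ≤ g A x
    · simp [h]
    · simp only [h, decide_false, Bool.not_eq_false', decide_eq_true_eq]; omega

theorem decide_lt {f g : Orc → α → ℕ} [∀ A x, Decidable (f A x < g A x)] (hf : PTf 𝒜 f)
    (hg : PTf 𝒜 g) : PTf 𝒜 (fun A x => decide (f A x < g A x)) :=
  (hg.sub hf).isPos.congr fun A _ x => by
    by_cases h : f A x < g A x
    · simp [h]
    · simp only [h, decide_false, decide_eq_false_iff_not]; omega

theorem min {f g : Orc → α → ℕ} (hf : PTf 𝒜 f) (hg : PTf 𝒜 g) :
    PTf 𝒜 (fun A x => min (f A x) (g A x)) :=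
  ((hf.decide_le hg).ifP hf hg).congr fun A _ x => by
    split_ifs with h
    · exact (min_eq_left h).symm
    · exact (min_eq_right (by omega)).symm

theorem max {f g : Orc → α → ℕ} (hf : PTf 𝒜 f) (hg : PTf 𝒜 g) :
    PTf 𝒜 (fun A x => max (f A x) (g A x)) :=
  ((hf.decide_le hg).ifP hg hf).congr fun A _ x => by
    split_ifs with h
    · exact (max_eq_right h).symm
    · exact (max_eq_left (by omega)).symm

theorem mul {f g : Orc → α → ℕ} (hf : PTf 𝒜 f) (hg : PTf 𝒜 g) :
    PTf 𝒜 (fun A x => f A x * g A x) := by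
  have key : ∀ (n : ℕ) (p : ℕ × ℕ), (fun k : ℕ × ℕ => (k.1, k.2 + k.1))^[n] p =
      (p.1, p.2 + n * p.1) := by
    intro n
    induction n with
    | zero => intro m; simp
    | succ n ih => intro m; rw [iterate_succ_apply, ih]; ext1 <;> ring
  have := PTf.iter' (g := fun _ (k : ℕ × ℕ) => (k.1, k.2 + k.1)) hg (hf.pair (PTf.const 0))
    (PTf.id.fst.pair (PTf.id.snd.add PTf.id.fst))
    (b := fun A x => 2 * (f A x) + 1 + (2 * (g A x * f A x) + 1) + 1)
    ((((PB.const 2).mul ((PB.nat hf))).add (PB.const 1)).add (((PB.const 2).mul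
      ((PB.nat hg).mul (PB.nat hf))).add (PB.const 1)) |>.add (PB.const 1)) (by
      intro A hA x i hi
      rw [key, sz_pair, sz_nat, sz_nat]
      have : i * f A x ≤ g A x * f A x := Nat.mul_le_mul_right _ hi
      simp only
      omega)
  exact this.snd.congr fun A _ x => by rw [key]; ring

theorem pow {f : Orc → α → ℕ} (hf : PTf 𝒜 f) (k : ℕ) : PTf 𝒜 (fun A x => f A x ^ k) := by
  induction k with
  | zero => simpa using (PTf.const 1 : PTf 𝒜 (fun _ (_ : α) => 1))
  | succ k ih =>
    simp only [pow_succ]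
    exact ih.mul hf

theorem poly {f : Orc → α → ℕ} (hf : PTf 𝒜 f) (P : Polynomial ℕ) :
    PTf 𝒜 (fun A x => P.eval (f A x)) := by
  induction P using Polynomial.induction_on' with
  | add p q hp hq =>
    simp only [Polynomial.eval_add]
    exact hp.add hq
  | monomial n a =>
    simp only [Polynomial.eval_monomial]
    exact (PTf.const a).mul (hf.pow n)

/-! ### Folding -/

/-- the step of the simulation of `foldl` -/
theorem foldl {l : Orc → α → List β} {h : Orc → α → τ} {g : Orc → α → τ → β → τ}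
    (hl : PTf 𝒜 l) (hh : PTf 𝒜 h)
    (hg : PTf 𝒜 (fun A (p : α × τ × β) => g A p.1 p.2.1 p.2.2))
    {b : Orc → α → ℕ} (hb : PB 𝒜 b)
    (hb' : ∀ A ∈ 𝒜, ∀ x, ∀ k, sz (((l A x).take k).foldl (g A x) (h A x)) ≤ b A x) :
    PTf 𝒜 (fun A x => (l A x).foldl (g A x) (h A x)) := by
  classical
  by_cases hne : Nonempty β
  · obtain ⟨d⟩ := hne
    let G : Orc → α × List β × τ → α × List β × τ := fun A s =>
      if s.2.1.isEmpty = true then s else (s.1, s.2.1.tail, g A s.1 s.2.2 (s.2.1.headD d))
    have hG : PTf 𝒜 G := by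
      refine PTf.ite PTf.id.snd.fst.isEmpty PTf.id ?_
      refine PTf.id.fst.pair (PTf.id.snd.fst.tail.pair ?_)
      exact hg.comp (PTf.id.fst.pair (PTf.id.snd.snd.pair
        (PTf.id.snd.fst.headD (PTf.const d))))
    have key : ∀ A x n, (G A)^[n] (x, l A x, h A x) =
        (x, (l A x).drop n, ((l A x).take n).foldl (g A x) (h A x)) := by
      intro A x n
      induction n with
      | zero => simp
      | succ n ih =>
        rw [iterate_succ_apply', ih]
        simp only [G]
        by_cases hn : n < (l A x).length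
        · rw [List.drop_eq_getElem_cons hn, List.take_succ_eq_append_getElem hn]
          simp only [List.isEmpty_cons, Bool.false_eq_true, if_false, List.tail_cons,
            List.headD_cons, List.foldl_append, List.foldl_cons, List.foldl_nil]
        · rw [List.drop_eq_nil_of_le (by omega), List.take_of_length_le (by omega),
            List.drop_eq_nil_of_le (by omega), List.take_of_length_le (by omega)]
          simp
    have hszl : ∀ (l : List β) n, sz (l.drop n) ≤ sz l := by
      intro l n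
      induction l generalizing n with
      | nil => simp
      | cons y l ih =>
        cases n with
        | zero => simp
        | succ n =>
          rw [List.drop_succ_cons, sz_cons]
          have := ih n
          omega
    have hlen : ∀ l : List β, l.length ≤ (e l).nodes := by
      intro l
      induction l with
      | nil => simp
      | cons y l ih =>
        rw [e_cons, Tr.nodes, List.length_cons]
        omega
    have := PTf.iterT (f := fun A x => e (l A x)) (h := fun A x => (x, l A x, h A x)) (g := G)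
      hl.toTr (PTf.id.pair (hl.pair hh)) hG (by
        have hB : PB 𝒜 (fun A x => sz x + (sz (l A x) + b A x + 1) + 1) :=
          (PB.self.add (((PB.sz hl).add hb).add (PB.const 1))).add (PB.const 1)
        obtain ⟨Q, hQ⟩ := hB
        refine ⟨Q, fun A hA x i _ => ?_⟩
        rw [key, sz_pair, sz_pair]
        refine le_trans ?_ (hQ A hA x)
        simp only
        have h1 := hszl (l A x) i
        have h2 := hb' A hA x i
        omega)
    refine this.snd.snd.congr fun A _ x => ?_
    rw [key]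
    simp only
    rw [List.take_of_length_le (hlen _)]
  · have : ∀ A x, (l A x) = [] := by
      intro A x
      cases hx : l A x with
      | nil => rfl
      | cons y _ => exact absurd ⟨y⟩ hne
    exact hh.congr fun A _ x => by rw [this]; rfl

/-- folding with bounded growth -/
theorem foldl_grow {l : Orc → α → List β} {h : Orc → α → τ} {g : Orc → α → τ → β → τ}
    (hl : PTf 𝒜 l) (hh : PTf 𝒜 h)
    (hg : PTf 𝒜 (fun A (p : α × τ × β) => g A p.1 p.2.1 p.2.2))
    {d : Orc → α → ℕ} (hd : PB 𝒜 d)
    (hb' : ∀ A ∈ 𝒜, ∀ x, ∀ s, ∀ y ∈ l A x, sz (g A x s y) ≤ sz s + d A x) :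
    PTf 𝒜 (fun A x => (l A x).foldl (g A x) (h A x)) := by
  have hlen : ∀ l : List β, l.length ≤ sz l := by
    intro l
    induction l with
    | nil => simp
    | cons y l ih => rw [sz_cons, List.length_cons]; omega
  refine foldl hl hh hg (b := fun A x => sz (h A x) + sz (l A x) * d A x)
    ((PB.sz hh).add ((PB.sz hl).mul hd)) ?_
  intro A hA x k
  have key : ∀ (L : List β) (s : τ), (∀ y ∈ L, y ∈ l A x) →
      sz (L.foldl (g A x) s) ≤ sz s + L.length * d A x := by
    intro L
    induction L with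
    | nil => intro s _; simp
    | cons y L ih =>
      intro s hL
      rw [List.foldl_cons, List.length_cons]
      have h1 := ih (g A x s y) (fun z hz => hL z (List.mem_cons_of_mem _ hz))
      have h2 := hb' A hA x s y (hL y List.mem_cons_self)
      have h3 : (L.length + 1) * d A x = L.length * d A x + d A x := by ring
      omega
  refine (key _ _ (fun y hy => List.mem_of_mem_take hy)).trans ?_
  have h1 : ((l A x).take k).length ≤ sz (l A x) := by
    rw [List.length_take]
    exact (min_le_right _ _).trans (hlen _)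
  exact Nat.add_le_add_left (Nat.mul_le_mul_right _ h1) _

theorem length {l : Orc → α → List β} (hl : PTf 𝒜 l) : PTf 𝒜 (fun A x => (l A x).length) := by
  have := foldl_grow (g := fun _ _ (s : ℕ) (_ : β) => s + 1) hl (PTf.const 0)
    (PTf.id.snd.fst.succ) (PB.const 2) (fun A _ x s y _ => by rw [sz_succ])
  refine this.congr fun A _ x => ?_
  have key : ∀ (L : List β) (s : ℕ), L.foldl (fun s _ => s + 1) s = s + L.length := by
    intro L
    induction L with
    | nil => intro s; rfl
    | cons y L ih => intro s; rw [List.foldl_cons, ih, List.length_cons]; omega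
  rw [key]
  omega

theorem reverse {l : Orc → α → List β} (hl : PTf 𝒜 l) : PTf 𝒜 (fun A x => (l A x).reverse) := by
  have := foldl_grow (g := fun _ _ (s : List β) (y : β) => y :: s) hl (PTf.const [])
    (PTf.id.snd.snd.cons PTf.id.snd.fst) ((PB.sz hl).add (PB.const 1))
    (fun A _ x s y hy => by
      rw [sz_cons]
      have : ∀ l : List β, y ∈ l → sz y ≤ sz l := by
        intro l
        induction l with
        | nil => intro h; cases h
        | cons z l ih =>
          intro h
          rw [sz_cons]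
          rcases List.mem_cons.1 h with rfl | h
          · omega
          · have := ih h; omega
      have := this _ hy
      omega)
  refine this.congr fun A _ x => ?_
  have key : ∀ (L s : List β), L.foldl (fun s y => y :: s) s = L.reverse ++ s := by
    intro L
    induction L with
    | nil => intro s; rfl
    | cons y L ih => intro s; rw [List.foldl_cons, ih]; simp
  rw [key, List.append_nil]

end PTf

theorem sz_mem {y : β} {l : List β} (h : y ∈ l) : sz y ≤ sz l := by
  induction l with
  | nil => cases h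
  | cons z l ih =>
    rw [sz_cons]
    rcases List.mem_cons.1 h with rfl | h
    · omega
    · have := ih h; omega

theorem length_le_sz (l : List β) : l.length ≤ sz l := by
  induction l with
  | nil => simp
  | cons y l ih => rw [sz_cons, List.length_cons]; omega

theorem sz_append (l l' : List β) : sz (l ++ l') + 1 = sz l + sz l' := by
  induction l with
  | nil => rw [List.nil_append, sz_nil]; omega
  | cons y l ih => rw [List.cons_append, sz_cons, sz_cons]; omega

theorem sz_list_le {l : List β} {B : ℕ} (h : ∀ y ∈ l, sz y ≤ B) :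
    sz l ≤ l.length * (B + 1) + 1 := by
  induction l with
  | nil => simp [sz_nil]
  | cons y l ih =>
    rw [sz_cons, List.length_cons]
    have h1 := ih (fun z hz => h z (List.mem_cons_of_mem _ hz))
    have h2 := h y List.mem_cons_self
    have : (l.length + 1) * (B + 1) = l.length * (B + 1) + (B + 1) := by ring
    omega

namespace PTf

theorem append {l l' : Orc → α → List β} (hl : PTf 𝒜 l) (hl' : PTf 𝒜 l') :
    PTf 𝒜 (fun A x => l A x ++ l' A x) := by
  have := foldl_grow (g := fun _ _ (s : List β) (y : β) => y :: s) hl.reverse hl'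
    (PTf.id.snd.snd.cons PTf.id.snd.fst) ((PB.sz hl).add (PB.const 1))
    (fun A _ x s y hy => by
      rw [sz_cons]
      have := sz_mem (List.mem_reverse.1 hy)
      omega)
  refine this.congr fun A _ x => ?_
  have key : ∀ (L s : List β), L.foldl (fun s y => y :: s) s = L.reverse ++ s := by
    intro L
    induction L with
    | nil => intro s; rfl
    | cons y L ih => intro s; rw [List.foldl_cons, ih]; simp
  rw [key, List.reverse_reverse]

/-- mapping a function with a parameter over a list -/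
theorem map {l : Orc → α → List β} {g : Orc → α → β → γ} (hl : PTf 𝒜 l)
    (hg : PTf 𝒜 (fun A (p : α × β) => g A p.1 p.2)) :
    PTf 𝒜 (fun A x => (l A x).map (g A x)) := by
  obtain ⟨Q, hQ⟩ := hg.size_le
  have := foldl_grow (g := fun A x (s : List γ) (y : β) => g A x y :: s) hl.reverse (PTf.const [])
    ((hg.comp (PTf.id.fst.pair PTf.id.snd.snd)).cons PTf.id.snd.fst)
    (d := fun A x => Q.eval (sz x + sz (l A x) + 1) + 1)
    ((((PB.self.add (PB.sz hl)).add (PB.const 1)).poly Q).add (PB.const 1))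
    (fun A hA x s y hy => by
      rw [sz_cons]
      have h1 := sz_mem (List.mem_reverse.1 hy)
      have h2 := hQ A hA (x, y)
      have h3 : Q.eval (sz (x, y)) ≤ Q.eval (sz x + sz (l A x) + 1) :=
        peval_mono _ (by rw [sz_pair]; omega)
      simp only at h2
      omega)
  refine this.congr fun A _ x => ?_
  have key : ∀ (L : List β) (s : List γ), L.foldl (fun s y => g A x y :: s) s =
      (L.map (g A x)).reverse ++ s := by
    intro L
    induction L with
    | nil => intro s; rfl
    | cons y L ih => intro s; rw [List.foldl_cons, ih]; simp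
  rw [key, List.append_nil, List.map_reverse, List.reverse_reverse]

theorem flatMap {l : Orc → α → List β} {g : Orc → α → β → List γ} (hl : PTf 𝒜 l)
    (hg : PTf 𝒜 (fun A (p : α × β) => g A p.1 p.2)) :
    PTf 𝒜 (fun A x => (l A x).flatMap (g A x)) := by
  obtain ⟨Q, hQ⟩ := hg.size_le
  have := foldl_grow (g := fun A x (s : List γ) (y : β) => g A x y ++ s) hl.reverse (PTf.const [])
    ((hg.comp (PTf.id.fst.pair PTf.id.snd.snd)).append PTf.id.snd.fst)
    (d := fun A x => Q.eval (sz x + sz (l A x) + 1) + 1)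
    ((((PB.self.add (PB.sz hl)).add (PB.const 1)).poly Q).add (PB.const 1))
    (fun A hA x s y hy => by
      have h0 := sz_append (g A x y) s
      have h1 := sz_mem (List.mem_reverse.1 hy)
      have h2 := hQ A hA (x, y)
      have h3 : Q.eval (sz (x, y)) ≤ Q.eval (sz x + sz (l A x) + 1) :=
        peval_mono _ (by rw [sz_pair]; omega)
      simp only at h2
      omega)
  refine this.congr fun A _ x => ?_
  have key : ∀ (L : List β) (s : List γ), L.foldl (fun s y => g A x y ++ s) s =
      L.reverse.flatMap (g A x) ++ s := by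
    intro L
    induction L with
    | nil => intro s; rfl
    | cons y L ih => intro s; rw [List.foldl_cons, ih]; simp
  rw [key, List.append_nil, List.reverse_reverse]

theorem filter {l : Orc → α → List β} {p : Orc → α → β → Bool} (hl : PTf 𝒜 l)
    (hp : PTf 𝒜 (fun A (q : α × β) => p A q.1 q.2)) :
    PTf 𝒜 (fun A x => (l A x).filter (p A x)) := by
  have := hl.flatMap (g := fun A x y => if p A x y = true then [y] else [])
    (hp.ite (PTf.id.snd.cons (PTf.const [])) (PTf.const []))
  refine this.congr fun A _ x => ?_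
  generalize l A x = L
  induction L with
  | nil => rfl
  | cons y L ih =>
    rw [List.flatMap_cons, ih, List.filter_cons]
    split_ifs <;> simp

theorem any {l : Orc → α → List β} {p : Orc → α → β → Bool} (hl : PTf 𝒜 l)
    (hp : PTf 𝒜 (fun A (q : α × β) => p A q.1 q.2)) :
    PTf 𝒜 (fun A x => (l A x).any (p A x)) := by
  have := (hl.filter hp).isEmpty.bnot
  refine this.congr fun A _ x => ?_
  generalize l A x = L
  induction L with
  | nil => rfl
  | cons y L ih =>
    rw [List.filter_cons, List.any_cons]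
    split_ifs with h
    · simp [h]
    · rw [ih]; simp [h]

theorem all {l : Orc → α → List β} {p : Orc → α → β → Bool} (hl : PTf 𝒜 l)
    (hp : PTf 𝒜 (fun A (q : α × β) => p A q.1 q.2)) :
    PTf 𝒜 (fun A x => (l A x).all (p A x)) := by
  have := (hl.any (p := fun A x y => !p A x y) hp.bnot).bnot
  refine this.congr fun A _ x => ?_
  rw [List.not_any_eq_all_not]
  simp

theorem range {f : Orc → α → ℕ} (hf : PTf 𝒜 f) : PTf 𝒜 (fun A x => List.range (f A x)) := by
  have key : ∀ n, (fun p : ℕ × List ℕ => (p.1 + 1, p.1 :: p.2))^[n] (0, []) =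
      (n, (List.range n).reverse) := by
    intro n
    induction n with
    | zero => rfl
    | succ n ih =>
      rw [iterate_succ_apply', ih, List.range_succ, List.reverse_append]
      rfl
  have := PTf.iter' (g := fun _ (p : ℕ × List ℕ) => (p.1 + 1, p.1 :: p.2)) hf
    (PTf.const (0, [])) (PTf.id.fst.succ.pair (PTf.id.fst.cons PTf.id.snd))
    (b := fun A x => (2 * f A x + 1) + (f A x * (2 * f A x + 1 + 1) + 1) + 1)
    (((((PB.const 2).mul (PB.nat hf)).add (PB.const 1)).add (((PB.nat hf).mul
      ((((PB.const 2).mul (PB.nat hf)).add (PB.const 1)).add (PB.const 1))).add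
      (PB.const 1))).add (PB.const 1)) (by
      intro A _ x i hi
      rw [key, sz_pair, sz_nat]
      have h1 : sz (List.range i).reverse ≤ i * (2 * f A x + 1 + 1) + 1 := by
        refine (sz_list_le (B := 2 * f A x + 1) ?_).trans ?_
        · intro y hy
          rw [List.mem_reverse, List.mem_range] at hy
          rw [sz_nat]
          omega
        · simp
      have h2 : i * (2 * f A x + 1 + 1) ≤ f A x * (2 * f A x + 1 + 1) :=
        Nat.mul_le_mul_right _ hi
      omega)
  exact this.snd.reverse.congr fun A _ x => by rw [key]; simp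

theorem drop {l : Orc → α → List β} {n : Orc → α → ℕ} (hl : PTf 𝒜 l) (hn : PTf 𝒜 n) :
    PTf 𝒜 (fun A x => (l A x).drop (n A x)) := by
  have key : ∀ (n : ℕ) (L : List β), List.tail^[n] L = L.drop n := by
    intro n
    induction n with
    | zero => intro L; rfl
    | succ n ih => intro L; rw [iterate_succ_apply, ih]; simp
  have hs : ∀ (n : ℕ) (L : List β), sz (L.drop n) ≤ sz L := by
    intro n L
    have h := sz_append (L.take n) (L.drop n)
    rw [List.take_append_drop] at h
    have := sz_pos (L.take n)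
    omega
  have := PTf.iter' (g := fun _ (L : List β) => L.tail) hn hl PTf.id.tail
    (PB.sz hl) (by
      intro A _ x i _
      rw [key]
      exact hs _ _)
  exact this.congr fun A _ x => key _ _

theorem listGetD {l : Orc → α → List β} {n : Orc → α → ℕ} {d : Orc → α → β} (hl : PTf 𝒜 l)
    (hn : PTf 𝒜 n) (hd : PTf 𝒜 d) : PTf 𝒜 (fun A x => (l A x).getD (n A x) (d A x)) :=
  ((hl.drop hn).headD hd).congr fun A _ x => by
    rw [List.headD_eq_head?_getD, List.head?_drop, List.getD_eq_getElem?_getD]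

theorem getElem? {l : Orc → α → List β} {n : Orc → α → ℕ} (hl : PTf 𝒜 l)
    (hn : PTf 𝒜 n) : PTf 𝒜 (fun A x => (l A x)[n A x]?) :=
  ((hl.drop hn).head?).congr fun A _ x => by
    rw [List.head?_drop]

theorem replicate {n : Orc → α → ℕ} {f : Orc → α → β} (hn : PTf 𝒜 n) (hf : PTf 𝒜 f) :
    PTf 𝒜 (fun A x => List.replicate (n A x) (f A x)) := by
  have := hn.range.map (g := fun A x _ => f A x) (hf.comp PTf.id.fst)
  exact this.congr fun A _ x => by simp

theorem sum {l : Orc → α → List ℕ} (hl : PTf 𝒜 l) : PTf 𝒜 (fun A x => (l A x).sum) := by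
  have := foldl_grow (g := fun _ _ (s : ℕ) (y : ℕ) => s + y) hl (PTf.const 0)
    (PTf.id.snd.fst.add PTf.id.snd.snd) (PB.sz hl)
    (fun A _ x s y hy => by
      have := sz_mem hy
      rw [sz_nat] at *
      rw [sz_nat]
      omega)
  refine this.congr fun A _ x => ?_
  have key : ∀ (L : List ℕ) (s : ℕ), L.foldl (fun s y => s + y) s = s + L.sum := by
    intro L
    induction L with
    | nil => intro s; rfl
    | cons y L ih => intro s; rw [List.foldl_cons, ih]; simp [add_assoc]
  rw [key, zero_add]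

end PTf

end Pool.Agent.LibComplexity
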