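import Mathlib

/-!
A structured language of programs that work on finitely many stacks of bits (registers), with its
cost semantics.
-/

set_option linter.unusedVariables false

namespace Pool.Agent.LibComplexity

/-- Programs. Register `0` is the input and output register, register `1` the query register. -/
inductive Com
  | skip
  | push (k : ℕ) (b : Bool)
  | seq (c d : Com)
  | cas (k : ℕ) (ce cf ct : Com)
  | loop (k : ℕ) (cf ct : Com)
  | choose (c d : Com)
  | ask (c d : Com)

/-- Contents of the registers. -/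
abbrev Regs := ℕ → List Bool

/-- Sequences of choice bits. -/
abbrev Bits := ℕ → Bool

/-- Drop the first choice bit. -/
def Bits.tail (β : Bits) : Bits := fun n => β (n + 1)

open Function

/-- Big-step semantics with oracle `A`: `Exec A c σ β σ' β' t` says that `c`, started with
registers `σ` and choice bits `β`, terminates after `t` steps with registers `σ'` and remaining
choice bits `β'`. -/
inductive Exec (A : Set (List Bool)) : Com → Regs → Bits → Regs → Bits → ℕ → Prop
  | skip {σ β} : Exec A .skip σ β σ β 0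
  | push {k b σ β} : Exec A (.push k b) σ β (update σ k (b :: σ k)) β 1
  | seq {c d σ β σ' β' σ'' β'' t t'} : Exec A c σ β σ' β' t → Exec A d σ' β' σ'' β'' t' →
      Exec A (.seq c d) σ β σ'' β'' (t + t')
  | casE {k ce cf ct σ β σ' β' t} : σ k = [] → Exec A ce σ β σ' β' t →
      Exec A (.cas k ce cf ct) σ β σ' β' (t + 2)
  | casF {k ce cf ct σ β σ' β' t r} : σ k = false :: r → Exec A cf (update σ k r) β σ' β' t →
      Exec A (.cas k ce cf ct) σ β σ' β' (t + 2)
  | casT {k ce cf ct σ β σ' β' t r} : σ k = true :: r → Exec A ct (update σ k r) β σ' β' t →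
      Exec A (.cas k ce cf ct) σ β σ' β' (t + 2)
  | loopE {k cf ct σ β} : σ k = [] → Exec A (.loop k cf ct) σ β σ β 1
  | loopF {k cf ct σ β σ' β' σ'' β'' t t' r} : σ k = false :: r →
      Exec A cf (update σ k r) β σ' β' t → Exec A (.loop k cf ct) σ' β' σ'' β'' t' →
      Exec A (.loop k cf ct) σ β σ'' β'' (t + t' + 2)
  | loopT {k cf ct σ β σ' β' σ'' β'' t t' r} : σ k = true :: r →
      Exec A ct (update σ k r) β σ' β' t → Exec A (.loop k cf ct) σ' β' σ'' β'' t' →
      Exec A (.loop k cf ct) σ β σ'' β'' (t + t' + 2)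
  | chooseF {c d σ β σ' β' t} : β 0 = false → Exec A c σ β.tail σ' β' t →
      Exec A (.choose c d) σ β σ' β' (t + 2)
  | chooseT {c d σ β σ' β' t} : β 0 = true → Exec A d σ β.tail σ' β' t →
      Exec A (.choose c d) σ β σ' β' (t + 2)
  | askY {c d σ β σ' β' t} : σ 1 ∈ A → Exec A c σ β σ' β' t →
      Exec A (.ask c d) σ β σ' β' (t + 2)
  | askN {c d σ β σ' β' t} : σ 1 ∉ A → Exec A d σ β σ' β' t →
      Exec A (.ask c d) σ β σ' β' (t + 2)

/-- Programs without nondeterministic choices. -/
def Com.Det : Com → Prop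
  | .skip => True
  | .push _ _ => True
  | .seq c d => c.Det ∧ d.Det
  | .cas _ ce cf ct => ce.Det ∧ cf.Det ∧ ct.Det
  | .loop _ cf ct => cf.Det ∧ ct.Det
  | .choose _ _ => False
  | .ask c d => c.Det ∧ d.Det

/-- Renaming of registers. -/
def Com.rename (ρ : ℕ → ℕ) : Com → Com
  | .skip => .skip
  | .push k b => .push (ρ k) b
  | .seq c d => .seq (c.rename ρ) (d.rename ρ)
  | .cas k ce cf ct => .cas (ρ k) (ce.rename ρ) (cf.rename ρ) (ct.rename ρ)
  | .loop k cf ct => .loop (ρ k) (cf.rename ρ) (ct.rename ρ)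
  | .choose c d => .choose (c.rename ρ) (d.rename ρ)
  | .ask c d => .ask (c.rename ρ) (d.rename ρ)

theorem Com.Det.rename {c : Com} (h : c.Det) (ρ : ℕ → ℕ) : (c.rename ρ).Det := by
  induction c with
  | skip => trivial
  | push _ _ => trivial
  | seq c d ihc ihd => exact ⟨ihc h.1, ihd h.2⟩
  | cas k ce cf ct ihe ihf iht => exact ⟨ihe h.1, ihf h.2.1, iht h.2.2⟩
  | loop k cf ct ihf iht => exact ⟨ihf h.1, iht h.2⟩
  | choose c d _ _ => exact h
  | ask c d ihc ihd => exact ⟨ihc h.1, ihd h.2⟩

theorem update_extend {ρ : ℕ → ℕ} (hρ : Injective ρ) (σ τ : Regs) (k : ℕ) (v : List Bool) :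
    update (extend ρ σ τ) (ρ k) v = extend ρ (update σ k v) τ := by
  funext j
  by_cases hj : ∃ i, ρ i = j
  · obtain ⟨i, rfl⟩ := hj
    rw [hρ.extend_apply]
    by_cases hik : i = k
    · subst hik; simp
    · rw [update_of_ne (fun h => hik (hρ h)), update_of_ne hik, hρ.extend_apply]
  · rw [extend_apply' _ _ _ hj, update_of_ne, extend_apply' _ _ _ hj]
    rintro rfl
    exact hj ⟨k, rfl⟩

/-- Renamed programs behave as the original ones, and do not touch the other registers. -/
theorem Exec.rename {A : Set (List Bool)} {c : Com} {σ β σ' β' t} (h : Exec A c σ β σ' β' t)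
    {ρ : ℕ → ℕ} (hρ : Injective ρ) (h1 : ρ 1 = 1) (τ : Regs) :
    Exec A (c.rename ρ) (extend ρ σ τ) β (extend ρ σ' τ) β' t := by
  have e : ∀ (σ : Regs) k, extend ρ σ τ (ρ k) = σ k := fun σ k => hρ.extend_apply _ _ _
  have e1 : ∀ σ : Regs, extend ρ σ τ 1 = σ 1 := by
    intro σ
    have := e σ 1
    rwa [h1] at this
  induction h with
  | skip => exact .skip
  | @push k b σ β =>
    rw [← update_extend hρ]
    have h2 := Exec.push (A := A) (k := ρ k) (b := b) (σ := extend ρ σ τ) (β := β)
    rw [e] at h2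
    exact h2
  | seq _ _ ih1 ih2 => exact .seq ih1 ih2
  | casE hk _ ih => exact .casE (by rw [e]; exact hk) ih
  | casF hk _ ih =>
    refine .casF (by rw [e]; exact hk) ?_
    rw [update_extend hρ]; exact ih
  | casT hk _ ih =>
    refine .casT (by rw [e]; exact hk) ?_
    rw [update_extend hρ]; exact ih
  | loopE hk => exact .loopE (by rw [e]; exact hk)
  | loopF hk _ _ ih1 ih2 =>
    refine .loopF (by rw [e]; exact hk) ?_ ih2
    rw [update_extend hρ]; exact ih1
  | loopT hk _ _ ih1 ih2 =>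
    refine .loopT (by rw [e]; exact hk) ?_ ih2
    rw [update_extend hρ]; exact ih1
  | chooseF hb _ ih => exact .chooseF hb ih
  | chooseT hb _ ih => exact .chooseT hb ih
  | askY hq _ ih => exact .askY (by rw [e1]; exact hq) ih
  | askN hq _ ih => exact .askN (by rw [e1]; exact hq) ih

/-- A register grows by at most one bit per step. -/
theorem Exec.growth {A : Set (List Bool)} {c : Com} {σ β σ' β' t} (h : Exec A c σ β σ' β' t) :
    ∀ k, (σ' k).length ≤ (σ k).length + t := by
  have hu : ∀ (σ : Regs) k r b, σ k = b :: r → ∀ j, (update σ k r j).length ≤ (σ j).length := by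
    intro σ k r b h j
    by_cases hj : j = k
    · subst hj; simp [h]
    · simp [hj]
  induction h with
  | skip => intro k; simp
  | @push k b σ β =>
    intro j
    by_cases hj : j = k
    · subst hj; simp
    · simp [hj]
  | seq _ _ ih1 ih2 => intro k; have := ih1 k; have := ih2 k; omega
  | casE hk _ ih => intro k; have := ih k; omega
  | casF hk _ ih => intro k; have := ih k; have := hu _ _ _ _ hk k; omega
  | casT hk _ ih => intro k; have := ih k; have := hu _ _ _ _ hk k; omega
  | loopE hk => intro k; omega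
  | loopF hk _ _ ih1 ih2 =>
    intro k; have := ih1 k; have := ih2 k; have := hu _ _ _ _ hk k; omega
  | loopT hk _ _ ih1 ih2 =>
    intro k; have := ih1 k; have := ih2 k; have := hu _ _ _ _ hk k; omega
  | chooseF hb _ ih => intro k; have := ih k; omega
  | chooseT hb _ ih => intro k; have := ih k; omega
  | askY hq _ ih => intro k; have := ih k; omega
  | askN hq _ ih => intro k; have := ih k; omega

/-- Deterministic programs do not use the choice bits. -/
theorem Exec.det {A : Set (List Bool)} {c : Com} {σ β σ' β' t} (h : Exec A c σ β σ' β' t)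
    (hc : c.Det) : β' = β ∧ ∀ γ, Exec A c σ γ σ' γ t := by
  induction h with
  | skip => exact ⟨rfl, fun γ => .skip⟩
  | push => exact ⟨rfl, fun γ => .push⟩
  | seq _ _ ih1 ih2 =>
    obtain ⟨h1, h1'⟩ := ih1 hc.1
    obtain ⟨h2, h2'⟩ := ih2 hc.2
    exact ⟨h2.trans h1, fun γ => .seq (h1' γ) (h2' γ)⟩
  | casE hk _ ih =>
    obtain ⟨h1, h1'⟩ := ih hc.1
    exact ⟨h1, fun γ => .casE hk (h1' γ)⟩
  | casF hk _ ih =>
    obtain ⟨h1, h1'⟩ := ih hc.2.1
    exact ⟨h1, fun γ => .casF hk (h1' γ)⟩
  | casT hk _ ih =>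
    obtain ⟨h1, h1'⟩ := ih hc.2.2
    exact ⟨h1, fun γ => .casT hk (h1' γ)⟩
  | loopE hk => exact ⟨rfl, fun γ => .loopE hk⟩
  | loopF hk _ _ ih1 ih2 =>
    obtain ⟨h1, h1'⟩ := ih1 hc.1
    obtain ⟨h2, h2'⟩ := ih2 hc
    exact ⟨h2.trans h1, fun γ => .loopF hk (h1' γ) (h2' γ)⟩
  | loopT hk _ _ ih1 ih2 =>
    obtain ⟨h1, h1'⟩ := ih1 hc.2
    obtain ⟨h2, h2'⟩ := ih2 hc
    exact ⟨h2.trans h1, fun γ => .loopT hk (h1' γ) (h2' γ)⟩
  | chooseF => exact absurd hc (by simp [Com.Det])
  | chooseT => exact absurd hc (by simp [Com.Det])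
  | askY hq _ ih =>
    obtain ⟨h1, h1'⟩ := ih hc.1
    exact ⟨h1, fun γ => .askY hq (h1' γ)⟩
  | askN hq _ ih =>
    obtain ⟨h1, h1'⟩ := ih hc.2
    exact ⟨h1, fun γ => .askN hq (h1' γ)⟩

end Pool.Agent.LibComplexity
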