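import Pool.Agent.LibComplexity.Machine
import Pool.Agent.LibComplexity.Com

/-!
Compilation of the structured language to multitape Turing machines.
-/

namespace Pool.Agent.LibComplexity

open Function

/-- Instructions of the intermediate jump code. -/
inductive Instr
  | push (k : ℕ) (b : Bool)
  | pop (k le lf lt : ℕ)
  | jmp (l : ℕ)
  | choose (l₀ l₁ : ℕ)
  | ask (ly ln : ℕ)
  | halt (b : Bool)

/-- States of the jump code. -/
structure GS where
  pc : ℕ
  σ : Regs
  β : Bits

open Classical in
/-- one step of the jump code -/
noncomputable def gstep (A : Set (List Bool)) (P : List Instr) (s : GS) : Option GS :=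
  match P[s.pc]? with
  | none => none
  | some (.push k b) => some ⟨s.pc + 1, update s.σ k (b :: s.σ k), s.β⟩
  | some (.pop k le lf lt) =>
    match s.σ k with
    | [] => some ⟨le, s.σ, s.β⟩
    | false :: r => some ⟨lf, update s.σ k r, s.β⟩
    | true :: r => some ⟨lt, update s.σ k r, s.β⟩
  | some (.jmp l) => some ⟨l, s.σ, s.β⟩
  | some (.choose l₀ l₁) => some ⟨if s.β 0 then l₁ else l₀, s.σ, s.β.tail⟩
  | some (.ask ly ln) => some ⟨if s.σ 1 ∈ A then ly else ln, s.σ, s.β⟩
  | some (.halt _) => none

/-- `n` steps of the jump code -/
inductive GRun (A : Set (List Bool)) (P : List Instr) : ℕ → GS → GS → Prop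
  | refl {s} : GRun A P 0 s s
  | step {n s s' s''} : gstep A P s = some s' → GRun A P n s' s'' → GRun A P (n + 1) s s''

theorem GRun.trans {A P n m s s' s''} (h : GRun A P n s s') (h' : GRun A P m s' s'') :
    GRun A P (n + m) s s'' := by
  induction h with
  | refl => rwa [Nat.zero_add]
  | step h1 _ ih => rw [Nat.succ_add]; exact .step h1 (ih h')

theorem GRun.one {A P s s'} (h : gstep A P s = some s') : GRun A P 1 s s' := .step h .refl

/-- length of the code -/
def clen : Com → ℕ
  | .skip => 0
  | .push _ _ => 1
  | .seq c d => clen c + clen d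
  | .cas _ ce cf ct => 1 + (clen ce + 1) + (clen cf + 1) + (clen ct + 1)
  | .loop _ cf ct => 1 + (clen cf + 1) + (clen ct + 1)
  | .choose c d => 1 + (clen c + 1) + (clen d + 1)
  | .ask c d => 1 + (clen c + 1) + (clen d + 1)

/-- the code of a program, placed at position `off` -/
def comp : Com → ℕ → List Instr
  | .skip, _ => []
  | .push k b, _ => [.push k b]
  | .seq c d, off => comp c off ++ comp d (off + clen c)
  | .cas k ce cf ct, off =>
    let e := off + (1 + (clen ce + 1) + (clen cf + 1) + (clen ct + 1))
    [.pop k (off + 1) (off + 1 + (clen ce + 1)) (off + 1 + (clen ce + 1) + (clen cf + 1))] ++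
      (comp ce (off + 1) ++ [.jmp e]) ++ (comp cf (off + 1 + (clen ce + 1)) ++ [.jmp e]) ++
      (comp ct (off + 1 + (clen ce + 1) + (clen cf + 1)) ++ [.jmp e])
  | .loop k cf ct, off =>
    [.pop k (off + (1 + (clen cf + 1) + (clen ct + 1))) (off + 1) (off + 1 + (clen cf + 1))] ++
      (comp cf (off + 1) ++ [.jmp off]) ++ (comp ct (off + 1 + (clen cf + 1)) ++ [.jmp off])
  | .choose c d, off =>
    let e := off + (1 + (clen c + 1) + (clen d + 1))
    [.choose (off + 1) (off + 1 + (clen c + 1))] ++
      (comp c (off + 1) ++ [.jmp e]) ++ (comp d (off + 1 + (clen c + 1)) ++ [.jmp e])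
  | .ask c d, off =>
    let e := off + (1 + (clen c + 1) + (clen d + 1))
    [.ask (off + 1) (off + 1 + (clen c + 1))] ++
      (comp c (off + 1) ++ [.jmp e]) ++ (comp d (off + 1 + (clen c + 1)) ++ [.jmp e])

theorem length_comp (c : Com) : ∀ off, (comp c off).length = clen c := by
  induction c with
  | skip => intro off; rfl
  | push _ _ => intro off; rfl
  | seq c d ihc ihd => intro off; simp [comp, clen, ihc, ihd]
  | cas k ce cf ct ihe ihf iht => intro off; simp [comp, clen, ihe, ihf, iht]; omega
  | loop k cf ct ihf iht => intro off; simp [comp, clen, ihf, iht]; omega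
  | choose c d ihc ihd => intro off; simp [comp, clen, ihc, ihd]; omega
  | ask c d ihc ihd => intro off; simp [comp, clen, ihc, ihd]; omega

/-- `code` sits in `P` at position `off`. -/
def CodeAt (P : List Instr) (off : ℕ) (code : List Instr) : Prop :=
  ∀ i < code.length, P[off + i]? = code[i]?

theorem CodeAt.left {P off a b} (h : CodeAt P off (a ++ b)) : CodeAt P off a := by
  intro i hi
  rw [h i (by rw [List.length_append]; omega), List.getElem?_append_left hi]

theorem CodeAt.right {P off a b} (h : CodeAt P off (a ++ b)) :
    CodeAt P (off + a.length) b := by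
  intro i hi
  have := h (a.length + i) (by rw [List.length_append]; omega)
  rw [← add_assoc] at this
  rw [this, List.getElem?_append_right (by omega)]
  congr 1; omega

theorem CodeAt.head {P off i} (h : CodeAt P off [i]) : P[off]? = some i := by
  have := h 0 (by simp)
  simpa using this

theorem comp_correct {A c σ β σ' β' t} (h : Exec A c σ β σ' β' t) :
    ∀ (P : List Instr) (off : ℕ), CodeAt P off (comp c off) →
      GRun A P t ⟨off, σ, β⟩ ⟨off + clen c, σ', β'⟩ := by
  induction h with
  | skip => intro P off _; exact .refl
  | push =>
    intro P off hP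
    refine .one ?_
    unfold gstep
    rw [hP.head]; rfl
  | @seq c d σ β σ' β' σ'' β'' t t' _ _ ih1 ih2 =>
    intro P off hP
    have h1 := ih1 P off hP.left
    have h2 := ih2 P (off + clen c) (by
      have := hP.right
      rwa [length_comp] at this)
    have := h1.trans h2
    rwa [add_assoc off] at this
  | @casE k ce cf ct σ β σ' β' t hk _ ih =>
    intro P off hP
    have hP0 := hP.left.left.left.head
    have h1 : gstep A P ⟨off, σ, β⟩ = some ⟨off + 1, σ, β⟩ := by
      unfold gstep
      simp only [hP0, hk]
    have h2 := ih P (off + 1) (hP.left.left.right).left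
    have h3 := (hP.left.left.right).right.head
    rw [length_comp] at h3
    try rw [List.length_singleton] at h3
    have h4 : gstep A P ⟨off + 1 + clen ce, σ', β'⟩ = some ⟨off + clen (.cas k ce cf ct), σ', β'⟩ := by
      unfold gstep
      rw [h3]; rfl
    have := ((GRun.one h1).trans h2).trans (GRun.one h4)
    convert this using 1
    omega
  | @casF k ce cf ct σ β σ' β' t r hk _ ih =>
    intro P off hP
    have hP0 := hP.left.left.left.head
    have h1 : gstep A P ⟨off, σ, β⟩ = some ⟨off + 1 + (clen ce + 1), update σ k r, β⟩ := by
      unfold gstep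
      simp only [hP0, hk]
    have hcf := hP.left.right
    simp only [List.length_append, length_comp, List.length_singleton] at hcf
    have hcf' := hcf
    rw [show off + (1 + (clen ce + 1)) = off + 1 + (clen ce + 1) by omega] at hcf'
    have h2 := ih P (off + 1 + (clen ce + 1)) hcf'.left
    have h3 := hcf'.right.head
    rw [length_comp] at h3
    try rw [List.length_singleton] at h3
    have h4 : gstep A P ⟨off + 1 + (clen ce + 1) + clen cf, σ', β'⟩ =
        some ⟨off + clen (.cas k ce cf ct), σ', β'⟩ := by
      unfold gstep
      rw [h3]; rfl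
    have := ((GRun.one h1).trans h2).trans (GRun.one h4)
    convert this using 1
    omega
  | @casT k ce cf ct σ β σ' β' t r hk _ ih =>
    intro P off hP
    have hP0 := hP.left.left.left.head
    have h1 : gstep A P ⟨off, σ, β⟩ =
        some ⟨off + 1 + (clen ce + 1) + (clen cf + 1), update σ k r, β⟩ := by
      unfold gstep
      simp only [hP0, hk]
    have hct := hP.right
    simp only [List.length_append, length_comp, List.length_singleton] at hct
    have hct' := hct
    rw [show off + (1 + (clen ce + 1) + (clen cf + 1)) = off + 1 + (clen ce + 1) + (clen cf + 1)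
        by omega] at hct'
    have h2 := ih P _ hct'.left
    have h3 := hct'.right.head
    rw [length_comp] at h3
    try rw [List.length_singleton] at h3
    have h4 : gstep A P ⟨off + 1 + (clen ce + 1) + (clen cf + 1) + clen ct, σ', β'⟩ =
        some ⟨off + clen (.cas k ce cf ct), σ', β'⟩ := by
      unfold gstep
      rw [h3]; rfl
    have := ((GRun.one h1).trans h2).trans (GRun.one h4)
    convert this using 1
    omega
  | @loopE k cf ct σ β hk =>
    intro P off hP
    have hP0 := hP.left.left.head
    refine .one ?_
    unfold gstep
    simp only [hP0, hk]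
    rfl
  | @loopF k cf ct σ β σ' β' σ'' β'' t t' r hk _ _ ih1 ih2 =>
    intro P off hP
    have hP0 := hP.left.left.head
    have h1 : gstep A P ⟨off, σ, β⟩ = some ⟨off + 1, update σ k r, β⟩ := by
      unfold gstep
      simp only [hP0, hk]
    have h2 := ih1 P (off + 1) (hP.left.right).left
    have h3 := (hP.left.right).right.head
    rw [length_comp] at h3
    try rw [List.length_singleton] at h3
    have h4 : gstep A P ⟨off + 1 + clen cf, σ', β'⟩ = some ⟨off, σ', β'⟩ := by
      unfold gstep
      rw [h3]
    have h5 := ih2 P off hP
    have := (((GRun.one h1).trans h2).trans (GRun.one h4)).trans h5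
    convert this using 1
    omega
  | @loopT k cf ct σ β σ' β' σ'' β'' t t' r hk _ _ ih1 ih2 =>
    intro P off hP
    have hP0 := hP.left.left.head
    have h1 : gstep A P ⟨off, σ, β⟩ = some ⟨off + 1 + (clen cf + 1), update σ k r, β⟩ := by
      unfold gstep
      simp only [hP0, hk]
    have hct := hP.right
    simp only [List.length_append, length_comp, List.length_singleton] at hct
    have hct' := hct
    rw [show off + (1 + (clen cf + 1)) = off + 1 + (clen cf + 1) by omega] at hct'
    have h2 := ih1 P _ hct'.left
    have h3 := hct'.right.head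
    rw [length_comp] at h3
    try rw [List.length_singleton] at h3
    have h4 : gstep A P ⟨off + 1 + (clen cf + 1) + clen ct, σ', β'⟩ = some ⟨off, σ', β'⟩ := by
      unfold gstep
      rw [h3]
    have h5 := ih2 P off hP
    have := (((GRun.one h1).trans h2).trans (GRun.one h4)).trans h5
    convert this using 1
    omega
  | @chooseF c d σ β σ' β' t hb _ ih =>
    intro P off hP
    have hP0 := hP.left.left.head
    have h1 : gstep A P ⟨off, σ, β⟩ = some ⟨off + 1, σ, β.tail⟩ := by
      unfold gstep
      simp only [hP0, hb]
      rfl
    have h2 := ih P (off + 1) (hP.left.right).left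
    have h3 := (hP.left.right).right.head
    rw [length_comp] at h3
    try rw [List.length_singleton] at h3
    have h4 : gstep A P ⟨off + 1 + clen c, σ', β'⟩ = some ⟨off + clen (.choose c d), σ', β'⟩ := by
      unfold gstep
      rw [h3]; rfl
    have := ((GRun.one h1).trans h2).trans (GRun.one h4)
    convert this using 1
    omega
  | @chooseT c d σ β σ' β' t hb _ ih =>
    intro P off hP
    have hP0 := hP.left.left.head
    have h1 : gstep A P ⟨off, σ, β⟩ = some ⟨off + 1 + (clen c + 1), σ, β.tail⟩ := by
      unfold gstep
      simp only [hP0, hb]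
      rfl
    have hct := hP.right
    simp only [List.length_append, length_comp, List.length_singleton] at hct
    have hct' := hct
    rw [show off + (1 + (clen c + 1)) = off + 1 + (clen c + 1) by omega] at hct'
    have h2 := ih P _ hct'.left
    have h3 := hct'.right.head
    rw [length_comp] at h3
    try rw [List.length_singleton] at h3
    have h4 : gstep A P ⟨off + 1 + (clen c + 1) + clen d, σ', β'⟩ =
        some ⟨off + clen (.choose c d), σ', β'⟩ := by
      unfold gstep
      rw [h3]; rfl
    have := ((GRun.one h1).trans h2).trans (GRun.one h4)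
    convert this using 1
    omega
  | @askY c d σ β σ' β' t hq _ ih =>
    intro P off hP
    have hP0 := hP.left.left.head
    have h1 : gstep A P ⟨off, σ, β⟩ = some ⟨off + 1, σ, β⟩ := by
      unfold gstep
      simp only [hP0, if_pos hq]
    have h2 := ih P (off + 1) (hP.left.right).left
    have h3 := (hP.left.right).right.head
    rw [length_comp] at h3
    try rw [List.length_singleton] at h3
    have h4 : gstep A P ⟨off + 1 + clen c, σ', β'⟩ = some ⟨off + clen (.ask c d), σ', β'⟩ := by
      unfold gstep
      rw [h3]; rfl
    have := ((GRun.one h1).trans h2).trans (GRun.one h4)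
    convert this using 1
    omega
  | @askN c d σ β σ' β' t hq _ ih =>
    intro P off hP
    have hP0 := hP.left.left.head
    have h1 : gstep A P ⟨off, σ, β⟩ = some ⟨off + 1 + (clen c + 1), σ, β⟩ := by
      unfold gstep
      simp only [hP0, if_neg hq]
    have hct := hP.right
    simp only [List.length_append, length_comp, List.length_singleton] at hct
    have hct' := hct
    rw [show off + (1 + (clen c + 1)) = off + 1 + (clen c + 1) by omega] at hct'
    have h2 := ih P _ hct'.left
    have h3 := hct'.right.head
    rw [length_comp] at h3
    try rw [List.length_singleton] at h3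
    have h4 : gstep A P ⟨off + 1 + (clen c + 1) + clen d, σ', β'⟩ =
        some ⟨off + clen (.ask c d), σ', β'⟩ := by
      unfold gstep
      rw [h3]; rfl
    have := ((GRun.one h1).trans h2).trans (GRun.one h4)
    convert this using 1
    omega

end Pool.Agent.LibComplexity
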