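import Pool.Agent.LibComplexity.Tableau

/-!
The Cook–Levin theorem.
-/

namespace Pool.Agent.LibComplexity

open Function Enc

variable {𝒜 : Set Orc} {α β γ δ τ : Type} [Enc α] [Enc β] [Enc γ] [Enc δ] [Enc τ]

/-- the clauses for the initial state: register `0` contains an arbitrary word of length `q`,
register `2` contains `x` -/
def startC (K q : ℕ) (x : List Bool) : CNF Vr :=
  [[(pcV 0 0, true)], [(htV 0 0 q, true)], [(htV 0 2 x.length, true)]] ++
  ((List.range K).filter (fun k => decide (k ≠ 0 ∧ k ≠ 2))).map (fun k => [(htV 0 k 0, true)]) ++
  (List.range x.length).map (fun z => [(cellV 0 2 z (x.reverse.getD z false), true)]) ++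
  (List.range q).map (fun z => [(cellV 0 0 z true, true), (cellV 0 0 z false, true)])

/-- the clauses for the final state -/
def finalC (L acc T : ℕ) : CNF Vr :=
  ((List.range L).filter (fun l => decide (l ≠ acc))).map (fun l => [(pcV T l, false)])

/-- the formula -/
def tab (P : List Instr) (K acc q T H : ℕ) (x : List Bool) : CNF Vr :=
  startC K q x ++ (List.range T).flatMap (fun t => codeC K t H P 0) ++ finalC P.length acc T

theorem holds_single {a : Vr → Bool} {v : Vr} {b : Bool} : Holds a [(v, b)] ↔ a v = b := by
  simp [Holds]

theorem R3_ne (y x : List Bool) {k : ℕ} (h0 : k ≠ 0) (h2 : k ≠ 2) : R [y, [], x] k = [] := by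
  rcases k with _ | _ | _ | k
  · exact absurd rfl h0
  · rfl
  · exact absurd rfl h2
  · simp [R]

theorem tab_sat {P : List Instr} {K acc q T H : ℕ} {x : List Bool} (hK : ∀ i ∈ P, i.reg < K)
    (hH : q + x.length + T ≤ H)
    (hrun : ∀ y : List Bool, y.length = q → ∀ t ≤ T,
      ((nxt P)^[t] (0, R [y, [], x])).1 < P.length) :
    Sat (tab P K acc q T H x) ↔
      ∃ y : List Bool, y.length = q ∧ ((nxt P)^[T] (0, R [y, [], x])).1 = acc := by
  have hlen : ∀ (y : List Bool), y.length = q → ∀ t k,
      (((nxt P)^[t] (0, R [y, [], x])).2 k).length ≤ q + x.length + t := by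
    intro y hy t k
    induction t with
    | zero =>
      simp only [iterate_zero, id]
      by_cases h0 : k = 0
      · subst h0
        have : R [y, [], x] 0 = y := rfl
        rw [this]; omega
      · by_cases h2 : k = 2
        · subst h2
          have : R [y, [], x] 2 = x := rfl
          rw [this]; omega
        · rw [R3_ne y x h0 h2]; simp
    | succ t ih =>
      rw [iterate_succ_apply']
      have := nxt_length P ((nxt P)^[t] (0, R [y, [], x])) k
      omega
  constructor
  · rintro ⟨a, ha⟩
    let y : List Bool := ((List.range q).map fun z => a (cellV 0 0 z true)).reverse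
    have hy : y.length = q := by simp [y]
    have hstart : ∀ c ∈ startC K q x, Holds a c := fun c hc =>
      ha c (List.mem_append_left _ (List.mem_append_left _ hc))
    have hcode : ∀ t < T, ∀ c ∈ codeC K t H P 0, Holds a c := fun t ht c hc =>
      ha c (List.mem_append_left _ (List.mem_append_right _
        (List.mem_flatMap.2 ⟨t, List.mem_range.2 ht, hc⟩)))
    have hfinal : ∀ c ∈ finalC P.length acc T, Holds a c := fun c hc =>
      ha c (List.mem_append_right _ hc)
    have hgood : ∀ t ≤ T, Good K a t ((nxt P)^[t] (0, R [y, [], x])) := by
      intro t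
      induction t with
      | zero =>
        intro _
        simp only [iterate_zero, id]
        refine ⟨?_, fun k hk => ?_⟩
        · have := hstart [(pcV 0 0, true)] (by simp [startC])
          rwa [holds_single] at this
        · by_cases h0 : k = 0
          · subst h0
            have e : R [y, [], x] 0 = y := rfl
            simp only [e]
            refine ⟨?_, fun z b hz => ?_⟩
            · rw [hy]
              have := hstart [(htV 0 0 q, true)] (by simp [startC])
              rwa [holds_single] at this
            · have hz' : z < q := by
                by_contra h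
                rw [List.getElem?_eq_none (by simp; omega)] at hz
                cases hz
              have hb : a (cellV 0 0 z true) = b := by
                simp only [y, List.reverse_reverse, List.getElem?_map,
                  List.getElem?_range hz', Option.map_some, Option.some.injEq] at hz
                exact hz
              have := hstart [(cellV 0 0 z true, true), (cellV 0 0 z false, true)] (by
                simp only [startC, List.mem_append, List.mem_map, List.mem_range]
                exact Or.inr ⟨z, hz', rfl⟩)
              obtain ⟨l, hl, hal⟩ := this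
              simp only [List.mem_cons, List.not_mem_nil, or_false] at hl
              cases b with
              | true => exact hb
              | false =>
                rcases hl with rfl | rfl
                · rw [hb] at hal; cases hal
                · exact hal
          · by_cases h2 : k = 2
            · subst h2
              have e : R [y, [], x] 2 = x := rfl
              simp only [e]
              refine ⟨?_, fun z b hz => ?_⟩
              · have := hstart [(htV 0 2 x.length, true)] (by simp [startC])
                rwa [holds_single] at this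
              · have hz' : z < x.length := by
                  by_contra h
                  rw [List.getElem?_eq_none (by simp; omega)] at hz
                  cases hz
                have := hstart [(cellV 0 2 z (x.reverse.getD z false), true)] (by
                  simp only [startC, List.mem_append, List.mem_map, List.mem_range]
                  exact Or.inl (Or.inr ⟨z, hz', rfl⟩))
                rw [holds_single, List.getD_eq_getElem?_getD, hz] at this
                exact this
            · simp only [R3_ne y x h0 h2]
              refine ⟨?_, fun z b hz => by simp at hz⟩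
              have := hstart [(htV 0 k 0, true)] (by
                simp only [startC, List.mem_append, List.mem_map, List.mem_range,
                  List.mem_filter, decide_eq_true_eq]
                exact Or.inl (Or.inl (Or.inr ⟨k, ⟨hk, h0, h2⟩, rfl⟩)))
              rwa [holds_single] at this
      | succ t ih =>
        intro ht
        have hg := ih (by omega)
        rw [iterate_succ_apply']
        have hpc := hrun y hy t (by omega)
        have hi : P[((nxt P)^[t] (0, R [y, [], x])).1]? =
            some P[((nxt P)^[t] (0, R [y, [], x])).1] := List.getElem?_eq_getElem hpc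
        refine good_step hi hg (fun k => ?_) (hK _ (List.getElem_mem hpc)) (fun c hc => ?_)
          (H := H)
        · have := hlen y hy t k
          omega
        · refine hcode t (by omega) c (mem_codeC.2 ⟨_, _, hi, ?_⟩)
          rwa [Nat.zero_add]
    refine ⟨y, hy, ?_⟩
    by_contra hne
    have h1 := (hgood T le_rfl).1
    have h2 := hfinal [(pcV T ((nxt P)^[T] (0, R [y, [], x])).1, false)] (by
      simp only [finalC, List.mem_map, List.mem_filter, List.mem_range, decide_eq_true_eq]
      exact ⟨_, ⟨hrun y hy T le_rfl, hne⟩, rfl⟩)
    rw [holds_single, h1] at h2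
    cases h2
  · rintro ⟨y, hy, hacc⟩
    let tr : ℕ → St := fun t => (nxt P)^[t] (0, R [y, [], x])
    have htr : ∀ t, tr (t + 1) = nxt P (tr t) := fun t => iterate_succ_apply' _ _ _
    refine ⟨asg tr, fun c hc => ?_⟩
    simp only [tab, List.mem_append] at hc
    rcases hc with (hc | hc) | hc
    · simp only [startC, List.mem_append, List.mem_map, List.mem_range, List.mem_cons,
        List.not_mem_nil, or_false, List.mem_filter, decide_eq_true_eq] at hc
      rcases hc with (((rfl | rfl | rfl) | ⟨k, ⟨-, h0, h2⟩, rfl⟩) | ⟨z, hz, rfl⟩) | ⟨z, hz, rfl⟩
      · rw [holds_single, asg_pc]; rfl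
      · rw [holds_single, asg_ht]; exact hy
      · rw [holds_single, asg_ht]; rfl
      · rw [holds_single, asg_ht]
        show (R [y, [], x] k).length = 0
        rw [R3_ne y x h0 h2]
        rfl
      · rw [holds_single, asg_cell]
        show x.reverse[z]? = _
        rw [List.getD_eq_getElem?_getD, List.getElem?_eq_getElem (by simpa using hz)]
        rfl
      · have hz' : z < y.reverse.length := by simpa [hy] using hz
        have e : y.reverse[z]? = some y.reverse[z] := List.getElem?_eq_getElem hz'
        cases hb : y.reverse[z] with
        | true =>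
          refine ⟨(cellV 0 0 z true, true), by simp, ?_⟩
          rw [asg_cell]
          show y.reverse[z]? = _
          rw [e, hb]
        | false =>
          refine ⟨(cellV 0 0 z false, true), by simp, ?_⟩
          rw [asg_cell]
          show y.reverse[z]? = _
          rw [e, hb]
    · obtain ⟨t, ht, hc⟩ := List.mem_flatMap.1 hc
      obtain ⟨j, i, hi, hc⟩ := mem_codeC.1 hc
      rw [Nat.zero_add] at hc
      exact holds_instrC hi (htr t) c hc
    · simp only [finalC, List.mem_map, List.mem_filter, List.mem_range, decide_eq_true_eq] at hc
      obtain ⟨l, ⟨-, hl⟩, rfl⟩ := hc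
      rw [holds_single]
      by_contra h
      have h1 : asg tr (pcV T l) = true := by simpa using h
      rw [asg_pc] at h1
      exact hl (h1.symm.trans hacc)

/-! ### The formula is computed in polynomial time -/

namespace PTf

theorem imp {p : Orc → α → List Vr} {c : Orc → α → Vr} (hp : PTf 𝒜 p) (hc : PTf 𝒜 c) :
    PTf 𝒜 (fun A x => LibComplexity.imp (p A x) (c A x)) := by
  unfold LibComplexity.imp
  exact (hc.pair (PTf.const true)).cons (hp.map (g := fun _ _ v => (v, false))
    (PTf.id.snd.pair (PTf.const false)))

theorem pcV {t l : Orc → α → ℕ} (ht : PTf 𝒜 t) (hl : PTf 𝒜 l) :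
    PTf 𝒜 (fun A x => LibComplexity.pcV (t A x) (l A x)) := by
  unfold LibComplexity.pcV
  with_reducible
    apply PTf.pair; apply PTf.const; apply PTf.pair; assumption; apply PTf.pair; assumption
    apply PTf.const

theorem htV {t k h : Orc → α → ℕ} (ht : PTf 𝒜 t) (hk : PTf 𝒜 k) (hh : PTf 𝒜 h) :
    PTf 𝒜 (fun A x => LibComplexity.htV (t A x) (k A x) (h A x)) := by
  unfold LibComplexity.htV
  with_reducible
    apply PTf.pair; apply PTf.const; apply PTf.pair; assumption; apply PTf.pair; assumption
    apply PTf.pair; assumption; apply PTf.const

theorem cellV {t k h : Orc → α → ℕ} {b : Orc → α → Bool} (ht : PTf 𝒜 t) (hk : PTf 𝒜 k)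
    (hh : PTf 𝒜 h) (hb : PTf 𝒜 b) :
    PTf 𝒜 (fun A x => LibComplexity.cellV (t A x) (k A x) (h A x) (b A x)) := by
  unfold LibComplexity.cellV
  with_reducible
    apply PTf.pair; apply PTf.const; apply PTf.pair; assumption; apply PTf.pair; assumption
    apply PTf.pair; assumption; assumption

theorem keep {t H : Orc → α → ℕ} (ht : PTf 𝒜 t) (hH : PTf 𝒜 H) (l k : ℕ) :
    PTf 𝒜 (fun A x => LibComplexity.keep l (t A x) (H A x) k) := by
  unfold LibComplexity.keep
  have ht' : PTf 𝒜 (fun A (p : α × ℕ) => t A p.1) := ht.comp PTf.id.fst
  with_reducible
    apply PTf.append; apply PTf.append; apply PTf.map; apply PTf.range; apply PTf.add; assumption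
    apply PTf.const; apply PTf.imp; apply PTf.cons; apply PTf.pcV; assumption; apply PTf.const
    apply PTf.cons; apply PTf.htV; assumption; apply PTf.const; apply PTf.snd; apply PTf.id
    apply PTf.const; apply PTf.htV; apply PTf.add; assumption; apply PTf.const; apply PTf.const
    apply PTf.snd; apply PTf.id; apply PTf.map; apply PTf.range; apply PTf.add; assumption
    apply PTf.const; apply PTf.imp; apply PTf.cons; apply PTf.pcV; assumption; apply PTf.const
    apply PTf.cons; apply PTf.cellV; assumption; apply PTf.const; apply PTf.snd; apply PTf.id
    apply PTf.const; apply PTf.const; apply PTf.cellV; apply PTf.add; assumption; apply PTf.const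
    apply PTf.const; apply PTf.snd; apply PTf.id; apply PTf.const; apply PTf.map; apply PTf.range
    apply PTf.add; assumption; apply PTf.const; apply PTf.imp; apply PTf.cons; apply PTf.pcV
    assumption; apply PTf.const; apply PTf.cons; apply PTf.cellV; assumption; apply PTf.const
    apply PTf.snd; apply PTf.id; apply PTf.const; apply PTf.const; apply PTf.cellV; apply PTf.add
    assumption; apply PTf.const; apply PTf.const; apply PTf.snd; apply PTf.id; apply PTf.const

theorem keeps {t H : Orc → α → ℕ} (ht : PTf 𝒜 t) (hH : PTf 𝒜 H) (l : ℕ) (ks : List ℕ) :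
    PTf 𝒜 (fun A x => LibComplexity.keeps l (t A x) (H A x) ks) := by
  induction ks with
  | nil => exact PTf.const []
  | cons k ks ih => exact (PTf.keep ht hH l k).append ih

theorem instrC {t H : Orc → α → ℕ} (ht : PTf 𝒜 t) (hH : PTf 𝒜 H) (K : ℕ) (i : Instr) (l : ℕ) :
    PTf 𝒜 (fun A x => LibComplexity.instrC K i l (t A x) (H A x)) := by
  have ht' : PTf 𝒜 (fun A (p : α × ℕ) => t A p.1) := ht.comp PTf.id.fst
  have ht'' : PTf 𝒜 (fun A (p : (α × ℕ) × ℕ) => t A p.1.1) := ht.comp PTf.id.fst.fst
  have hk : ∀ ks, PTf 𝒜 (fun A x => LibComplexity.keeps l (t A x) (H A x) ks) :=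
    fun ks => PTf.keeps ht hH l ks
  cases i with
  | push k b =>
    have h1 := hk ((List.range K).filter (· ≠ k))
    simp only [LibComplexity.instrC, LibComplexity.pushC]
    with_reducible
      apply PTf.cons; apply PTf.imp; apply PTf.cons; apply PTf.pcV; assumption; apply PTf.const
      apply PTf.const; apply PTf.pcV; apply PTf.add; assumption; apply PTf.const; apply PTf.const
      apply PTf.append; apply PTf.append; apply PTf.append; apply PTf.append; apply PTf.map
      apply PTf.range; apply PTf.add; assumption; apply PTf.const; apply PTf.imp; apply PTf.cons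
      apply PTf.pcV; assumption; apply PTf.const; apply PTf.cons; apply PTf.htV; assumption
      apply PTf.const; apply PTf.snd; apply PTf.id; apply PTf.const; apply PTf.htV; apply PTf.add
      assumption; apply PTf.const; apply PTf.const; apply PTf.add; apply PTf.snd; apply PTf.id
      apply PTf.const; apply PTf.map; apply PTf.range; apply PTf.add; assumption; apply PTf.const
      apply PTf.imp; apply PTf.cons; apply PTf.pcV; assumption; apply PTf.const; apply PTf.cons
      apply PTf.htV; assumption; apply PTf.const; apply PTf.snd; apply PTf.id; apply PTf.const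
      apply PTf.cellV; apply PTf.add; assumption; apply PTf.const; apply PTf.const; apply PTf.snd
      apply PTf.id; apply PTf.const; apply PTf.map; apply PTf.range; apply PTf.add; assumption
      apply PTf.const; apply PTf.imp; apply PTf.cons; apply PTf.pcV; assumption; apply PTf.const
      apply PTf.cons; apply PTf.cellV; assumption; apply PTf.const; apply PTf.snd; apply PTf.id
      apply PTf.const; apply PTf.const; apply PTf.cellV; apply PTf.add; assumption
      apply PTf.const; apply PTf.const; apply PTf.snd; apply PTf.id; apply PTf.const
      apply PTf.map; apply PTf.range; apply PTf.add; assumption; apply PTf.const; apply PTf.imp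
      apply PTf.cons; apply PTf.pcV; assumption; apply PTf.const; apply PTf.cons; apply PTf.cellV
      assumption; apply PTf.const; apply PTf.snd; apply PTf.id; apply PTf.const; apply PTf.const
      apply PTf.cellV; apply PTf.add; assumption; apply PTf.const; apply PTf.const; apply PTf.snd
      apply PTf.id; apply PTf.const; assumption
  | pop k le lf lt =>
    have h1 := hk ((List.range K).filter (· ≠ k))
    simp only [LibComplexity.instrC, LibComplexity.popC]
    with_reducible
      apply PTf.append; apply PTf.append; apply PTf.append; apply PTf.append; apply PTf.append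
      apply PTf.append; apply PTf.cons; apply PTf.imp; apply PTf.cons; apply PTf.pcV; assumption
      apply PTf.const; apply PTf.cons; apply PTf.htV; assumption; apply PTf.const; apply PTf.const
      apply PTf.const; apply PTf.pcV; apply PTf.add; assumption; apply PTf.const; apply PTf.const
      apply PTf.cons; apply PTf.imp; apply PTf.cons; apply PTf.pcV; assumption; apply PTf.const
      apply PTf.cons; apply PTf.htV; assumption; apply PTf.const; apply PTf.const; apply PTf.const
      apply PTf.htV; apply PTf.add; assumption; apply PTf.const; apply PTf.const; apply PTf.const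
      apply PTf.const; apply PTf.map; apply PTf.range; apply PTf.add; assumption; apply PTf.const
      apply PTf.imp; apply PTf.cons; apply PTf.pcV; assumption; apply PTf.const; apply PTf.cons
      apply PTf.htV; assumption; apply PTf.const; apply PTf.add; apply PTf.snd; apply PTf.id
      apply PTf.const; apply PTf.const; apply PTf.htV; apply PTf.add; assumption; apply PTf.const
      apply PTf.const; apply PTf.snd; apply PTf.id; apply PTf.map; apply PTf.range; apply PTf.add
      assumption; apply PTf.const; apply PTf.imp; apply PTf.cons; apply PTf.pcV; assumption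
      apply PTf.const; apply PTf.cons; apply PTf.htV; assumption; apply PTf.const; apply PTf.add
      apply PTf.snd; apply PTf.id; apply PTf.const; apply PTf.cons; apply PTf.cellV; assumption
      apply PTf.const; apply PTf.snd; apply PTf.id; apply PTf.const; apply PTf.const
      apply PTf.pcV; apply PTf.add; assumption; apply PTf.const; apply PTf.const; apply PTf.map
      apply PTf.range; apply PTf.add; assumption; apply PTf.const; apply PTf.imp; apply PTf.cons
      apply PTf.pcV; assumption; apply PTf.const; apply PTf.cons; apply PTf.htV; assumption
      apply PTf.const; apply PTf.add; apply PTf.snd; apply PTf.id; apply PTf.const; apply PTf.cons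
      apply PTf.cellV; assumption; apply PTf.const; apply PTf.snd; apply PTf.id; apply PTf.const
      apply PTf.const; apply PTf.pcV; apply PTf.add; assumption; apply PTf.const; apply PTf.const
      apply PTf.flatMap; apply PTf.range; apply PTf.add; assumption; apply PTf.const
      apply PTf.map; apply PTf.range; apply PTf.snd; apply PTf.id; apply PTf.imp; apply PTf.cons
      apply PTf.pcV; assumption; apply PTf.const; apply PTf.cons; apply PTf.htV; assumption
      apply PTf.const; apply PTf.add; apply PTf.snd; apply PTf.fst; apply PTf.id; apply PTf.const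
      apply PTf.cons; apply PTf.cellV; assumption; apply PTf.const; apply PTf.snd; apply PTf.id
      apply PTf.const; apply PTf.const; apply PTf.cellV; apply PTf.add; assumption
      apply PTf.const; apply PTf.const; apply PTf.snd; apply PTf.id; apply PTf.const
      apply PTf.flatMap; apply PTf.range; apply PTf.add; assumption; apply PTf.const
      apply PTf.map; apply PTf.range; apply PTf.snd; apply PTf.id; apply PTf.imp; apply PTf.cons
      apply PTf.pcV; assumption; apply PTf.const; apply PTf.cons; apply PTf.htV; assumption
      apply PTf.const; apply PTf.add; apply PTf.snd; apply PTf.fst; apply PTf.id; apply PTf.const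
      apply PTf.cons; apply PTf.cellV; assumption; apply PTf.const; apply PTf.snd; apply PTf.id
      apply PTf.const; apply PTf.const; apply PTf.cellV; apply PTf.add; assumption
      apply PTf.const; apply PTf.const; apply PTf.snd; apply PTf.id; apply PTf.const; assumption
  | jmp l' =>
    have h1 := hk (List.range K)
    simp only [LibComplexity.instrC]
    with_reducible
      apply PTf.cons; apply PTf.imp; apply PTf.cons; apply PTf.pcV; assumption; apply PTf.const
      apply PTf.const; apply PTf.pcV; apply PTf.add; assumption; apply PTf.const; apply PTf.const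
      assumption
  | choose l' _ =>
    have h1 := hk (List.range K)
    simp only [LibComplexity.instrC]
    with_reducible
      apply PTf.cons; apply PTf.imp; apply PTf.cons; apply PTf.pcV; assumption; apply PTf.const
      apply PTf.const; apply PTf.pcV; apply PTf.add; assumption; apply PTf.const; apply PTf.const
      assumption
  | ask _ l' =>
    have h1 := hk (List.range K)
    simp only [LibComplexity.instrC]
    with_reducible
      apply PTf.cons; apply PTf.imp; apply PTf.cons; apply PTf.pcV; assumption; apply PTf.const
      apply PTf.const; apply PTf.pcV; apply PTf.add; assumption; apply PTf.const; apply PTf.const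
      assumption
  | halt _ =>
    have h1 := hk (List.range K)
    simp only [LibComplexity.instrC]
    with_reducible
      apply PTf.cons; apply PTf.imp; apply PTf.cons; apply PTf.pcV; assumption; apply PTf.const
      apply PTf.const; apply PTf.pcV; apply PTf.add; assumption; apply PTf.const; apply PTf.const
      assumption

theorem codeC {t H : Orc → α → ℕ} (ht : PTf 𝒜 t) (hH : PTf 𝒜 H) (K : ℕ) (P : List Instr) :
    ∀ l : ℕ, PTf 𝒜 (fun A x => LibComplexity.codeC K (t A x) (H A x) P l) := by
  induction P with
  | nil => intro l; exact PTf.const []
  | cons i P ih => intro l; exact (PTf.instrC ht hH K i l).append (ih (l + 1))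

theorem tab {q T H : Orc → α → ℕ} {x : Orc → α → List Bool} (hq : PTf 𝒜 q) (hT : PTf 𝒜 T)
    (hH : PTf 𝒜 H) (hx : PTf 𝒜 x) (P : List Instr) (K acc : ℕ) :
    PTf 𝒜 (fun A y => LibComplexity.tab P K acc (q A y) (T A y) (H A y) (x A y)) := by
  have hT' : PTf 𝒜 (fun A (p : α × ℕ) => T A p.1) := hT.comp PTf.id.fst
  have hH' : PTf 𝒜 (fun A (p : α × ℕ) => H A p.1) := hH.comp PTf.id.fst
  have hx' : PTf 𝒜 (fun A (p : α × ℕ) => x A p.1) := hx.comp PTf.id.fst
  have h1 : PTf 𝒜 (fun A (p : α × ℕ) => LibComplexity.codeC K p.2 (H A p.1) P 0) :=
    PTf.codeC PTf.id.snd hH' K P 0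
  unfold LibComplexity.tab startC finalC
  with_reducible
    apply PTf.append; apply PTf.append; apply PTf.append; apply PTf.append; apply PTf.append
    apply PTf.cons; apply PTf.const; apply PTf.cons; apply PTf.cons; apply PTf.pair; apply PTf.htV
    apply PTf.const; apply PTf.const; assumption; apply PTf.const; apply PTf.const; apply PTf.cons
    apply PTf.cons; apply PTf.pair; apply PTf.htV; apply PTf.const; apply PTf.const
    apply PTf.length; assumption; apply PTf.const; apply PTf.const; apply PTf.const
    apply PTf.const; apply PTf.map; apply PTf.range; apply PTf.length; assumption; apply PTf.cons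
    apply PTf.pair; apply PTf.cellV; apply PTf.const; apply PTf.const; apply PTf.snd; apply PTf.id
    apply PTf.listGetD; apply PTf.reverse; assumption; apply PTf.snd; apply PTf.id
    apply PTf.const; apply PTf.const; apply PTf.const; apply PTf.map; apply PTf.range; assumption
    apply PTf.cons; apply PTf.pair; apply PTf.cellV; apply PTf.const; apply PTf.const
    apply PTf.snd; apply PTf.id; apply PTf.const; apply PTf.const; apply PTf.cons; apply PTf.pair
    apply PTf.cellV; apply PTf.const; apply PTf.const; apply PTf.snd; apply PTf.id
    apply PTf.const; apply PTf.const; apply PTf.const; apply PTf.flatMap; apply PTf.range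
    assumption; assumption; apply PTf.map; apply PTf.const; apply PTf.cons; apply PTf.pair
    apply PTf.pcV; assumption; apply PTf.snd; apply PTf.id; apply PTf.const; apply PTf.const

end PTf

/-! ### The Cook–Levin theorem -/

/-- The Cook–Levin theorem: every language in `NP` is reduced in polynomial time to
satisfiability. -/
theorem cook_levin {L : Set (List Bool)} (hL : InNP ∅ L) :
    ∃ F : List Bool → CNF Vr, (∀ 𝒜 : Set Orc, PTf 𝒜 (fun _ x => F x)) ∧
      (∀ x, ∃ l l' φ, F x = [l] :: [l'] :: φ) ∧ ∀ x, x ∈ L ↔ Sat (F x) := by
  obtain ⟨V, q, ⟨c, hc, N, hN⟩, hV⟩ := inNP_iff.1 hL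
  -- the program: register `0` contains `y`, register `2` contains `x`
  let prog : Com := .seq (call tolist 0 1) (.seq (call tolist 2 1)
    (.seq prepend (.seq (.push 0 true) c)))
  have hprog : prog.Det := ⟨det_call det_tolist _ _, det_call det_tolist _ _, det_prepend,
    trivial, hc⟩
  let n := clen prog
  let P : List Instr := comp prog 0 ++ [.pop 0 (n + 1) (n + 1) (n + 2), .halt false, .halt true]
  have hP0 : P[n]? = some (.pop 0 (n + 1) (n + 1) (n + 2)) := by
    simp only [P]
    rw [List.getElem?_append_right (by rw [length_comp]), length_comp]
    simp [n]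
  have hP1 : P[n + 1]? = some (.halt false) := by
    simp only [P]
    rw [List.getElem?_append_right (by rw [length_comp]; omega), length_comp]
    simp [n]
  have hP2 : P[n + 2]? = some (.halt true) := by
    simp only [P]
    rw [List.getElem?_append_right (by rw [length_comp]; omega), length_comp]
    simp [n]
  have hdet : ∀ i ∈ P, ∀ l₀ l₁, i ≠ .choose l₀ l₁ := by
    intro i hi l₀ l₁
    simp only [P, List.mem_append, List.mem_cons, List.not_mem_nil, or_false] at hi
    rcases hi with hi | hi | hi | hi
    · exact comp_det hprog _ i hi _ _
    · rw [hi]; intro h; cases h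
    · rw [hi]; intro h; cases h
    · rw [hi]; intro h; cases h
  let S : Polynomial ℕ := 4 * Polynomial.X + 4 * q + 3
  let T : Polynomial ℕ := 9 * q + 3 + (9 * Polynomial.X + 3) + (6 * (4 * Polynomial.X + 1) + 2) +
    1 + N.comp S + 1
  -- the run
  have hrun : ∀ x y : List Bool, y.length = q.eval x.length →
      ((nxt P)^[T.eval x.length] (0, R [y, [], x])).1 = (if V ∅ (x, y) then n + 2 else n + 1) ∧
      ∀ t ≤ T.eval x.length, ((nxt P)^[t] (0, R [y, [], x])).1 < P.length := by
    intro x y hy
    have h1 : Runs ∅ (call tolist 0 1) (R [y, [], x]) (R [(e y).enc, [], x]) (9 * y.length + 3) :=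
      runs_callR (runs_tolist y) (by decide) (by simp) (by simp) (by simp)
    have h2 : Runs ∅ (call tolist 2 1) (R [(e y).enc, [], x]) (R [(e y).enc, [], (e x).enc])
        (9 * x.length + 3) :=
      runs_callR (runs_tolist x) (by decide) (by simp) (by simp) (by simp)
    have h3 := runs_prepend (A := ∅) (e x).enc (e y).enc
    have h4 : Runs ∅ (.push 0 true) (R [(e x).enc ++ (e y).enc]) (R [(e (x, y)).enc]) 1 := by
      refine Runs.push.cast ?_ le_rfl
      rw [R_update _ _ _ (by simp)]; rfl
    have h5 := hN ∅ rfl (x, y)
    obtain ⟨t, ht, h⟩ := (h1.seq (h2.seq (h3.seq (h4.seq h5)))) (fun _ => false)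
    have hcode : CodeAt P 0 (comp prog 0) := by
      intro i hi
      rw [Nat.zero_add]
      exact List.getElem?_append_left hi
    have h6 := comp_correct h P 0 hcode
    rw [Nat.zero_add] at h6
    obtain ⟨r, hr⟩ := top_bool (V ∅ (x, y))
    let l := if V ∅ (x, y) then n + 2 else n + 1
    have h7 : gstep ∅ P ⟨n, R [(e (V ∅ (x, y))).enc], fun _ => false⟩ =
        some ⟨l, update (R [(e (V ∅ (x, y))).enc]) 0 r, fun _ => false⟩ := by
      have hσ : (R [(e (V ∅ (x, y))).enc]) 0 = V ∅ (x, y) :: r := hr
      unfold gstep
      simp only [hP0, hσ, l]
      cases V ∅ (x, y) <;> rfl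
    obtain ⟨h8, h9⟩ := nxt_run hdet (h6.trans (GRun.one h7))
    simp only at h8 h9
    have h10 : ∃ b, P[l]? = some (.halt b) := by
      simp only [l]
      cases V ∅ (x, y)
      · exact ⟨false, hP1⟩
      · exact ⟨true, hP2⟩
    obtain ⟨b, h10⟩ := h10
    have h11 : ∀ m, (nxt P)^[t + 1 + m] (0, R [y, [], x]) =
        (l, update (R [(e (V ∅ (x, y))).enc]) 0 r) := by
      intro m
      induction m with
      | zero => exact h8
      | succ m ih =>
        rw [← Nat.add_assoc, iterate_succ_apply', ih]
        exact nxt_halt h10
    have hT : t + 1 ≤ T.eval x.length := by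
      have k1 := sz_word_le x
      have k2 := sz_word_le y
      have k7 : sz (x, y) ≤ S.eval x.length := by
        simp only [S, Polynomial.eval_add, Polynomial.eval_mul, Polynomial.eval_X,
          Polynomial.eval_ofNat]
        rw [sz_pair, ← hy]; omega
      have k8 := peval_mono N k7
      have k9 : (e x).enc.length = sz x := Tr.length_enc _
      simp only [T, Polynomial.eval_add, Polynomial.eval_mul, Polynomial.eval_X,
        Polynomial.eval_ofNat, Polynomial.eval_comp, Polynomial.eval_one]
      rw [← hy]
      omega
    constructor
    · obtain ⟨m, hm⟩ := Nat.exists_eq_add_of_le hT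
      rw [hm, h11]
    · intro t' ht'
      by_cases hlt : t' < t + 1
      · exact h9 t' hlt
      · obtain ⟨m, hm⟩ := Nat.exists_eq_add_of_le (show t + 1 ≤ t' by omega)
        rw [hm, h11]
        exact pc_lt h10
  let K := regBound P + 1
  refine ⟨fun x => tab P K (n + 2) (q.eval x.length) (T.eval x.length)
    (q.eval x.length + x.length + T.eval x.length) x, fun 𝒜 => ?_, fun x => ⟨_, _, _, rfl⟩,
    fun x => ?_⟩
  · have hl : PTf 𝒜 (fun _ (x : List Bool) => x.length) := PTf.id.length
    exact PTf.tab (hl.poly q) (hl.poly T) (((hl.poly q).add hl).add (hl.poly T)) PTf.id P K (n + 2)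
  · rw [tab_sat (fun i hi => Nat.lt_succ_of_le (reg_le hi)) le_rfl
      (fun y hy t ht => (hrun x y hy).2 t ht), hV x]
    constructor
    · rintro ⟨y, hy, h⟩
      refine ⟨y, hy, ?_⟩
      rw [(hrun x y hy).1, h]
      rfl
    · rintro ⟨y, hy, h⟩
      refine ⟨y, hy, ?_⟩
      rw [(hrun x y hy).1] at h
      by_contra hV'
      rw [if_neg hV'] at h
      omega

end Pool.Agent.LibComplexity
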