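import Pool.Agent.LibComplexity.Encode

/-!
Total decoding functions: every word is read as an object of the given type.
-/

namespace Pool.Agent.LibComplexity

open Function Enc

variable {𝒜 : Set Orc} {α β γ δ τ : Type} [Enc α] [Enc β] [Enc γ] [Enc δ] [Enc τ]

/-! ### Reading a tree -/

/-- read a tree from a word; the word is continued by `false` if it is too short -/
def rd : ℕ → List Bool → Tr × List Bool
  | 0, w => (.nil, w)
  | _ + 1, [] => (.nil, [])
  | _ + 1, false :: w => (.nil, w)
  | n + 1, true :: w =>
    (.cons (rd n w).1 (rd n (rd n w).2).1, (rd n (rd n w).2).2)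

theorem rd_length (n : ℕ) : ∀ w : List Bool, (rd n w).2.length ≤ w.length := by
  induction n with
  | zero => intro w; exact le_rfl
  | succ n ih =>
    intro w
    match w with
    | [] => exact le_rfl
    | false :: w => simp [rd]
    | true :: w =>
      have h1 := ih w
      have h2 := ih (rd n w).2
      simp only [rd, List.length_cons]
      omega

theorem rd_size (n : ℕ) : ∀ w : List Bool,
    (rd n w).1.size + 2 * (rd n w).2.length ≤ 2 * w.length + 1 := by
  induction n with
  | zero => intro w; simp [rd, Tr.size]; omega
  | succ n ih =>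
    intro w
    match w with
    | [] => simp [rd, Tr.size]
    | false :: w => simp [rd, Tr.size]; omega
    | true :: w =>
      have h1 := ih w
      have h2 := ih (rd n w).2
      simp only [rd, List.length_cons, Tr.size]
      omega

theorem rd_enc (t : Tr) : ∀ (n : ℕ) (r : List Bool), (t.enc ++ r).length < n →
    rd n (t.enc ++ r) = (t, r) := by
  induction t with
  | nil =>
    intro n r hn
    cases n with
    | zero => omega
    | succ n => rfl
  | cons a b iha ihb =>
    intro n r hn
    cases n with
    | zero => omega
    | succ n =>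
      have e1 : (Tr.cons a b).enc ++ r = true :: (a.enc ++ (b.enc ++ r)) := by simp [Tr.enc]
      rw [e1] at hn ⊢
      simp only [List.length_cons, List.length_append] at hn
      have h1 := iha n (b.enc ++ r) (by simp only [List.length_append]; omega)
      have h2 := ihb n r (by simp only [List.length_append]; omega)
      simp only [rd, h1, h2]

/-- the tree read from a word -/
def readTr (w : List Bool) : Tr := (rd (w.length + 1) w).1

theorem readTr_enc (t : Tr) (r : List Bool) : readTr (t.enc ++ r) = t := by
  unfold readTr
  rw [rd_enc t _ r (by omega)]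

/-- one step of the reading program -/
def rdBody : Com := .cas 0 (.push 2 false) (.push 2 false)
  (.seq (.push 2 true) (.seq (.push 3 true) (.push 3 true)))

/-- the loop of the reading program -/
def rdLoop : Com := .loop 3 rdBody rdBody

theorem rd_step {A : Orc} (n : ℕ) : ∀ (w v s : List Bool) (fin : Regs) (k : ℕ), w.length < n →
    Runs A rdLoop (R [(rd n w).2, [], (rd n w).1.enc.reverse ++ v, s]) fin k →
    Runs A rdLoop (R [w, [], v, true :: s]) fin (k + 7 * (rd n w).1.size) := by
  induction n with
  | zero => intro w v s fin k hn; omega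
  | succ n ih =>
    intro w v s fin k hn h
    have ep : update (R [w, [], v, true :: s]) 3 s = R [w, [], v, s] := by
      rw [R_update _ _ _ (by simp)]; rfl
    match w with
    | [] =>
      have h1 : Runs A (.push 2 false) (R [[], [], v, s]) (R [[], [], false :: v, s]) 1 := by
        refine Runs.push.cast ?_ le_rfl
        rw [R_update _ _ _ (by simp)]; rfl
      refine (Runs.loopT' rfl ep (Runs.casE rfl h1) h).mono ?_
      simp only [rd, Tr.size]; omega
    | false :: w =>
      have h1 : Runs A (.push 2 false) (R [w, [], v, s]) (R [w, [], false :: v, s]) 1 := by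
        refine Runs.push.cast ?_ le_rfl
        rw [R_update _ _ _ (by simp)]; rfl
      have e2 : update (R [false :: w, [], v, s]) 0 w = R [w, [], v, s] := by
        rw [R_update _ _ _ (by simp)]; rfl
      refine (Runs.loopT' rfl ep (Runs.casF' rfl e2 h1) h).mono ?_
      simp only [rd, Tr.size]; omega
    | true :: w =>
      have h1 : Runs A (.seq (.push 2 true) (.seq (.push 3 true) (.push 3 true)))
          (R [w, [], v, s]) (R [w, [], true :: v, true :: true :: s]) (1 + (1 + 1)) := by
        refine (Runs.push.seq (Runs.push.seq Runs.push)).cast ?_ le_rfl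
        rw [R_update _ _ _ (by simp)]
        simp only [List.set_cons_succ, List.set_cons_zero]
        rw [R_update _ _ _ (by simp)]
        simp only [List.set_cons_succ, List.set_cons_zero]
        rw [R_update _ _ _ (by simp)]
        rfl
      have e2 : update (R [true :: w, [], v, s]) 0 w = R [w, [], v, s] := by
        rw [R_update _ _ _ (by simp)]; rfl
      simp only [List.length_cons] at hn
      have h2 : Runs A rdLoop (R [(rd n w).2, [], (rd n w).1.enc.reverse ++ (true :: v),
          true :: s]) fin (k + 7 * (rd n (rd n w).2).1.size) := by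
        apply ih
        · have := rd_length n w
          omega
        · have e3 : (rd (n + 1) (true :: w)).1.enc.reverse ++ v =
              (rd n (rd n w).2).1.enc.reverse ++ ((rd n w).1.enc.reverse ++ (true :: v)) := by
            simp [rd, Tr.enc]
          rw [e3] at h
          exact h
      have h3 := ih w (true :: v) (true :: s) fin _ (by omega) h2
      refine (Runs.loopT' rfl ep (Runs.casT' rfl e2 h1) h3).mono ?_
      simp only [rd, Tr.size]; omega

theorem PTf.readTr {f : Orc → α → List Bool} (hf : PTf 𝒜 f) :
    PTf 𝒜 (fun A x => LibComplexity.readTr (f A x)) := by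
  suffices h : PTf 𝒜 (fun _ w => LibComplexity.readTr w) by
    have h2 := h.comp hf
    exact h2
  refine ⟨.seq fromlist (.seq (.push 3 true) (.seq rdLoop (.seq (clear 0) (mv 2 0)))),
    ⟨det_fromlist, trivial, ⟨⟨trivial, trivial, trivial, trivial, trivial⟩,
      ⟨trivial, trivial, trivial, trivial, trivial⟩⟩, det_clear _, det_mv _ _⟩,
    50 * Polynomial.X + 50, fun A _ w => ?_⟩
  have h1 := runs_fromlist (A := A) w
  rw [pad3 w] at h1
  have h2 : Runs A (.push 3 true) (R [w, [], [], []]) (R [w, [], [], [true]]) 1 := by
    refine Runs.push.cast ?_ le_rfl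
    rw [R_update _ _ _ (by simp)]; rfl
  let t := LibComplexity.readTr w
  let r := (rd (w.length + 1) w).2
  have h3 : Runs A rdLoop (R [w, [], [], [true]]) (R [r, [], t.enc.reverse, []])
      (1 + 7 * t.size) := by
    apply rd_step (w.length + 1) w [] [] _ 1 (by omega)
    rw [List.append_nil]
    exact Runs.loopE rfl
  have h4 := runs_clear (A := A) (a := 0) r (R [r, [], t.enc.reverse, []]) rfl
  rw [R_update _ _ _ (by simp), List.set_cons_zero] at h4
  have h5 := runs_mv (A := A) (a := 2) (b := 0) (by decide) t.enc.reverse
    (R [[], [], t.enc.reverse, []]) rfl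
  refine (h1.seq (h2.seq (h3.seq (h4.seq h5)))).cast ?_ ?_
  · rw [pad3 (e (LibComplexity.readTr w)).enc]
    simp [R_update, R]
    rfl
  · have k1 := rd_size (w.length + 1) w
    have k2 := rd_length (w.length + 1) w
    have k3 := length_le_sz w
    have k4 : t.size = (rd (w.length + 1) w).1.size := rfl
    have k5 : r.length = (rd (w.length + 1) w).2.length := rfl
    simp only [List.length_reverse, Tr.length_enc, Polynomial.eval_add, Polynomial.eval_mul,
      Polynomial.eval_X, Polynomial.eval_ofNat]
    omega

/-! ### Decoding trees -/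

/-- the list of the components along the right spine -/
def spine : Tr → List Tr
  | .nil => []
  | .cons a b => a :: spine b

theorem e_spine (t : Tr) : e (spine t) = t := by
  induction t with
  | nil => rfl
  | cons a b _ ihb => rw [spine, e_cons, ihb]; rfl

theorem PTf.spine {f : Orc → α → Tr} (hf : PTf 𝒜 f) :
    PTf 𝒜 (fun A x => LibComplexity.spine (f A x)) :=
  hf.ofTr' fun _ _ _ => e_spine _

/-- Types with a total decoding function. -/
class Dec (α : Type) [Enc α] where
  dec : Tr → α
  dec_e : ∀ x : α, dec (e x) = x
  ptf : ∀ 𝒜 : Set Orc, PTf 𝒜 (fun _ t => dec t)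

instance : Dec Tr := ⟨fun t => t, fun _ => rfl, fun _ => PTf.id⟩

instance : Dec Bool := ⟨fun t => t.isCons, fun b => by cases b <;> rfl, fun _ => PTf.isCons⟩

theorem spine_nat (n : ℕ) : (spine (e n)).length = n := by
  induction n with
  | zero => rfl
  | succ n ih => rw [e_succ, spine, List.length_cons, ih]

instance : Dec ℕ := ⟨fun t => (spine t).length, spine_nat, fun _ => PTf.id.spine.length⟩

instance [Dec α] [Dec β] : Dec (α × β) :=
  ⟨fun t => (Dec.dec t.fst, Dec.dec t.snd), fun x => by
    rw [show e x = .cons (e x.1) (e x.2) from rfl]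
    simp only [Tr.fst, Tr.snd, Dec.dec_e], fun 𝒜 => by
    have h1 := (Dec.ptf (α := α) 𝒜).comp (PTf.tfst (𝒜 := 𝒜))
    have h2 := (Dec.ptf (α := β) 𝒜).comp (PTf.tsnd (𝒜 := 𝒜))
    exact h1.pair h2⟩

theorem spine_list (l : List α) : spine (e l) = l.map e := by
  induction l with
  | nil => rfl
  | cons x l ih => rw [e_cons, spine, ih, List.map_cons]

instance [Dec α] : Dec (List α) :=
  ⟨fun t => (spine t).map Dec.dec, fun l => by
    rw [spine_list, List.map_map]
    conv_rhs => rw [← List.map_id l]
    apply List.map_congr_left
    intro x _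
    exact Dec.dec_e x, fun 𝒜 => by
    have h1 := (Dec.ptf (α := α) 𝒜).comp (f := fun _ (p : Tr × Tr) => p.2) PTf.id.snd
    exact PTf.map (g := fun _ _ t => Dec.dec t) PTf.id.spine h1⟩

instance [Dec α] : Dec (Option α) :=
  ⟨fun t => if t.isCons = true then some (Dec.dec t.fst) else none, fun o => by
    cases o with
    | none => rfl
    | some x =>
      rw [e_some]
      simp only [Tr.isCons, if_true, Tr.fst, Dec.dec_e], fun 𝒜 => by
    have h1 := (Dec.ptf (α := α) 𝒜).comp (PTf.tfst (𝒜 := 𝒜))
    exact PTf.ite PTf.isCons h1.some (PTf.const none)⟩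

theorem list_getD_ofFn {n : ℕ} (f : Fin n → β) (i : Fin n) (d : Tr) :
    ((List.ofFn f).map e).getD i d = e (f i) := by
  rw [List.getD_eq_getElem?_getD, List.getElem?_map, List.getElem?_ofFn]
  simp

instance {n : ℕ} [Dec β] : Dec (Fin n → β) :=
  ⟨fun t i => Dec.dec ((spine t).getD i .nil), fun f => by
    funext i
    rw [e_fin, spine_list, list_getD_ofFn, Dec.dec_e], fun 𝒜 => by
    apply PTf.finFun
    intro i
    have h1 := (Dec.ptf (α := β) 𝒜).comp (PTf.listGetD (𝒜 := 𝒜) (PTf.id.spine)
      (PTf.const (i : ℕ)) (PTf.const Tr.nil))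
    exact h1⟩

/-- decoding for finite types -/
@[instance_reducible]
noncomputable def decFinite (Q : Type) [Finite Q] (q0 : Q) : @Dec Q (encFinite Q) := by
  letI := encFinite Q
  classical
  exact
  { dec := fun t => if h : (Dec.dec t : ℕ) < Nat.card Q then
      (Finite.equivFin Q).symm ⟨(Dec.dec t : ℕ), h⟩ else q0
    dec_e := fun q => by
      have h1 : (Dec.dec (e q) : ℕ) = (Finite.equivFin Q q : ℕ) :=
        Dec.dec_e (α := ℕ) _
      have h2 : (Dec.dec (e q) : ℕ) < Nat.card Q := by rw [h1]; exact (Finite.equivFin Q q).2
      rw [dif_pos h2]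
      have h3 : (⟨(Dec.dec (e q) : ℕ), h2⟩ : Fin (Nat.card Q)) = Finite.equivFin Q q := Fin.ext h1
      rw [h3, Equiv.symm_apply_apply]
    ptf := fun 𝒜 => by
      have hn : PTf 𝒜 (fun _ t => (Dec.dec t : ℕ)) := Dec.ptf (α := ℕ) 𝒜
      let F : ℕ → Q := fun n => if h : n < Nat.card Q then
        (Finite.equivFin Q).symm ⟨n, h⟩ else q0
      obtain ⟨h, hh, hh'⟩ := PTf.listCases (g := fun _ n _ => F n) hn
        (fun n => PTf.const (F n)) q0 (List.range (Nat.card Q))
      have h3 := PTf.ifP (p := fun _ t => (Dec.dec t : ℕ) < Nat.card Q)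
        (hn.decide_lt (PTf.const (Nat.card Q))) hh (PTf.const q0)
      refine h3.congr fun A _ t => ?_
      by_cases hlt : (Dec.dec t : ℕ) < Nat.card Q
      · rw [if_pos hlt, hh' A t (List.mem_range.2 hlt)]
      · rw [if_neg hlt]
        rw [dif_neg hlt] }

noncomputable instance decQ (M : TM) : Dec M.Q :=
  haveI := M.fin
  decFinite M.Q M.start

/-- reading an object from a word -/
def read (α : Type) [Enc α] [Dec α] (w : List Bool) : α := Dec.dec (readTr w)

theorem read_word [Dec α] (x : α) (r : List Bool) : read α (word x ++ r) = x := by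
  unfold read word
  rw [readTr_enc, Dec.dec_e]

theorem PTf.read [Dec β] {f : Orc → α → List Bool} (hf : PTf 𝒜 f) :
    PTf 𝒜 (fun A x => LibComplexity.read β (f A x)) := by
  have h := (Dec.ptf (α := β) 𝒜).comp hf.readTr
  exact h

/-! ### Initial segments -/

theorem PTf.take {l : Orc → α → List β} {n : Orc → α → ℕ} (hl : PTf 𝒜 l) (hn : PTf 𝒜 n) :
    PTf 𝒜 (fun A x => (l A x).take (n A x)) := by
  have h := (hl.reverse.drop (hl.length.sub hn)).reverse
  refine h.congr fun A _ x => ?_
  rw [List.reverse_drop]
  simp only [List.length_reverse, List.reverse_reverse]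
  by_cases hle : n A x ≤ (l A x).length
  · congr 1
    omega
  · rw [List.take_of_length_le (by omega), List.take_of_length_le (by omega)]

end Pool.Agent.LibComplexity
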