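import Pool.Agent.LibComplexity.CookLevin

/-!
Encoding objects as words and decoding.
-/

namespace Pool.Agent.LibComplexity

open Function Enc

variable {𝒜 : Set Orc} {α β γ δ τ : Type} [Enc α] [Enc β] [Enc γ] [Enc δ] [Enc τ]

/-- the word that encodes an object -/
def word (x : α) : List Bool := (e x).enc

theorem word_injective {x y : α} (h : word x = word y) : x = y := Enc.inj (enc_inj h)

theorem word_ne_nil (x : α) : word x ≠ [] := by
  unfold word
  cases e x <;> simp [Tr.enc]

theorem length_word (x : α) : (word x).length = sz x := Tr.length_enc _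

theorem PTf.word {f : Orc → α → β} (hf : PTf 𝒜 f) :
    PTf 𝒜 (fun A x => LibComplexity.word (f A x)) := by
  obtain ⟨Q, hQ⟩ := hf.size_le
  obtain ⟨c, hc, P, hP⟩ := hf
  refine ⟨.seq c tolist, ⟨hc, det_tolist⟩, P + 9 * Q + 3, fun A hA x => ?_⟩
  refine ((hP A hA x).seq (runs_tolist _)).cast rfl ?_
  have := hQ A hA x
  rw [Tr.length_enc]
  simp only [Polynomial.eval_add, Polynomial.eval_mul, Polynomial.eval_ofNat]
  unfold sz at *
  omega

/-- If `g` gives the word that encodes the value of `h`, then `h` is computable in polynomial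
time if `g` is. -/
theorem PTf.ofWord {g : Orc → α → List Bool} {h : Orc → α → β} (hg : PTf 𝒜 g)
    (hgh : ∀ A ∈ 𝒜, ∀ x, LibComplexity.word (h A x) = g A x) : PTf 𝒜 h := by
  obtain ⟨Q, hQ⟩ := hg.size_le
  obtain ⟨c, hc, P, hP⟩ := hg
  refine ⟨.seq c fromlist, ⟨hc, det_fromlist⟩, P + 14 * Q + 4, fun A hA x => ?_⟩
  refine ((hP A hA x).seq (runs_fromlist _)).cast ?_ ?_
  · rw [← hgh A hA x]; rfl
  · have h1 := hQ A hA x
    have h2 := length_le_sz (g A x)
    simp only [Polynomial.eval_add, Polynomial.eval_mul, Polynomial.eval_ofNat]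
    omega

/-- an oracle-free function is computable for every class of oracles -/
theorem PTf.mono {𝒜 ℬ : Set Orc} {f : Orc → α → β} (h : PTf 𝒜 f) (hA : ℬ ⊆ 𝒜) : PTf ℬ f := by
  obtain ⟨c, hc, P, hP⟩ := h
  exact ⟨c, hc, P, fun A hA' x => hP A (hA hA') x⟩

/-- Composition of a function in `FP^A` with functions of the calculus. -/
theorem PTf.applyFP {A : Orc} {f : List Bool → List Bool} (hf : InFP A f) {g : Orc → α → List Bool}
    (hg : PTf {A} g) : PTf {A} (fun B x => f (g B x)) :=
  (ptf_of_inFP hf).comp hg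

end Pool.Agent.LibComplexity
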