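import Mathlib

/-!
Multitape Turing machines, with optional nondeterministic choices and oracle queries, and the
usual complexity classes.
-/

namespace Pool.Agent.LibComplexity

/-- Tape symbols; `none` is the blank. -/
abbrev Sym := Option Bool

/-- Head moves. -/
inductive Dir
  | left | stay | right

/-- The displacement of a head move. -/
def Dir.disp : Dir → ℤ
  | .left => -1
  | .stay => 0
  | .right => 1

/-- What a machine with `n` tapes does in a control state:
* `move f`: an ordinary transition. Depending on the scanned symbols, `f` gives the next state and,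
  for each tape, the symbol written and the head move;
* `ask yes no`: query the oracle, go to the state `yes` or `no` according to the answer;
* `choose q₀ q₁`: a nondeterministic choice of the next state;
* `halt b`: halt, with answer `b`. -/
inductive Act (n : ℕ) (Q : Type) : Type
  | move (f : (Fin n → Sym) → Q × (Fin n → Sym × Dir))
  | ask (yes no : Q)
  | choose (q₀ q₁ : Q)
  | halt (b : Bool)

/-- A Turing machine with finitely many states and `K + 2` two-way infinite tapes. Tape `0` is the
input and output tape, tape `1` is the query tape. -/
structure TM where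
  K : ℕ
  Q : Type
  fin : Finite Q
  start : Q
  act : Q → Act (K + 2) Q

/-- A machine without nondeterministic choices. -/
def TM.Det (M : TM) : Prop := ∀ q q₀ q₁, M.act q ≠ .choose q₀ q₁

/-- Configurations: control state, tape contents, head positions, and the sequence of bits
that resolve the nondeterministic choices still to come. -/
structure Cfg (M : TM) where
  q : M.Q
  tape : Fin (M.K + 2) → ℤ → Sym
  head : Fin (M.K + 2) → ℤ
  ch : ℕ → Bool

/-- `w` is the word written on the tape from the head to the right, up to the first blank. -/
def OnTape (tape : ℤ → Sym) (head : ℤ) (w : List Bool) : Prop :=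
  ∀ j : ℕ, j ≤ w.length → tape (head + j) = w[j]?

open Classical in
/-- One step with oracle `A`; `none` if the machine has halted. -/
noncomputable def TM.step (M : TM) (A : Set (List Bool)) (c : Cfg M) : Option (Cfg M) :=
  match M.act c.q with
  | .move f =>
      let r := f fun i => c.tape i (c.head i)
      some ⟨r.1, fun i => Function.update (c.tape i) (c.head i) (r.2 i).1,
        fun i => c.head i + (r.2 i).2.disp, c.ch⟩
  | .ask yes no =>
      some ⟨if ∃ w ∈ A, OnTape (c.tape 1) (c.head 1) w then yes else no, c.tape, c.head, c.ch⟩
  | .choose q₀ q₁ =>
      some ⟨if c.ch 0 then q₁ else q₀, c.tape, c.head, fun n => c.ch (n + 1)⟩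
  | .halt _ => none

/-- The tape with the word `w` written in the cells `0, 1, ...`. -/
def wordTape (w : List Bool) (z : ℤ) : Sym := if z < 0 then none else w[z.toNat]?

/-- The initial configuration: the input on tape `0`, the other tapes blank, all heads in
position `0`; `β` is the sequence of choice bits. -/
def TM.init (M : TM) (w : List Bool) (β : ℕ → Bool) : Cfg M :=
  ⟨M.start, fun i => if i = 0 then wordTape w else fun _ => none, fun _ => 0, β⟩

/-- The configuration after `n` steps (`none` if the machine has halted before). -/
noncomputable def TM.run (M : TM) (A : Set (List Bool)) (w : List Bool) (β : ℕ → Bool) (n : ℕ) :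
    Option (Cfg M) :=
  (fun o : Option (Cfg M) => o.bind (M.step A))^[n] (some (M.init w β))

/-- On input `w`, with choice bits `β`, the machine halts after at most `t` steps in the
configuration `c`, with answer `b`. -/
def TM.Halts (M : TM) (A : Set (List Bool)) (w : List Bool) (β : ℕ → Bool) (t : ℕ) (c : Cfg M)
    (b : Bool) : Prop :=
  ∃ n ≤ t, M.run A w β n = some c ∧ M.act c.q = .halt b

/-- The machine halts on all inputs `w`, for all oracles in `𝒜` and all choices, after at most
`p(|w|)` steps. -/
def TM.TimeBound (M : TM) (𝒜 : Set (Set (List Bool))) (p : Polynomial ℕ) : Prop :=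
  ∀ A ∈ 𝒜, ∀ w β, ∃ c b, M.Halts A w β (p.eval w.length) c b

/-- The language accepted by a (nondeterministic) machine: some sequence of choices leads to the
answer `true`. -/
def TM.lang (M : TM) (A : Set (List Bool)) : Set (List Bool) :=
  {w | ∃ β t c, M.Halts A w β t c true}

/-- The class `P^A`. -/
def InP (A : Set (List Bool)) (L : Set (List Bool)) : Prop :=
  ∃ (M : TM) (p : Polynomial ℕ), M.Det ∧ M.TimeBound {A} p ∧ M.lang A = L

/-- The class `NP^A`. -/
def InNP (A : Set (List Bool)) (L : Set (List Bool)) : Prop :=
  ∃ (M : TM) (p : Polynomial ℕ), M.TimeBound {A} p ∧ M.lang A = L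

/-- The class `FP^A` of functions computable in polynomial time: when the machine halts, the value
is the word on tape `0`. -/
def InFP (A : Set (List Bool)) (f : List Bool → List Bool) : Prop :=
  ∃ (M : TM) (p : Polynomial ℕ), M.Det ∧ ∀ w β, ∃ c b, M.Halts A w β (p.eval w.length) c b ∧
    OnTape (c.tape 0) (c.head 0) (f w)

/-- The class `PSPACE`: languages decided by a deterministic machine, without oracle, that halts on
every input and whose heads stay at distance at most `p(|w|)` from their initial position. -/
def InPSPACE (L : Set (List Bool)) : Prop :=
  ∃ (M : TM) (p : Polynomial ℕ), M.Det ∧ (∀ w β, ∃ t c b, M.Halts ∅ w β t c b) ∧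
    (∀ w β n c, M.run ∅ w β n = some c → ∀ i, |c.head i| ≤ ((p.eval w.length : ℕ) : ℤ)) ∧
    M.lang ∅ = L

/-- Polynomial-time many-one reducibility. -/
def PolyRed (L L' : Set (List Bool)) : Prop :=
  ∃ f, InFP ∅ f ∧ ∀ w, w ∈ L ↔ f w ∈ L'

end Pool.Agent.LibComplexity
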