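import Pool.Agent.LibComplexity.ToTM

/-!
Running deterministic programs of the structured language: a small Hoare-style calculus with time
bounds, and the basic operations on stacks.
-/

namespace Pool.Agent.LibComplexity

open Function

/-- The deterministic program `c` leads from `σ` to `σ'` in at most `n` steps. -/
def Runs (A : Set (List Bool)) (c : Com) (σ σ' : Regs) (n : ℕ) : Prop :=
  ∀ β, ∃ t ≤ n, Exec A c σ β σ' β t

theorem Runs.mono {A c σ σ' n m} (h : Runs A c σ σ' n) (hnm : n ≤ m) : Runs A c σ σ' m := by
  intro β
  obtain ⟨t, ht, h⟩ := h β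
  exact ⟨t, ht.trans hnm, h⟩

theorem Runs.cast {A c σ σ' σ'' n m} (h : Runs A c σ σ' n) (hσ : σ' = σ'') (hnm : n ≤ m) :
    Runs A c σ σ'' m := by
  subst hσ
  exact h.mono hnm

theorem Runs.skip {A σ} : Runs A .skip σ σ 0 := fun _ => ⟨0, le_rfl, .skip⟩

theorem Runs.push {A k b σ} : Runs A (.push k b) σ (update σ k (b :: σ k)) 1 :=
  fun _ => ⟨1, le_rfl, .push⟩

theorem Runs.seq {A c d σ σ' σ'' n m} (h : Runs A c σ σ' n) (h' : Runs A d σ' σ'' m) :
    Runs A (.seq c d) σ σ'' (n + m) := by
  intro β
  obtain ⟨t, ht, h⟩ := h β
  obtain ⟨t', ht', h'⟩ := h' β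
  exact ⟨t + t', by omega, .seq h h'⟩

theorem Runs.casE {A k ce cf ct σ σ' n} (hk : σ k = []) (h : Runs A ce σ σ' n) :
    Runs A (.cas k ce cf ct) σ σ' (n + 2) := by
  intro β
  obtain ⟨t, ht, h⟩ := h β
  exact ⟨t + 2, by omega, .casE hk h⟩

theorem Runs.casF {A k ce cf ct σ σ' n r} (hk : σ k = false :: r)
    (h : Runs A cf (update σ k r) σ' n) : Runs A (.cas k ce cf ct) σ σ' (n + 2) := by
  intro β
  obtain ⟨t, ht, h⟩ := h β
  exact ⟨t + 2, by omega, .casF hk h⟩

theorem Runs.casT {A k ce cf ct σ σ' n r} (hk : σ k = true :: r)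
    (h : Runs A ct (update σ k r) σ' n) : Runs A (.cas k ce cf ct) σ σ' (n + 2) := by
  intro β
  obtain ⟨t, ht, h⟩ := h β
  exact ⟨t + 2, by omega, .casT hk h⟩

theorem Runs.loopE {A k cf ct σ} (hk : σ k = []) : Runs A (.loop k cf ct) σ σ 1 :=
  fun _ => ⟨1, le_rfl, .loopE hk⟩

theorem Runs.loopF {A k cf ct σ σ' σ'' n m r} (hk : σ k = false :: r)
    (h : Runs A cf (update σ k r) σ' n) (h' : Runs A (.loop k cf ct) σ' σ'' m) :
    Runs A (.loop k cf ct) σ σ'' (n + m + 2) := by
  intro β
  obtain ⟨t, ht, h⟩ := h β
  obtain ⟨t', ht', h'⟩ := h' β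
  exact ⟨t + t' + 2, by omega, .loopF hk h h'⟩

theorem Runs.loopT {A k cf ct σ σ' σ'' n m r} (hk : σ k = true :: r)
    (h : Runs A ct (update σ k r) σ' n) (h' : Runs A (.loop k cf ct) σ' σ'' m) :
    Runs A (.loop k cf ct) σ σ'' (n + m + 2) := by
  intro β
  obtain ⟨t, ht, h⟩ := h β
  obtain ⟨t', ht', h'⟩ := h' β
  exact ⟨t + t' + 2, by omega, .loopT hk h h'⟩

theorem Runs.askY {A c d σ σ' n} (hq : σ 1 ∈ A) (h : Runs A c σ σ' n) :
    Runs A (.ask c d) σ σ' (n + 2) := by
  intro β
  obtain ⟨t, ht, h⟩ := h β
  exact ⟨t + 2, by omega, .askY hq h⟩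

theorem Runs.askN {A c d σ σ' n} (hq : σ 1 ∉ A) (h : Runs A d σ σ' n) :
    Runs A (.ask c d) σ σ' (n + 2) := by
  intro β
  obtain ⟨t, ht, h⟩ := h β
  exact ⟨t + 2, by omega, .askN hq h⟩

/-! ### Register contents given by lists -/

/-- Registers with the given first contents, the others empty. -/
def R (l : List (List Bool)) : Regs := fun k => l.getD k []

theorem inp_eq (w : List Bool) : inp w = R [w] := by
  funext k
  rcases k with _ | k
  · rfl
  · simp [inp, R]

theorem R_update (l : List (List Bool)) (k : ℕ) (v : List Bool) (hk : k < l.length) :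
    update (R l) k v = R (l.set k v) := by
  funext j
  by_cases hj : j = k
  · subst hj
    simp [R, hk]
  · rw [update_of_ne hj]
    simp only [R, List.getD_eq_getElem?_getD]
    rw [List.getElem?_set_ne (Ne.symm hj)]

theorem R_snoc_nil (l : List (List Bool)) : R (l ++ [[]]) = R l := by
  funext j
  simp only [R, List.getD_eq_getElem?_getD]
  rcases lt_trichotomy j l.length with h | h | h
  · rw [List.getElem?_append_left h]
  · subst h
    simp
  · rw [List.getElem?_eq_none (by simp; omega), List.getElem?_eq_none (by omega)]

theorem R_pad1 (a : List Bool) : R [a, []] = R [a] := R_snoc_nil [a]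
theorem R_pad2 (a b : List Bool) : R [a, b, []] = R [a, b] := R_snoc_nil [a, b]
theorem R_pad3 (a b c : List Bool) : R [a, b, c, []] = R [a, b, c] := R_snoc_nil [a, b, c]
theorem R_pad4 (a b c d : List Bool) : R [a, b, c, d, []] = R [a, b, c, d] :=
  R_snoc_nil [a, b, c, d]
theorem R_pad5 (a b c d e : List Bool) : R [a, b, c, d, e, []] = R [a, b, c, d, e] :=
  R_snoc_nil [a, b, c, d, e]

/-! ### Moving -/

/-- move the content of register `a`, reversed, onto register `b` -/
def mv (a b : ℕ) : Com := .loop a (.push b false) (.push b true)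

theorem runs_mv {A : Set (List Bool)} {a b : ℕ} (hab : a ≠ b) : ∀ (w : List Bool) (σ : Regs),
    σ a = w → Runs A (mv a b) σ (update (update σ a []) b (w.reverse ++ σ b))
      (3 * w.length + 1) := by
  intro w
  induction w with
  | nil =>
    intro σ hσ
    have : update (update σ a []) b (([] : List Bool).reverse ++ σ b) = σ := by
      funext k
      by_cases h1 : k = b
      · subst h1; simp
      · by_cases h2 : k = a
        · subst h2; simp [h1, hσ]
        · simp [h1, h2]
    rw [this]
    exact Runs.loopE hσ
  | cons x w ih =>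
    intro σ hσ
    have hb : (update σ a w) b = σ b := update_of_ne hab.symm _ _
    have h1 : Runs A (.push b x) (update σ a w) (update (update σ a w) b (x :: σ b)) 1 := by
      have := Runs.push (A := A) (k := b) (b := x) (σ := update σ a w)
      rwa [hb] at this
    have h2 := ih (update (update σ a w) b (x :: σ b)) (by rw [update_of_ne hab]; simp)
    have e : update (update (update (update σ a w) b (x :: σ b)) a []) b
        (w.reverse ++ (update (update σ a w) b (x :: σ b)) b) =
        update (update σ a []) b ((x :: w).reverse ++ σ b) := by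
      funext k
      by_cases k1 : k = b
      · subst k1; simp
      · by_cases k2 : k = a
        · subst k2; simp [k1]
        · simp [k1, k2]
    rw [e] at h2
    cases x
    · exact (Runs.loopF hσ h1 h2).mono (by simp only [List.length_cons]; omega)
    · exact (Runs.loopT hσ h1 h2).mono (by simp only [List.length_cons]; omega)

theorem det_mv (a b : ℕ) : (mv a b).Det := ⟨trivial, trivial⟩

/-- move the content of register `a`, reversed, onto the registers `b` and `c` -/
def mv2 (a b c : ℕ) : Com :=
  .loop a (.seq (.push b false) (.push c false)) (.seq (.push b true) (.push c true))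

theorem runs_mv2 {A : Set (List Bool)} {a b c : ℕ} (hab : a ≠ b) (hac : a ≠ c) (hbc : b ≠ c) :
    ∀ (w : List Bool) (σ : Regs), σ a = w →
    Runs A (mv2 a b c) σ (update (update (update σ a []) b (w.reverse ++ σ b)) c
      (w.reverse ++ σ c)) (4 * w.length + 1) := by
  intro w
  induction w with
  | nil =>
    intro σ hσ
    have : update (update (update σ a []) b (([] : List Bool).reverse ++ σ b)) c
        (([] : List Bool).reverse ++ σ c) = σ := by
      funext k
      by_cases h3 : k = c
      · subst h3; simp
      · by_cases h1 : k = b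
        · subst h1; simp [h3]
        · by_cases h2 : k = a
          · subst h2; simp [h1, hσ, h3]
          · simp [h1, h2, h3]
    rw [this]
    exact Runs.loopE hσ
  | cons x w ih =>
    intro σ hσ
    let σ1 := update (update (update σ a w) b (x :: σ b)) c (x :: σ c)
    have h1 : Runs A (.seq (.push b x) (.push c x)) (update σ a w) σ1 (1 + 1) := by
      have hb : (update σ a w) b = σ b := update_of_ne hab.symm _ _
      have h1 := Runs.push (A := A) (k := b) (b := x) (σ := update σ a w)
      rw [hb] at h1
      have h2 := Runs.push (A := A) (k := c) (b := x) (σ := update (update σ a w) b (x :: σ b))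
      have hc : (update (update σ a w) b (x :: σ b)) c = σ c := by
        rw [update_of_ne hbc.symm, update_of_ne hac.symm]
      rw [hc] at h2
      exact h1.seq h2
    have h2 := ih σ1 (by simp [σ1, update_of_ne hab, update_of_ne hac])
    have e : update (update (update σ1 a []) b (w.reverse ++ σ1 b)) c (w.reverse ++ σ1 c) =
        update (update (update σ a []) b ((x :: w).reverse ++ σ b)) c
          ((x :: w).reverse ++ σ c) := by
      funext k
      by_cases k3 : k = c
      · subst k3; simp [σ1]
      · by_cases k1 : k = b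
        · subst k1; simp [σ1, k3]
        · by_cases k2 : k = a
          · subst k2; simp [k1, k3]
          · simp [k1, k2, k3, σ1]
    rw [e] at h2
    cases x
    · exact (Runs.loopF hσ h1 h2).mono (by simp only [List.length_cons]; omega)
    · exact (Runs.loopT hσ h1 h2).mono (by simp only [List.length_cons]; omega)

theorem det_mv2 (a b c : ℕ) : (mv2 a b c).Det := ⟨⟨trivial, trivial⟩, ⟨trivial, trivial⟩⟩

/-- clear register `a` -/
def clear (a : ℕ) : Com := .loop a .skip .skip

theorem runs_clear {A : Set (List Bool)} {a : ℕ} : ∀ (w : List Bool) (σ : Regs),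
    σ a = w → Runs A (clear a) σ (update σ a []) (2 * w.length + 1) := by
  intro w
  induction w with
  | nil =>
    intro σ hσ
    have : update σ a [] = σ := by
      funext k
      by_cases h2 : k = a
      · subst h2; simp [hσ]
      · simp [h2]
    rw [this]
    exact Runs.loopE hσ
  | cons x w ih =>
    intro σ hσ
    have h2 := ih (update σ a w) (by simp)
    rw [update_idem] at h2
    cases x
    · exact (Runs.loopF hσ Runs.skip h2).mono (by simp only [List.length_cons]; omega)
    · exact (Runs.loopT hσ Runs.skip h2).mono (by simp only [List.length_cons]; omega)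

theorem det_clear (a : ℕ) : (clear a).Det := ⟨trivial, trivial⟩

/-- push the word `w` on register `a` -/
def pushw (a : ℕ) : List Bool → Com
  | [] => .skip
  | b :: w => .seq (pushw a w) (.push a b)

theorem runs_pushw {A : Set (List Bool)} {a : ℕ} (w : List Bool) (σ : Regs) :
    Runs A (pushw a w) σ (update σ a (w ++ σ a)) w.length := by
  induction w with
  | nil =>
    simp only [pushw, List.nil_append, update_eq_self]
    exact Runs.skip
  | cons x w ih =>
    have h1 := Runs.push (A := A) (k := a) (b := x) (σ := update σ a (w ++ σ a))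
    rw [update_self, update_idem] at h1
    exact ih.seq h1

theorem det_pushw (a : ℕ) (w : List Bool) : (pushw a w).Det := by
  induction w with
  | nil => trivial
  | cons x w ih => exact ⟨ih, trivial⟩

/-! ### Calling a program on another register -/

/-- the renaming of registers: `0` goes to `a`, the local registers are shifted by `d` -/
def ren (a d : ℕ) (k : ℕ) : ℕ := if k = 0 then a else if k = 1 then 1 else k + d

theorem ren_injective {a d : ℕ} (ha : a ≠ 1) (ha' : a < d + 2) : Injective (ren a d) := by
  intro i j h
  unfold ren at h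
  split_ifs at h <;> omega

/-- run `c` with input and output in register `a`, with local registers `≥ d + 2` -/
def call (c : Com) (a d : ℕ) : Com := c.rename (ren a d)

theorem det_call {c : Com} (h : c.Det) (a d : ℕ) : (call c a d).Det := h.rename _

theorem extend_inp {a d : ℕ} (ha : a ≠ 1) (ha' : a < d + 2) (v : List Bool) {σ : Regs}
    (h1 : σ 1 = []) (h2 : ∀ k, d + 2 ≤ k → σ k = []) :
    extend (ren a d) (inp v) σ = update σ a v := by
  have hi := ren_injective ha ha'
  funext j
  by_cases hj : ∃ k, ren a d k = j
  · obtain ⟨k, rfl⟩ := hj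
    rw [hi.extend_apply]
    by_cases h0 : k = 0
    · subst h0
      simp [inp, ren]
    · by_cases h1' : k = 1
      · subst h1'
        have : ren a d 1 = 1 := rfl
        rw [this, update_of_ne ha.symm, h1]
        rfl
      · have : ren a d k = k + d := by unfold ren; rw [if_neg h0, if_neg h1']
        rw [this, update_of_ne (by omega), h2 _ (by omega)]
        unfold inp
        rw [if_neg h0]
  · rw [extend_apply' _ _ _ hj, update_of_ne]
    rintro rfl
    exact hj ⟨0, rfl⟩

theorem runs_call {A c u v n} (h : Runs A c (inp u) (inp v) n) {a d : ℕ} (ha : a ≠ 1)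
    (ha' : a < d + 2) {σ : Regs} (h0 : σ a = u) (h1 : σ 1 = [])
    (h2 : ∀ k, d + 2 ≤ k → σ k = []) : Runs A (call c a d) σ (update σ a v) n := by
  intro β
  obtain ⟨t, ht, h⟩ := h β
  refine ⟨t, ht, ?_⟩
  have := h.rename (ren_injective ha ha') rfl σ
  rw [extend_inp ha ha' u h1 h2, extend_inp ha ha' v h1 h2] at this
  rw [← h0, update_eq_self] at this
  exact this

/-- the same for registers given by a list -/
theorem runs_callR {A c u v n} (h : Runs A c (R [u]) (R [v]) n) {a d : ℕ} (ha : a ≠ 1)
    {l : List (List Bool)} (hl : l.length ≤ d + 2) (h0 : l[a]? = some u) (h1 : l.getD 1 [] = []) :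
    Runs A (call c a d) (R l) (R (l.set a v)) n := by
  have hal : a < l.length := by
    by_contra hc
    rw [List.getElem?_eq_none (by omega)] at h0
    cases h0
  rw [← R_update l a v hal]
  rw [← inp_eq, ← inp_eq] at h
  refine runs_call h ha (by omega) ?_ h1 ?_
  · simp only [R, List.getD_eq_getElem?_getD, h0, Option.getD_some]
  · intro k hk
    simp only [R, List.getD_eq_getElem?_getD]
    rw [List.getElem?_eq_none (by omega)]
    rfl

end Pool.Agent.LibComplexity
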