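import Pool.Agent.LibComplexity.Decode

/-!
Languages in `PSPACE`: acceptance as reachability for a polynomial-time computable function on
words of polynomial length.
-/

namespace Pool.Agent.LibComplexity

open Function Enc

variable {𝒜 : Set Orc} {α β γ δ τ : Type} [Enc α] [Enc β] [Enc γ] [Enc δ] [Enc τ]

/-! ### Removing queries to the empty oracle -/

/-- the program in which every query is answered `no` -/
def noAsk : Com → Com
  | .skip => .skip
  | .push k b => .push k b
  | .seq c d => .seq (noAsk c) (noAsk d)
  | .cas k ce cf ct => .cas k (noAsk ce) (noAsk cf) (noAsk ct)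
  | .loop k cf ct => .loop k (noAsk cf) (noAsk ct)
  | .choose c d => .choose (noAsk c) (noAsk d)
  | .ask _ d => noAsk d

theorem det_noAsk {c : Com} (h : c.Det) : (noAsk c).Det := by
  induction c with
  | skip => trivial
  | push _ _ => trivial
  | seq c d ihc ihd => exact ⟨ihc h.1, ihd h.2⟩
  | cas k ce cf ct ihe ihf iht => exact ⟨ihe h.1, ihf h.2.1, iht h.2.2⟩
  | loop k cf ct ihf iht => exact ⟨ihf h.1, iht h.2⟩
  | choose c d _ _ => exact absurd h (by simp [Com.Det])
  | ask c d _ ihd => exact ihd h.2

theorem exec_noAsk {c : Com} {σ β σ' β' t} (h : Exec ∅ c σ β σ' β' t) (A : Orc) :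
    ∃ t' ≤ t, Exec A (noAsk c) σ β σ' β' t' := by
  induction h with
  | skip => exact ⟨0, le_rfl, .skip⟩
  | push => exact ⟨1, le_rfl, .push⟩
  | seq _ _ ih1 ih2 =>
    obtain ⟨t1, h1, k1⟩ := ih1
    obtain ⟨t2, h2, k2⟩ := ih2
    exact ⟨t1 + t2, by omega, .seq k1 k2⟩
  | casE hk _ ih =>
    obtain ⟨t1, h1, k1⟩ := ih
    exact ⟨t1 + 2, by omega, .casE hk k1⟩
  | casF hk _ ih =>
    obtain ⟨t1, h1, k1⟩ := ih
    exact ⟨t1 + 2, by omega, .casF hk k1⟩
  | casT hk _ ih =>
    obtain ⟨t1, h1, k1⟩ := ih
    exact ⟨t1 + 2, by omega, .casT hk k1⟩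
  | loopE hk => exact ⟨1, le_rfl, .loopE hk⟩
  | loopF hk _ _ ih1 ih2 =>
    obtain ⟨t1, h1, k1⟩ := ih1
    obtain ⟨t2, h2, k2⟩ := ih2
    exact ⟨t1 + t2 + 2, by omega, .loopF hk k1 k2⟩
  | loopT hk _ _ ih1 ih2 =>
    obtain ⟨t1, h1, k1⟩ := ih1
    obtain ⟨t2, h2, k2⟩ := ih2
    exact ⟨t1 + t2 + 2, by omega, .loopT hk k1 k2⟩
  | chooseF hb _ ih =>
    obtain ⟨t1, h1, k1⟩ := ih
    exact ⟨t1 + 2, by omega, .chooseF hb k1⟩
  | chooseT hb _ ih =>
    obtain ⟨t1, h1, k1⟩ := ih
    exact ⟨t1 + 2, by omega, .chooseT hb k1⟩
  | askY hq _ _ => exact absurd hq (Set.notMem_empty _)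
  | askN hq _ ih =>
    obtain ⟨t1, h1, k1⟩ := ih
    exact ⟨t1, by omega, k1⟩

/-- A function computed without oracle is computed for every class of oracles. -/
theorem PTf.of_empty {f : α → β} (h : PTf {∅} (fun _ x => f x)) : PTf 𝒜 (fun _ x => f x) := by
  obtain ⟨c, hc, P, hP⟩ := h
  refine ⟨noAsk c, det_noAsk hc, P, fun A _ x γ => ?_⟩
  obtain ⟨t, ht, k⟩ := hP ∅ rfl x γ
  obtain ⟨t', ht', k'⟩ := exec_noAsk k A
  exact ⟨t', ht'.trans ht, k'⟩

/-! ### Space -/

theorem length_tapeAct (t : TC) (s : Sym) (d : Dir) (h P B : ℤ) (hP : |h + d.disp| ≤ P)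
    (hh : |h| ≤ P) (hB : P + 1 ≤ B) (h1 : (t.1.length : ℤ) ≤ h + P) (h2 : h + t.2.length ≤ B) :
    ((tapeAct t s d).1.length : ℤ) ≤ h + d.disp + P ∧
      h + d.disp + (tapeAct t s d).2.length ≤ B := by
  obtain ⟨l, r⟩ := t
  rw [abs_le] at hP hh
  simp only at h1 h2
  cases d with
  | stay =>
    simp only [tapeAct, Dir.disp, List.length_cons, List.length_tail, Nat.cast_add,
      Nat.cast_one, add_zero] at *
    refine ⟨h1, ?_⟩
    cases r with
    | nil => simp only [List.length_nil, Nat.zero_sub, Nat.cast_zero]; omega
    | cons a r => simp only [List.length_cons, Nat.add_sub_cancel, Nat.cast_add] at *; omega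
  | right =>
    simp only [tapeAct, Dir.disp, List.length_cons, List.length_tail, Nat.cast_add,
      Nat.cast_one] at *
    refine ⟨by omega, ?_⟩
    cases r with
    | nil => simp only [List.length_nil, Nat.zero_sub, Nat.cast_zero]; omega
    | cons a r => simp only [List.length_cons, Nat.add_sub_cancel, Nat.cast_add] at *; omega
  | left =>
    simp only [tapeAct, Dir.disp, List.length_cons, List.length_tail, Nat.cast_add,
      Nat.cast_one] at *
    constructor
    · cases l with
      | nil => simp only [List.length_nil, Nat.zero_sub, Nat.cast_zero]; omega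
      | cons a l => simp only [List.length_cons, Nat.add_sub_cancel, Nat.cast_add] at *; omega
    · cases r with
      | nil => simp only [List.length_nil, Nat.zero_sub, Nat.cast_zero]; omega
      | cons a r => simp only [List.length_cons, Nat.add_sub_cancel, Nat.cast_add] at *; omega

/-- the tapes of the code are short if the heads stay near the origin -/
theorem space_inv {M : TM} {w : List Bool} {P : ℕ}
    (hP : ∀ n c, M.run ∅ w (fun k => ([] : List Bool).getD k false) n = some c →
      ∀ i, |c.head i| ≤ (P : ℤ)) :
    ∀ (n : ℕ) (c : Cfg M), M.run ∅ w (fun k => ([] : List Bool).getD k false) n = some c →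
      ∀ i, ((((stepC M ∅)^[n] (initC M w [])).2.1 i).1.length : ℤ) ≤ c.head i + P ∧
        c.head i + (((stepC M ∅)^[n] (initC M w [])).2.1 i).2.length ≤ w.length + P + 1 := by
  intro n
  induction n with
  | zero =>
    intro c hc i
    simp only [TM.run, iterate_zero, id, Option.some.injEq] at hc
    subst hc
    simp only [iterate_zero, id, initC, TM.init]
    split_ifs
    · simp
      omega
    · simp
      omega
  | succ n ih =>
    intro c hc i
    have hbound := hP (n + 1) c hc i
    unfold TM.run at hc
    rw [iterate_succ_apply'] at hc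
    cases hn : M.run ∅ w (fun k => ([] : List Bool).getD k false) n with
    | none =>
      unfold TM.run at hn
      rw [hn] at hc
      cases hc
    | some c₁ =>
      have hrep := repC_run hn
      have hb1 := hP n c₁ hn i
      obtain ⟨h1, h2⟩ := ih c₁ hn i
      unfold TM.run at hn
      rw [hn] at hc
      rw [iterate_succ_apply']
      set s := (stepC M ∅)^[n] (initC M w []) with hs
      simp only [Option.bind_some] at hc
      have hq := hrep.q
      have hhead : (fun i => c₁.tape i (c₁.head i)) = fun i => (s.2.1 i).2.headD none := by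
        funext i
        have := (hrep.tape i).1 0
        rw [headD_eq, ← this]
        simp
      unfold TM.step at hc
      unfold stepC
      rw [hq] at hc
      cases hact : M.act s.1 with
      | move f =>
        rw [hact] at hc
        simp only [Option.some.injEq] at hc
        subst hc
        rw [hhead] at hbound ⊢
        exact length_tapeAct _ _ _ _ _ _ hbound hb1 (by omega) h1 h2
      | ask yes no =>
        rw [hact] at hc
        simp only [Option.some.injEq] at hc
        subst hc
        exact ⟨h1, h2⟩
      | choose q₀ q₁ =>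
        rw [hact] at hc
        simp only [Option.some.injEq] at hc
        subst hc
        exact ⟨h1, h2⟩
      | halt b =>
        rw [hact] at hc
        cases hc

theorem stepC_choices_nil {M : TM} (s : CC M) (h : s.2.2 = []) : (stepC M ∅ s).2.2 = [] := by
  unfold stepC
  cases M.act s.1 with
  | move f => exact h
  | ask yes no => exact h
  | choose q₀ q₁ => simp only [h, List.tail_nil]
  | halt b => exact h

theorem stepC_choices {M : TM} (n : ℕ) (w : List Bool) :
    ((stepC M ∅)^[n] (initC M w [])).2.2 = [] := by
  induction n with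
  | zero => rfl
  | succ n ih =>
    rw [iterate_succ_apply']
    exact stepC_choices_nil _ ih

/-- the run of a deterministic machine does not depend on the choice bits -/
theorem det_run {M : TM} (hdet : M.Det) {A : Orc} {w : List Bool} (β β' : ℕ → Bool) (n : ℕ) :
    ∀ c : Cfg M, M.run A w β n = some c →
      ∃ c', M.run A w β' n = some c' ∧ c'.q = c.q ∧ c'.tape = c.tape ∧ c'.head = c.head := by
  induction n with
  | zero =>
    intro c hc
    simp only [TM.run, iterate_zero, id, Option.some.injEq] at hc ⊢
    subst hc
    exact ⟨_, rfl, rfl, rfl, rfl⟩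
  | succ n ih =>
    intro c hc
    unfold TM.run at hc ⊢
    rw [iterate_succ_apply'] at hc ⊢
    cases hn : M.run A w β n with
    | none =>
      unfold TM.run at hn
      rw [hn] at hc
      cases hc
    | some c₁ =>
      obtain ⟨c₂, h1, h2, h3, h4⟩ := ih c₁ hn
      unfold TM.run at hn h1
      rw [hn] at hc
      rw [h1]
      simp only [Option.bind_some] at hc ⊢
      unfold TM.step at hc ⊢
      rw [h2, h3, h4]
      cases hact : M.act c₁.q with
      | move f =>
        rw [hact] at hc
        simp only [Option.some.injEq] at hc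
        subst hc
        exact ⟨_, rfl, rfl, rfl, rfl⟩
      | ask yes no =>
        rw [hact] at hc
        simp only [Option.some.injEq] at hc
        subst hc
        exact ⟨_, rfl, rfl, rfl, rfl⟩
      | choose q₀ q₁ => exact absurd hact (hdet _ _ _)
      | halt b =>
        rw [hact] at hc
        cases hc

theorem det_answer {M : TM} (hdet : M.Det) {A : Orc} {w : List Bool} {β β' : ℕ → Bool}
    {n n' : ℕ} {c c' : Cfg M} {b b' : Bool} (h1 : M.run A w β n = some c)
    (h2 : M.act c.q = .halt b) (h1' : M.run A w β' n' = some c') (h2' : M.act c'.q = .halt b') :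
    b = b' := by
  obtain ⟨c₂, h3, h4, -, -⟩ := det_run hdet β β' n c h1
  have h5 : M.Halts A w β' n c₂ b := ⟨n, le_rfl, h3, by rw [h4]; exact h2⟩
  have h6 : M.Halts A w β' n' c' b' := ⟨n', le_rfl, h1', h2'⟩
  exact (Halts.unique h5 h6).1

/-- pad or cut a word to the given length -/
def padTo (n : ℕ) (w : List Bool) : List Bool := (w ++ List.replicate n false).take n

theorem length_padTo (n : ℕ) (w : List Bool) : (padTo n w).length = n := by
  unfold padTo
  rw [List.length_take, List.length_append, List.length_replicate]
  omega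

theorem read_padTo [Dec α] (n : ℕ) (x : α) (h : sz x ≤ n) : read α (padTo n (word x)) = x := by
  unfold padTo
  rw [List.take_append, List.take_of_length_le (by rw [length_word]; exact h)]
  exact read_word x _

theorem PTf.padTo {n : Orc → α → ℕ} {w : Orc → α → List Bool} (hn : PTf 𝒜 n) (hw : PTf 𝒜 w) :
    PTf 𝒜 (fun A x => LibComplexity.padTo (n A x) (w A x)) :=
  (hw.append (hn.replicate (PTf.const false))).take hn

/-- Every language in `PSPACE` is the set of the words `x` such that iteration of a
polynomial-time computable function on words of length `ℓ(|x|)`, starting from a word computed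
from `x`, leads to a word that is accepted by a polynomial-time test. -/
theorem pspace_orbit {L : Set (List Bool)} (hL : InPSPACE L) :
    ∃ (ℓ : Polynomial ℕ) (c0 : List Bool → List Bool) (nx : List Bool → List Bool → List Bool)
      (acc : List Bool → Bool),
      (∀ 𝒜 : Set Orc, PTf 𝒜 (fun _ x => c0 x)) ∧
      (∀ 𝒜 : Set Orc, PTf 𝒜 (fun _ (p : List Bool × List Bool) => nx p.1 p.2)) ∧
      (∀ 𝒜 : Set Orc, PTf 𝒜 (fun _ c => acc c)) ∧
      (∀ x, (c0 x).length = ℓ.eval x.length) ∧ (∀ x c, (nx x c).length = ℓ.eval x.length) ∧
      ∀ x, x ∈ L ↔ ∃ n, acc ((nx x)^[n] (c0 x)) = true := by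
  obtain ⟨M, p, hdet, hhalt, hspace, hML⟩ := hL
  have := M.fin
  obtain ⟨C, hC⟩ := exists_sz_bound M.Q
  let ℓ : Polynomial ℕ := Polynomial.C (C + 10) + Polynomial.C (M.K + 2) *
    (24 * p + 6 * Polynomial.X + 20)
  -- the size of the codes
  have hsz : ∀ w n c, M.run ∅ w (fun k => ([] : List Bool).getD k false) n = some c →
      sz ((stepC M ∅)^[n] (initC M w [])) ≤ ℓ.eval w.length := by
    intro w n c hc
    have hinv := space_inv (fun n c hc => hspace w _ n c hc) n c hc
    have hb := hspace w _ n c hc
    set s := (stepC M ∅)^[n] (initC M w []) with hs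
    have h1 : sz s = sz s.1 + (sz s.2.1 + sz s.2.2 + 1) + 1 := rfl
    have h2 : s.2.2 = [] := stepC_choices n w
    have h3 : sz s.2.1 ≤ (M.K + 2) * (24 * p.eval w.length + 6 * w.length + 20) + 1 := by
      rw [sz_fin]
      have : (M.K + 2) * (24 * p.eval w.length + 6 * w.length + 20) =
          ∑ _i : Fin (M.K + 2), (24 * p.eval w.length + 6 * w.length + 20) := by simp
      rw [this]
      apply Nat.add_le_add_right
      refine Finset.sum_le_sum fun i _ => ?_
      obtain ⟨h4, h5⟩ := hinv i
      have h6 := hb i
      rw [abs_le] at h6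
      have h7 : sz (s.2.1 i) = sz (s.2.1 i).1 + sz (s.2.1 i).2 + 1 := rfl
      have h8 := sz_list_le (l := (s.2.1 i).1) (B := 5) (fun y _ => sz_sym y)
      have h9 := sz_list_le (l := (s.2.1 i).2) (B := 5) (fun y _ => sz_sym y)
      have h10 : (s.2.1 i).1.length ≤ 2 * p.eval w.length := by omega
      have h11 : (s.2.1 i).2.length ≤ w.length + 2 * p.eval w.length + 1 := by omega
      omega
    rw [h1, h2]
    have h4 : sz ([] : List Bool) = 1 := rfl
    rw [h4]
    have h5 := hC s.1
    simp only [ℓ, Polynomial.eval_add, Polynomial.eval_mul, Polynomial.eval_X,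
      Polynomial.eval_ofNat, Polynomial.eval_C]
    omega
  have hall : ∀ w n, sz ((stepC M ∅)^[n] (initC M w [])) ≤ ℓ.eval w.length ∧
      (answer M ((stepC M ∅)^[n] (initC M w [])).1 = true → w ∈ L) := by
    intro w n
    obtain ⟨t, c, b, m, hm, hrun, hact⟩ := hhalt w (fun k => ([] : List Bool).getD k false)
    have hprev : ∀ j ≤ m, ∃ c', M.run ∅ w (fun k => ([] : List Bool).getD k false) j = some c' := by
      intro j hj
      by_contra hcon
      push Not at hcon
      have hnone : M.run ∅ w (fun k => ([] : List Bool).getD k false) j = none := by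
        cases h : M.run ∅ w (fun k => ([] : List Bool).getD k false) j with
        | none => rfl
        | some c' => exact absurd h (hcon c')
      have : ∀ k, M.run ∅ w (fun k => ([] : List Bool).getD k false) (j + k) = none := by
        intro k
        induction k with
        | zero => exact hnone
        | succ k ih =>
          unfold TM.run at ih ⊢
          rw [← Nat.add_assoc, iterate_succ_apply', ih]
          rfl
      obtain ⟨k, rfl⟩ := Nat.exists_eq_add_of_le hj
      rw [this k] at hrun
      cases hrun
    have hrep := repC_run hrun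
    have hstat : ∀ k, (stepC M ∅)^[m + k] (initC M w []) = (stepC M ∅)^[m] (initC M w []) := by
      intro k
      induction k with
      | zero => rfl
      | succ k ih =>
        rw [← Nat.add_assoc, iterate_succ_apply', ih]
        exact stepC_halt (b := b) (by rw [← hrep.q]; exact hact)
    have hb : answer M ((stepC M ∅)^[m] (initC M w [])).1 = true → w ∈ L := by
      intro h
      rw [← hrep.q] at h
      unfold answer at h
      rw [hact] at h
      simp only at h
      subst h
      rw [← hML]
      exact ⟨_, m, c, m, le_rfl, hrun, hact⟩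
    by_cases hnm : n < m
    · obtain ⟨c', hc'⟩ := hprev n (by omega)
      refine ⟨hsz w n c' hc', fun h => ?_⟩
      exfalso
      have hrep' := repC_run hc'
      rw [← hrep'.q] at h
      unfold answer at h
      cases hact' : M.act c'.q with
      | halt b' =>
        obtain ⟨c'', hc''⟩ := hprev (n + 1) (by omega)
        unfold TM.run at hc' hc''
        rw [iterate_succ_apply', hc'] at hc''
        simp only [Option.bind_some] at hc''
        unfold TM.step at hc''
        rw [hact'] at hc''
        cases hc''
      | move f => rw [hact'] at h; cases h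
      | ask _ _ => rw [hact'] at h; cases h
      | choose _ _ => rw [hact'] at h; cases h
    · obtain ⟨k, rfl⟩ := Nat.exists_eq_add_of_le (not_lt.1 hnm)
      rw [hstat]
      exact ⟨hsz w m c hrun, hb⟩
  let c0 : List Bool → List Bool := fun x => padTo (ℓ.eval x.length) (word (initC M x []))
  let nx : List Bool → List Bool → List Bool := fun x c =>
    padTo (ℓ.eval x.length) (word (stepC M ∅ (read (CC M) c)))
  let acc : List Bool → Bool := fun c => answer M (read (CC M) c).1
  have horb : ∀ x n, (nx x)^[n] (c0 x) =
      padTo (ℓ.eval x.length) (word ((stepC M ∅)^[n] (initC M x []))) := by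
    intro x n
    induction n with
    | zero => rfl
    | succ n ih =>
      rw [iterate_succ_apply', ih, iterate_succ_apply']
      simp only [nx]
      rw [read_padTo _ _ (hall x n).1]
  refine ⟨ℓ, c0, nx, acc, fun 𝒜 => ?_, fun 𝒜 => ?_, fun 𝒜 => ?_, fun x => length_padTo _ _,
    fun x c => length_padTo _ _, fun x => ?_⟩
  · exact PTf.padTo (PTf.id.length.poly ℓ) (PTf.initC M PTf.id (PTf.const [])).word
  · have h1 : PTf 𝒜 (fun _ s => stepC M ∅ s) :=
      PTf.of_empty ((PTf.stepC (𝒜 := {∅}) M).congr fun A hA s => by
        obtain rfl : A = ∅ := hA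
        rfl)
    have h2 : PTf 𝒜 (fun _ (p : List Bool × List Bool) => read (CC M) p.2) :=
      PTf.read PTf.id.snd
    have h3 := h1.comp h2
    exact PTf.padTo (PTf.id.fst.length.poly ℓ) h3.word
  · exact PTf.answer M (PTf.read PTf.id).fst
  · constructor
    · intro hx
      obtain ⟨t, c, b, m, hm, hrun, hact⟩ := hhalt x (fun k => ([] : List Bool).getD k false)
      refine ⟨m, ?_⟩
      rw [horb]
      simp only [acc]
      rw [read_padTo _ _ (hall x m).1, ← (repC_run hrun).q]
      unfold answer
      rw [hact]
      -- the answer is `true`, because the machine is deterministic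
      rw [← hML] at hx
      obtain ⟨β', t', c', n', hn', hrun', hact'⟩ := hx
      have := det_answer hdet hrun' hact' hrun hact
      exact this.symm
    · rintro ⟨n, hn⟩
      rw [horb] at hn
      simp only [acc] at hn
      rw [read_padTo _ _ (hall x n).1] at hn
      exact (hall x n).2 hn

end Pool.Agent.LibComplexity
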