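import Pool.Agent.LibComplexity.Sim

/-!
The Cook–Levin theorem: a language in `NP` is reduced to satisfiability of propositional formulas
in conjunctive normal form.
-/

namespace Pool.Agent.LibComplexity

open Function Enc

/-- A formula in conjunctive normal form: a list of clauses, each a list of literals; the literal
`(v, b)` says that the variable `v` has the value `b`. -/
abbrev CNF (V : Type) : Type := List (List (V × Bool))

/-- the clause is true under the assignment -/
def Holds {V : Type} (a : V → Bool) (c : List (V × Bool)) : Prop := ∃ l ∈ c, a l.1 = l.2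

/-- the formula is satisfiable -/
def Sat {V : Type} (φ : CNF V) : Prop := ∃ a : V → Bool, ∀ c ∈ φ, Holds a c

/-- propositional variables of the tableau -/
abbrev Vr : Type := ℕ × ℕ × ℕ × ℕ × Bool

/-- at time `t` the program counter is `l` -/
def pcV (t l : ℕ) : Vr := (0, t, l, 0, false)
/-- at time `t` register `k` has height `h` -/
def htV (t k h : ℕ) : Vr := (1, t, k, h, false)
/-- at time `t` cell `z` (counted from the bottom) of register `k` contains `b` -/
def cellV (t k z : ℕ) (b : Bool) : Vr := (2, t, k, z, b)

/-- the clause expressing an implication -/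
def imp (prem : List Vr) (concl : Vr) : List (Vr × Bool) :=
  (concl, true) :: prem.map fun v => (v, false)

theorem holds_imp {a : Vr → Bool} {prem : List Vr} {concl : Vr} :
    Holds a (imp prem concl) ↔ ((∀ v ∈ prem, a v = true) → a concl = true) := by
  unfold Holds imp
  constructor
  · rintro ⟨l, hl, hal⟩ h
    rcases List.mem_cons.1 hl with rfl | hl
    · exact hal
    · obtain ⟨v, hv, rfl⟩ := List.mem_map.1 hl
      rw [h v hv] at hal
      cases hal
  · intro h
    by_cases hp : ∀ v ∈ prem, a v = true
    · exact ⟨_, List.mem_cons_self, h hp⟩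
    · push Not at hp
      obtain ⟨v, hv, hav⟩ := hp
      exact ⟨(v, false), List.mem_cons_of_mem _ (List.mem_map.2 ⟨v, hv, rfl⟩), by simpa using hav⟩

/-! ### Deterministic steps -/

/-- A state: program counter and registers. -/
abbrev St : Type := ℕ × Regs

/-- One step of the code, with the empty oracle; it stays where it is when it halts. -/
def nxt (P : List Instr) (s : St) : St :=
  match P[s.1]? with
  | none => s
  | some (.push k b) => (s.1 + 1, update s.2 k (b :: s.2 k))
  | some (.pop k le lf lt) =>
    match s.2 k with
    | [] => (le, s.2)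
    | false :: r => (lf, update s.2 k r)
    | true :: r => (lt, update s.2 k r)
  | some (.jmp l) => (l, s.2)
  | some (.choose l₀ _) => (l₀, s.2)
  | some (.ask _ ln) => (ln, s.2)
  | some (.halt _) => s

theorem nxt_of_gstep {P : List Instr} (hP : ∀ i ∈ P, ∀ l₀ l₁, i ≠ .choose l₀ l₁) {s s' : GS}
    (h : gstep ∅ P s = some s') : nxt P (s.pc, s.σ) = (s'.pc, s'.σ) := by
  unfold gstep at h
  unfold nxt
  cases hi : P[s.pc]? with
  | none => rw [hi] at h; cases h
  | some i =>
    simp only [hi] at h ⊢
    cases i with
    | push k b => simp only [Option.some.injEq] at h; subst h; rfl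
    | pop k le lf lt =>
      simp only at h ⊢
      cases hσ : s.σ k with
      | nil => simp only [hσ, Option.some.injEq] at h ⊢; subst h; rfl
      | cons b r =>
        cases b
        · simp only [hσ, Option.some.injEq] at h ⊢; subst h; rfl
        · simp only [hσ, Option.some.injEq] at h ⊢; subst h; rfl
    | jmp l => simp only [Option.some.injEq] at h; subst h; rfl
    | choose l₀ l₁ => exact absurd rfl (hP _ (List.mem_of_getElem? hi) l₀ l₁)
    | ask ly ln =>
      simp only [Option.some.injEq, Set.mem_empty_iff_false, if_false] at h
      subst h; rfl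
    | halt b => cases h

theorem nxt_run {P : List Instr} (hP : ∀ i ∈ P, ∀ l₀ l₁, i ≠ .choose l₀ l₁) {n : ℕ} {s s' : GS}
    (h : GRun ∅ P n s s') :
    (nxt P)^[n] (s.pc, s.σ) = (s'.pc, s'.σ) ∧
      ∀ m < n, ((nxt P)^[m] (s.pc, s.σ)).1 < P.length := by
  induction h with
  | refl => exact ⟨rfl, fun m hm => absurd hm (by omega)⟩
  | @step n s s' s'' h1 h2 ih =>
    have e := nxt_of_gstep hP h1
    refine ⟨?_, fun m hm => ?_⟩
    · rw [iterate_succ_apply, e]
      exact ih.1
    · cases m with
      | zero =>
        show s.pc < P.length
        unfold gstep at h1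
        cases hi : P[s.pc]? with
        | none => rw [hi] at h1; cases h1
        | some i => exact pc_lt hi
      | succ m =>
        rw [iterate_succ_apply, e]
        exact ih.2 m (by omega)

theorem nxt_halt {P : List Instr} {s : St} {b : Bool} (h : P[s.1]? = some (.halt b)) :
    nxt P s = s := by
  unfold nxt
  rw [h]

theorem nxt_length (P : List Instr) (s : St) (k : ℕ) :
    ((nxt P s).2 k).length ≤ (s.2 k).length + 1 := by
  have hu : ∀ (σ : Regs) (k' : ℕ) (v : List Bool), v.length ≤ (σ k').length + 1 →
      (update σ k' v k).length ≤ (σ k).length + 1 := by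
    intro σ k' v hv
    by_cases hk : k = k'
    · subst hk; simpa using hv
    · rw [update_of_ne hk]; omega
  unfold nxt
  cases hi : P[s.1]? with
  | none => simp
  | some i =>
    cases i with
    | push k' b => exact hu _ _ _ (by simp)
    | pop k' le lf lt =>
      simp only
      cases hσ : s.2 k' with
      | nil => simp
      | cons b r =>
        cases b
        · exact hu _ _ _ (by rw [hσ, List.length_cons]; omega)
        · exact hu _ _ _ (by rw [hσ, List.length_cons]; omega)
    | jmp l => simp
    | choose l₀ l₁ => simp
    | ask ly ln => simp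
    | halt b => simp

/-! ### The clauses -/

/-- register `k` is copied if the program counter is `l` -/
def keep (l t H k : ℕ) : CNF Vr :=
  (List.range (H + 1)).map (fun h => imp [pcV t l, htV t k h] (htV (t + 1) k h)) ++
  (List.range (H + 1)).map (fun z => imp [pcV t l, cellV t k z true] (cellV (t + 1) k z true)) ++
  (List.range (H + 1)).map (fun z => imp [pcV t l, cellV t k z false] (cellV (t + 1) k z false))

/-- all registers from the list are copied -/
def keeps (l t H : ℕ) : List ℕ → CNF Vr
  | [] => []
  | k :: ks => keep l t H k ++ keeps l t H ks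

/-- the clauses for the effect of a `push` on its register -/
def pushC (l t H k : ℕ) (b : Bool) : CNF Vr :=
  (List.range (H + 1)).map (fun h => imp [pcV t l, htV t k h] (htV (t + 1) k (h + 1))) ++
  (List.range (H + 1)).map (fun h => imp [pcV t l, htV t k h] (cellV (t + 1) k h b)) ++
  (List.range (H + 1)).map (fun z => imp [pcV t l, cellV t k z true] (cellV (t + 1) k z true)) ++
  (List.range (H + 1)).map (fun z => imp [pcV t l, cellV t k z false] (cellV (t + 1) k z false))

/-- the clauses for the effect of a `pop` on its register and the program counter -/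
def popC (l t H k le lf lt : ℕ) : CNF Vr :=
  [imp [pcV t l, htV t k 0] (pcV (t + 1) le), imp [pcV t l, htV t k 0] (htV (t + 1) k 0)] ++
  (List.range (H + 1)).map (fun h => imp [pcV t l, htV t k (h + 1)] (htV (t + 1) k h)) ++
  (List.range (H + 1)).map (fun h => imp [pcV t l, htV t k (h + 1), cellV t k h false]
    (pcV (t + 1) lf)) ++
  (List.range (H + 1)).map (fun h => imp [pcV t l, htV t k (h + 1), cellV t k h true]
    (pcV (t + 1) lt)) ++
  (List.range (H + 1)).flatMap (fun h => (List.range h).map fun z =>
    imp [pcV t l, htV t k (h + 1), cellV t k z false] (cellV (t + 1) k z false)) ++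
  (List.range (H + 1)).flatMap (fun h => (List.range h).map fun z =>
    imp [pcV t l, htV t k (h + 1), cellV t k z true] (cellV (t + 1) k z true))

/-- the clauses of an instruction in position `l`, at time `t` -/
def instrC (K : ℕ) (i : Instr) (l t H : ℕ) : CNF Vr :=
  match i with
  | .push k b => imp [pcV t l] (pcV (t + 1) (l + 1)) :: (pushC l t H k b ++
      keeps l t H ((List.range K).filter (· ≠ k)))
  | .pop k le lf lt => popC l t H k le lf lt ++ keeps l t H ((List.range K).filter (· ≠ k))
  | .jmp l' => imp [pcV t l] (pcV (t + 1) l') :: keeps l t H (List.range K)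
  | .choose l' _ => imp [pcV t l] (pcV (t + 1) l') :: keeps l t H (List.range K)
  | .ask _ l' => imp [pcV t l] (pcV (t + 1) l') :: keeps l t H (List.range K)
  | .halt _ => imp [pcV t l] (pcV (t + 1) l) :: keeps l t H (List.range K)

/-- the clauses of the code at time `t` -/
def codeC (K : ℕ) (t H : ℕ) : List Instr → ℕ → CNF Vr
  | [], _ => []
  | i :: P, l => instrC K i l t H ++ codeC K t H P (l + 1)

theorem mem_codeC {K t H : ℕ} {P : List Instr} {l : ℕ} {c : List (Vr × Bool)} :
    c ∈ codeC K t H P l ↔ ∃ j i, P[j]? = some i ∧ c ∈ instrC K i (l + j) t H := by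
  induction P generalizing l with
  | nil => simp [codeC]
  | cons i P ih =>
    rw [codeC, List.mem_append, ih]
    constructor
    · rintro (h | ⟨j, i', h1, h2⟩)
      · exact ⟨0, i, rfl, by simpa using h⟩
      · exact ⟨j + 1, i', by simpa using h1, by rwa [show l + (j + 1) = l + 1 + j by ring]⟩
    · rintro ⟨j, i', h1, h2⟩
      cases j with
      | zero =>
        simp only [List.getElem?_cons_zero, Option.some.injEq] at h1
        subst h1
        exact Or.inl (by simpa using h2)
      | succ j =>
        exact Or.inr ⟨j, i', by simpa using h1, by rwa [show l + (j + 1) = l + 1 + j by ring] at h2⟩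

theorem mem_keeps {l t H : ℕ} {ks : List ℕ} {c : List (Vr × Bool)} :
    c ∈ keeps l t H ks ↔ ∃ k ∈ ks, c ∈ keep l t H k := by
  induction ks with
  | nil => simp [keeps]
  | cons k ks ih => rw [keeps, List.mem_append, ih]; simp

/-! ### The true assignment -/

/-- the assignment given by a sequence of states -/
def asg (tr : ℕ → St) (v : Vr) : Bool :=
  if v.1 = 0 then decide ((tr v.2.1).1 = v.2.2.1)
  else if v.1 = 1 then decide (((tr v.2.1).2 v.2.2.1).length = v.2.2.2.1)
  else decide (((tr v.2.1).2 v.2.2.1).reverse[v.2.2.2.1]? = some v.2.2.2.2)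

theorem asg_pc {tr : ℕ → St} {t l : ℕ} : asg tr (pcV t l) = true ↔ (tr t).1 = l := by
  simp [asg, pcV]

theorem asg_ht {tr : ℕ → St} {t k h : ℕ} : asg tr (htV t k h) = true ↔ ((tr t).2 k).length = h := by
  simp [asg, htV]

theorem asg_cell {tr : ℕ → St} {t k z : ℕ} {b : Bool} :
    asg tr (cellV t k z b) = true ↔ ((tr t).2 k).reverse[z]? = some b := by
  simp [asg, cellV]

theorem reverse_cons_getElem? (b : Bool) (w : List Bool) (z : ℕ) :
    (b :: w).reverse[z]? = if z = w.length then some b else w.reverse[z]? := by
  rw [List.reverse_cons]
  split_ifs with h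
  · subst h
    rw [List.getElem?_append_right (by simp)]
    simp
  · by_cases hz : z < w.length
    · rw [List.getElem?_append_left (by simpa using hz)]
    · rw [List.getElem?_eq_none (by simp; omega), List.getElem?_eq_none (by simp; omega)]

theorem holds_keep {tr : ℕ → St} {l t H k : ℕ} (h : (tr t).1 = l → (tr (t + 1)).2 k = (tr t).2 k) :
    ∀ c ∈ keep l t H k, Holds (asg tr) c := by
  intro c hc
  simp only [keep, List.mem_append, List.mem_map] at hc
  rcases hc with (⟨h', -, rfl⟩ | ⟨z, -, rfl⟩) | ⟨z, -, rfl⟩
  · rw [holds_imp]
    intro hv
    have h1 := asg_pc.1 (hv (pcV t l) (by simp))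
    have h2 := asg_ht.1 (hv (htV t k h') (by simp))
    rw [asg_ht, h h1, h2]
  · rw [holds_imp]
    intro hv
    have h1 := asg_pc.1 (hv (pcV t l) (by simp))
    have h2 := asg_cell.1 (hv (cellV t k z true) (by simp))
    rw [asg_cell, h h1, h2]
  · rw [holds_imp]
    intro hv
    have h1 := asg_pc.1 (hv (pcV t l) (by simp))
    have h2 := asg_cell.1 (hv (cellV t k z false) (by simp))
    rw [asg_cell, h h1, h2]

theorem holds_keeps {tr : ℕ → St} {l t H : ℕ} {ks : List ℕ}
    (h : (tr t).1 = l → ∀ k ∈ ks, (tr (t + 1)).2 k = (tr t).2 k) :
    ∀ c ∈ keeps l t H ks, Holds (asg tr) c := by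
  intro c hc
  obtain ⟨k, hk, hc⟩ := mem_keeps.1 hc
  exact holds_keep (fun h1 => h h1 k hk) c hc

theorem holds_jump {tr : ℕ → St} {l t H K l' : ℕ} (h : (tr t).1 = l → tr (t + 1) = (l', (tr t).2)) :
    ∀ c ∈ imp [pcV t l] (pcV (t + 1) l') :: keeps l t H (List.range K), Holds (asg tr) c := by
  intro c hc
  rcases List.mem_cons.1 hc with rfl | hc
  · rw [holds_imp]
    intro hv
    have h1 := asg_pc.1 (hv (pcV t l) (by simp))
    rw [asg_pc, h h1]
  · exact holds_keeps (fun h1 k _ => by rw [h h1]) c hc

theorem holds_instrC {P : List Instr} {K : ℕ} {tr : ℕ → St} {l t H : ℕ} {i : Instr}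
    (hi : P[l]? = some i) (htr : tr (t + 1) = nxt P (tr t)) :
    ∀ c ∈ instrC K i l t H, Holds (asg tr) c := by
  have hn : (tr t).1 = l → P[(tr t).1]? = some i := fun h => by rw [h]; exact hi
  cases i with
  | push k b =>
    have hstep : (tr t).1 = l → tr (t + 1) = (l + 1, update (tr t).2 k (b :: (tr t).2 k)) := by
      intro h
      rw [htr]
      unfold nxt
      rw [hn h, h]
    have hk : (tr t).1 = l → (tr (t + 1)).2 k = b :: (tr t).2 k := by
      intro h
      rw [hstep h]
      simp
    intro c hc
    simp only [instrC, List.mem_cons, List.mem_append] at hc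
    rcases hc with rfl | hc | hc
    · rw [holds_imp]
      intro hv
      have h1 := asg_pc.1 (hv (pcV t l) (by simp))
      rw [asg_pc, hstep h1]
    · simp only [pushC, List.mem_append, List.mem_map] at hc
      rcases hc with ((⟨h', -, rfl⟩ | ⟨h', -, rfl⟩) | ⟨z, -, rfl⟩) | ⟨z, -, rfl⟩
      · rw [holds_imp]
        intro hv
        have h1 := asg_pc.1 (hv (pcV t l) (by simp))
        have h2 := asg_ht.1 (hv (htV t k h') (by simp))
        rw [asg_ht, hk h1, List.length_cons, h2]
      · rw [holds_imp]
        intro hv
        have h1 := asg_pc.1 (hv (pcV t l) (by simp))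
        have h2 := asg_ht.1 (hv (htV t k h') (by simp))
        rw [asg_cell, hk h1, reverse_cons_getElem?, if_pos h2.symm]
      · rw [holds_imp]
        intro hv
        have h1 := asg_pc.1 (hv (pcV t l) (by simp))
        have h2 := asg_cell.1 (hv (cellV t k z true) (by simp))
        rw [asg_cell, hk h1, reverse_cons_getElem?, if_neg, h2]
        rintro rfl
        rw [List.getElem?_eq_none (by simp)] at h2
        cases h2
      · rw [holds_imp]
        intro hv
        have h1 := asg_pc.1 (hv (pcV t l) (by simp))
        have h2 := asg_cell.1 (hv (cellV t k z false) (by simp))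
        rw [asg_cell, hk h1, reverse_cons_getElem?, if_neg, h2]
        rintro rfl
        rw [List.getElem?_eq_none (by simp)] at h2
        cases h2
    · refine holds_keeps (fun h1 k' hk' => ?_) c hc
      rw [hstep h1]
      simp only [List.mem_filter, decide_eq_true_eq] at hk'
      exact update_of_ne hk'.2 _ _
  | pop k le lf lt =>
    have hoth : (tr t).1 = l → ∀ k', k' ≠ k → (tr (t + 1)).2 k' = (tr t).2 k' := by
      intro h k' hk'
      rw [htr]
      unfold nxt
      rw [hn h]
      simp only
      cases hσ : (tr t).2 k with
      | nil => rfl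
      | cons b r => cases b <;> exact update_of_ne hk' _ _
    have h0 : (tr t).1 = l → (tr t).2 k = [] → tr (t + 1) = (le, (tr t).2) := by
      intro h hσ
      rw [htr]
      unfold nxt
      rw [hn h]
      simp only [hσ]
    have h1 : (tr t).1 = l → ∀ b r, (tr t).2 k = b :: r →
        tr (t + 1) = (if b then lt else lf, update (tr t).2 k r) := by
      intro h b r hσ
      rw [htr]
      unfold nxt
      rw [hn h]
      simp only [hσ]
      cases b <;> rfl
    intro c hc
    simp only [instrC, List.mem_append] at hc
    rcases hc with hc | hc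
    · have hcons : ∀ h, ((tr t).2 k).length = h + 1 → ∃ b r, (tr t).2 k = b :: r ∧
          r.length = h := by
        intro h hh
        cases hσ : (tr t).2 k with
        | nil => rw [hσ] at hh; simp at hh
        | cons b r => rw [hσ] at hh; exact ⟨b, r, rfl, by simpa using hh⟩
      have hmain : ∀ (z h : ℕ) (b : Bool), z < h → (tr t).1 = l → ((tr t).2 k).length = h + 1 →
          ((tr t).2 k).reverse[z]? = some b → ((tr (t + 1)).2 k).reverse[z]? = some b := by
        intro z h b hz h3 h4 h5
        obtain ⟨b', r, h6, h7⟩ := hcons h h4
        rw [h6, reverse_cons_getElem?, if_neg (by omega)] at h5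
        rw [h1 h3 b' r h6]
        simpa using h5
      have hpc : ∀ (h : ℕ) (b : Bool), (tr t).1 = l → ((tr t).2 k).length = h + 1 →
          ((tr t).2 k).reverse[h]? = some b → (tr (t + 1)).1 = if b then lt else lf := by
        intro h b h3 h4 h5
        obtain ⟨b', r, h6, h7⟩ := hcons h h4
        rw [h6, reverse_cons_getElem?, if_pos h7.symm, Option.some.injEq] at h5
        subst h5
        rw [h1 h3 b' r h6]
      simp only [popC, List.mem_append, List.mem_map, List.mem_cons, List.not_mem_nil,
        or_false, List.mem_flatMap, List.mem_range] at hc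
      rcases hc with (((((rfl | rfl) | ⟨h, -, rfl⟩) | ⟨h, -, rfl⟩) | ⟨h, -, rfl⟩) |
        ⟨h, -, z, hz, rfl⟩) | ⟨h, -, z, hz, rfl⟩
      · rw [holds_imp]
        intro hv
        have h3 := asg_pc.1 (hv (pcV t l) (by simp))
        have h4 := asg_ht.1 (hv (htV t k 0) (by simp))
        rw [asg_pc, h0 h3 (List.length_eq_zero_iff.1 h4)]
      · rw [holds_imp]
        intro hv
        have h3 := asg_pc.1 (hv (pcV t l) (by simp))
        have h4 := asg_ht.1 (hv (htV t k 0) (by simp))
        rw [asg_ht, h0 h3 (List.length_eq_zero_iff.1 h4)]
        exact h4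
      · rw [holds_imp]
        intro hv
        have h3 := asg_pc.1 (hv (pcV t l) (by simp))
        have h4 := asg_ht.1 (hv (htV t k (h + 1)) (by simp))
        obtain ⟨b, r, h6, h7⟩ := hcons h h4
        rw [asg_ht, h1 h3 b r h6]
        simpa using h7
      · rw [holds_imp]
        intro hv
        have h3 := asg_pc.1 (hv (pcV t l) (by simp))
        have h4 := asg_ht.1 (hv (htV t k (h + 1)) (by simp))
        have h5 := asg_cell.1 (hv (cellV t k h false) (by simp))
        rw [asg_pc]
        exact hpc h false h3 h4 h5
      · rw [holds_imp]
        intro hv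
        have h3 := asg_pc.1 (hv (pcV t l) (by simp))
        have h4 := asg_ht.1 (hv (htV t k (h + 1)) (by simp))
        have h5 := asg_cell.1 (hv (cellV t k h true) (by simp))
        rw [asg_pc]
        exact hpc h true h3 h4 h5
      · rw [holds_imp]
        intro hv
        have h3 := asg_pc.1 (hv (pcV t l) (by simp))
        have h4 := asg_ht.1 (hv (htV t k (h + 1)) (by simp))
        have h5 := asg_cell.1 (hv (cellV t k z false) (by simp))
        rw [asg_cell]
        exact hmain z h false hz h3 h4 h5
      · rw [holds_imp]
        intro hv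
        have h3 := asg_pc.1 (hv (pcV t l) (by simp))
        have h4 := asg_ht.1 (hv (htV t k (h + 1)) (by simp))
        have h5 := asg_cell.1 (hv (cellV t k z true) (by simp))
        rw [asg_cell]
        exact hmain z h true hz h3 h4 h5
    · refine holds_keeps (fun h3 k' hk' => ?_) c hc
      simp only [List.mem_filter, decide_eq_true_eq] at hk'
      exact hoth h3 k' hk'.2
  | jmp l' =>
    refine holds_jump fun h => ?_
    rw [htr]; unfold nxt; rw [hn h]
  | choose l' _ =>
    refine holds_jump fun h => ?_
    rw [htr]; unfold nxt; rw [hn h]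
  | ask _ l' =>
    refine holds_jump fun h => ?_
    rw [htr]; unfold nxt; rw [hn h]
  | halt b =>
    refine holds_jump fun h => ?_
    rw [htr]; unfold nxt; rw [hn h]
    exact Prod.ext h rfl

/-! ### Propagation -/

/-- the variables for the state `s` at time `t` are true -/
def Good (K : ℕ) (a : Vr → Bool) (t : ℕ) (s : St) : Prop :=
  a (pcV t s.1) = true ∧ ∀ k < K, a (htV t k (s.2 k).length) = true ∧
    ∀ z b, (s.2 k).reverse[z]? = some b → a (cellV t k z b) = true

theorem good_keep {a : Vr → Bool} {l t H k : ℕ} {w : List Bool} (hl : a (pcV t l) = true)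
    (hc : ∀ c ∈ keep l t H k, Holds a c) (hw : w.length ≤ H)
    (h1 : a (htV t k w.length) = true) (h2 : ∀ z b, w.reverse[z]? = some b → a (cellV t k z b) = true) :
    a (htV (t + 1) k w.length) = true ∧
      ∀ z b, w.reverse[z]? = some b → a (cellV (t + 1) k z b) = true := by
  constructor
  · have := hc (imp [pcV t l, htV t k w.length] (htV (t + 1) k w.length)) (by
      simp only [keep, List.mem_append, List.mem_map, List.mem_range]
      exact Or.inl (Or.inl ⟨w.length, by omega, rfl⟩))
    rw [holds_imp] at this
    apply this
    intro v hv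
    simp only [List.mem_cons, List.not_mem_nil, or_false] at hv
    rcases hv with rfl | rfl
    · exact hl
    · exact h1
  · intro z b hz
    have hz' : z < w.length := by
      by_contra h
      rw [List.getElem?_eq_none (by simp; omega)] at hz
      cases hz
    have := hc (imp [pcV t l, cellV t k z b] (cellV (t + 1) k z b)) (by
      simp only [keep, List.mem_append, List.mem_map, List.mem_range]
      cases b
      · exact Or.inr ⟨z, by omega, rfl⟩
      · exact Or.inl (Or.inr ⟨z, by omega, rfl⟩))
    rw [holds_imp] at this
    apply this
    intro v hv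
    simp only [List.mem_cons, List.not_mem_nil, or_false] at hv
    rcases hv with rfl | rfl
    · exact hl
    · exact h2 z b hz

theorem good_jump {K : ℕ} {a : Vr → Bool} {t H l' : ℕ} {s : St} (hg : Good K a t s)
    (hH : ∀ k, (s.2 k).length ≤ H)
    (hc : ∀ c ∈ imp [pcV t s.1] (pcV (t + 1) l') :: keeps s.1 t H (List.range K), Holds a c) :
    Good K a (t + 1) (l', s.2) := by
  constructor
  · have := hc _ List.mem_cons_self
    rw [holds_imp] at this
    apply this
    intro v hv
    simp only [List.mem_cons, List.not_mem_nil, or_false] at hv
    subst hv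
    exact hg.1
  · intro k hk
    exact good_keep hg.1 (fun c hc' => hc c (List.mem_cons_of_mem _ (mem_keeps.2
      ⟨k, by simpa using hk, hc'⟩))) (hH k) (hg.2 k hk).1 (hg.2 k hk).2

theorem good_step {P : List Instr} {K : ℕ} {a : Vr → Bool} {t H : ℕ} {s : St} {i : Instr}
    (hi : P[s.1]? = some i) (hg : Good K a t s) (hH : ∀ k, (s.2 k).length ≤ H)
    (hreg : i.reg < K)
    (hc : ∀ c ∈ instrC K i s.1 t H, Holds a c) : Good K a (t + 1) (nxt P s) := by
  have himp2 : ∀ (v1 v2 w : Vr), Holds a (imp [v1, v2] w) → a v1 = true → a v2 = true →
      a w = true := by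
    intro v1 v2 w h h1 h2
    rw [holds_imp] at h
    apply h
    intro v hv
    simp only [List.mem_cons, List.not_mem_nil, or_false] at hv
    rcases hv with rfl | rfl
    · exact h1
    · exact h2
  have himp3 : ∀ (v1 v2 v3 w : Vr), Holds a (imp [v1, v2, v3] w) → a v1 = true → a v2 = true →
      a v3 = true → a w = true := by
    intro v1 v2 v3 w h h1 h2 h3
    rw [holds_imp] at h
    apply h
    intro v hv
    simp only [List.mem_cons, List.not_mem_nil, or_false] at hv
    rcases hv with rfl | rfl | rfl
    · exact h1
    · exact h2
    · exact h3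
  cases i with
  | push k b =>
    have hk : k < K := hreg
    have e : nxt P s = (s.1 + 1, update s.2 k (b :: s.2 k)) := by
      unfold nxt; rw [hi]
    rw [e]
    simp only [instrC] at hc
    constructor
    · have := hc _ List.mem_cons_self
      rw [holds_imp] at this
      apply this
      intro v hv
      simp only [List.mem_cons, List.not_mem_nil, or_false] at hv
      subst hv
      exact hg.1
    · intro k' hk'
      by_cases hkk : k' = k
      · subst hkk
        obtain ⟨h1, h2⟩ := hg.2 k' hk'
        simp only [update_self]
        constructor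
        · rw [List.length_cons]
          refine himp2 _ _ _ (hc _ ?_) hg.1 h1
          refine List.mem_cons_of_mem _ (List.mem_append_left _ ?_)
          simp only [pushC, List.mem_append, List.mem_map, List.mem_range]
          exact Or.inl (Or.inl (Or.inl ⟨(s.2 k').length, by have := hH k'; omega, rfl⟩))
        · intro z b' hz
          rw [reverse_cons_getElem?] at hz
          split_ifs at hz with hz'
          · rw [Option.some.injEq] at hz
            subst hz hz'
            refine himp2 _ _ _ (hc _ ?_) hg.1 h1
            refine List.mem_cons_of_mem _ (List.mem_append_left _ ?_)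
            simp only [pushC, List.mem_append, List.mem_map, List.mem_range]
            exact Or.inl (Or.inl (Or.inr ⟨(s.2 k').length, by have := hH k'; omega, rfl⟩))
          · refine himp2 _ _ _ (hc _ ?_) hg.1 (h2 z b' hz)
            refine List.mem_cons_of_mem _ (List.mem_append_left _ ?_)
            have hz'' : z < (s.2 k').length := by
              by_contra h
              rw [List.getElem?_eq_none (by simp; omega)] at hz
              cases hz
            simp only [pushC, List.mem_append, List.mem_map, List.mem_range]
            cases b'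
            · exact Or.inr ⟨z, by have := hH k'; omega, rfl⟩
            · exact Or.inl (Or.inr ⟨z, by have := hH k'; omega, rfl⟩)
      · simp only [update_of_ne hkk]
        refine good_keep hg.1 (fun c hc' => hc c ?_) (hH k') (hg.2 k' hk').1 (hg.2 k' hk').2
        refine List.mem_cons_of_mem _ (List.mem_append_right _ (mem_keeps.2 ⟨k', ?_, hc'⟩))
        simp only [List.mem_filter, List.mem_range, decide_eq_true_eq]
        exact ⟨hk', hkk⟩
  | pop k le lf lt =>
    have hk : k < K := hreg
    simp only [instrC] at hc
    obtain ⟨h1, h2⟩ := hg.2 k hk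
    have hothers : ∀ k' < K, k' ≠ k → a (htV (t + 1) k' (s.2 k').length) = true ∧
        ∀ z b, (s.2 k').reverse[z]? = some b → a (cellV (t + 1) k' z b) = true := by
      intro k' hk' hkk
      refine good_keep hg.1 (fun c hc' => hc c ?_) (hH k') (hg.2 k' hk').1 (hg.2 k' hk').2
      refine List.mem_append_right _ (mem_keeps.2 ⟨k', ?_, hc'⟩)
      simp only [List.mem_filter, List.mem_range, decide_eq_true_eq]
      exact ⟨hk', hkk⟩
    cases hσ : s.2 k with
    | nil =>
      have e : nxt P s = (le, s.2) := by
        unfold nxt; rw [hi]; simp only [hσ]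
      rw [e]
      rw [hσ] at h1
      constructor
      · refine himp2 _ _ _ (hc _ ?_) hg.1 h1
        refine List.mem_append_left _ ?_
        simp [popC]
      · intro k' hk'
        by_cases hkk : k' = k
        · subst hkk
          simp only [hσ]
          constructor
          · refine himp2 _ _ _ (hc _ ?_) hg.1 h1
            refine List.mem_append_left _ ?_
            simp [popC]
          · intro z b hz
            simp at hz
        · exact hothers k' hk' hkk
    | cons b r =>
      have e : nxt P s = (if b then lt else lf, update s.2 k r) := by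
        unfold nxt; rw [hi]; simp only [hσ]
        cases b <;> rfl
      rw [e]
      rw [hσ, List.length_cons] at h1
      have hHk := hH k
      rw [hσ, List.length_cons] at hHk
      have h3 : a (cellV t k r.length b) = true := by
        apply h2
        rw [hσ, reverse_cons_getElem?, if_pos rfl]
      constructor
      · refine himp3 _ _ _ _ (hc _ ?_) hg.1 h1 h3
        refine List.mem_append_left _ ?_
        simp only [popC, List.mem_append, List.mem_map, List.mem_range]
        cases b
        · exact Or.inl (Or.inl (Or.inl (Or.inr ⟨r.length, by omega, rfl⟩)))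
        · exact Or.inl (Or.inl (Or.inr ⟨r.length, by omega, rfl⟩))
      · intro k' hk'
        by_cases hkk : k' = k
        · subst hkk
          simp only [update_self]
          constructor
          · refine himp2 _ _ _ (hc _ ?_) hg.1 h1
            refine List.mem_append_left _ ?_
            simp only [popC, List.mem_append, List.mem_map, List.mem_range]
            exact Or.inl (Or.inl (Or.inl (Or.inl (Or.inr ⟨r.length, by omega, rfl⟩))))
          · intro z b' hz
            have hz' : z < r.length := by
              by_contra h
              rw [List.getElem?_eq_none (by simp; omega)] at hz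
              cases hz
            have h4 : a (cellV t k' z b') = true := by
              apply h2
              rw [hσ, reverse_cons_getElem?, if_neg (by omega)]
              exact hz
            refine himp3 _ _ _ _ (hc _ ?_) hg.1 h1 h4
            refine List.mem_append_left _ ?_
            simp only [popC, List.mem_append, List.mem_map, List.mem_range, List.mem_flatMap]
            cases b'
            · exact Or.inl (Or.inr ⟨r.length, by omega, z, hz', rfl⟩)
            · exact Or.inr ⟨r.length, by omega, z, hz', rfl⟩
        · simp only [update_of_ne hkk]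
          exact hothers k' hk' hkk
  | jmp l' =>
    have e : nxt P s = (l', s.2) := by unfold nxt; rw [hi]
    rw [e]
    exact good_jump hg hH hc
  | choose l' _ =>
    have e : nxt P s = (l', s.2) := by unfold nxt; rw [hi]
    rw [e]
    exact good_jump hg hH hc
  | ask _ l' =>
    have e : nxt P s = (l', s.2) := by unfold nxt; rw [hi]
    rw [e]
    exact good_jump hg hH hc
  | halt b =>
    have e : nxt P s = (s.1, s.2) := by unfold nxt; rw [hi]
    rw [e]
    exact good_jump hg hH hc

end Pool.Agent.LibComplexity
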