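import Pool.Agent.LibComplexity.Compile

/-!
Simulation of the jump code by multitape Turing machines.
-/

namespace Pool.Agent.LibComplexity

open Function

/-- the register used by an instruction -/
def Instr.reg : Instr → ℕ
  | .push k _ => k
  | .pop k _ _ _ => k
  | _ => 0

/-- a bound for the registers of a code -/
def regBound (P : List Instr) : ℕ := (P.map Instr.reg).foldr max 0

theorem reg_le {P : List Instr} {i : Instr} (h : i ∈ P) : i.reg ≤ regBound P := by
  unfold regBound
  induction P with
  | nil => cases h
  | cons j P ih =>
    rw [List.map_cons, List.foldr_cons]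
    rcases List.mem_cons.1 h with rfl | h
    · exact le_max_left _ _
    · exact (ih h).trans (le_max_right _ _)

/-- labels as states -/
def lab (L l : ℕ) : Fin (L + 1) := ⟨min l L, by omega⟩

/-- the states of the machine of a code -/
abbrev MQ (P : List Instr) : Type := Fin (P.length + 1) × Bool

/-- the effect of a `pop`, depending on the scanned symbol -/
def popRes (P : List Instr) (k le lf lt : ℕ) (s : Fin (regBound P + 2) → Sym) :
    Sym → MQ P × (Fin (regBound P + 2) → Sym × Dir)
  | none => ((lab P.length le, false), fun j => (s j, .stay))
  | some false => ((lab P.length lf, false),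
      fun j => if (j : ℕ) = k then (none, .right) else (s j, .stay))
  | some true => ((lab P.length lt, false),
      fun j => if (j : ℕ) = k then (none, .right) else (s j, .stay))

/-- the actions of the machine of a code -/
def mact (P : List Instr) (q : MQ P) : Act (regBound P + 2) (MQ P) :=
  match P[(q.1 : ℕ)]? with
  | none => .halt false
  | some (.push k b) =>
    if q.2 = false then
      .move fun s => ((q.1, true), fun j => (s j, if (j : ℕ) = k then .left else .stay))
    else
      .move fun s => ((lab P.length (q.1 + 1), false),
        fun j => (if (j : ℕ) = k then some b else s j, .stay))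
  | some (.pop k le lf lt) =>
    .move fun s => popRes P k le lf lt s (if h : k < regBound P + 2 then s ⟨k, h⟩ else none)
  | some (.jmp l) => .move fun s => ((lab P.length l, false), fun j => (s j, .stay))
  | some (.choose l₀ l₁) => .choose (lab P.length l₀, false) (lab P.length l₁, false)
  | some (.ask ly ln) => .ask (lab P.length ly, false) (lab P.length ln, false)
  | some (.halt b) => .halt b

/-- the machine of a code -/
def mach (P : List Instr) : TM where
  K := regBound P
  Q := MQ P
  fin := inferInstance
  start := (lab P.length 0, false)
  act := mact P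

/-- A configuration of the machine represents a state of the code. -/
structure Rep (P : List Instr) (c : Cfg (mach P)) (s : GS) : Prop where
  q : c.q = (lab P.length s.pc, false)
  tape : ∀ (j : Fin (regBound P + 2)) (z : ℤ), c.tape j (c.head j + z) = wordTape (s.σ j) z
  ch : c.ch = s.β

theorem rep_head {P c s} (h : Rep P c s) (j : Fin (regBound P + 2)) :
    c.tape j (c.head j) = (s.σ j)[0]? := by
  have := h.tape j 0
  rw [add_zero] at this
  rw [this]
  simp [wordTape]

theorem rep_onTape {P c s} (h : Rep P c s) (j : Fin (regBound P + 2)) :
    OnTape (c.tape j) (c.head j) (s.σ j) := by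
  intro i _
  rw [h.tape]
  unfold wordTape
  rw [if_neg (by omega)]
  simp

theorem onTape_unique {tape : ℤ → Sym} {head : ℤ} {w w' : List Bool} (h : OnTape tape head w)
    (h' : OnTape tape head w') : w = w' := by
  have key : ∀ (w w' : List Bool), OnTape tape head w → OnTape tape head w' →
      w.length ≤ w'.length → w = w' := by
    intro w w' h h' hl
    have hlen : w'.length ≤ w.length := by
      by_contra hlt
      push Not at hlt
      have h1 := h w.length le_rfl
      have h2 := h' w.length hl
      rw [h1] at h2
      rw [List.getElem?_eq_none le_rfl, List.getElem?_eq_getElem hlt] at h2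
      cases h2
    apply List.ext_getElem?
    intro i
    by_cases hi : i ≤ w.length
    · rw [← h i hi, ← h' i (hi.trans hl)]
    · rw [List.getElem?_eq_none (by omega), List.getElem?_eq_none (by omega)]
  rcases le_total w.length w'.length with hl | hl
  · exact key w w' h h' hl
  · exact (key w' w h' h hl).symm

theorem wordTape_cons (b : Bool) (w : List Bool) (z : ℤ) :
    wordTape (b :: w) z = if z = 0 then some b else wordTape w (z - 1) := by
  unfold wordTape
  by_cases h0 : z < 0
  · rw [if_pos h0, if_neg (by omega), if_pos (by omega)]
  · rw [if_neg h0]
    by_cases h1 : z = 0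
    · subst h1; simp
    · rw [if_neg h1, if_neg (by omega)]
      have : z.toNat = (z - 1).toNat + 1 := by omega
      rw [this, List.getElem?_cons_succ]

/-- `n` steps of a machine -/
inductive MRun (M : TM) (A : Set (List Bool)) : ℕ → Cfg M → Cfg M → Prop
  | refl {c} : MRun M A 0 c c
  | step {n c c' c''} : M.step A c = some c' → MRun M A n c' c'' → MRun M A (n + 1) c c''

theorem MRun.trans {M A n m c c' c''} (h : MRun M A n c c') (h' : MRun M A m c' c'') :
    MRun M A (n + m) c c'' := by
  induction h with
  | refl => rwa [Nat.zero_add]
  | step h1 _ ih => rw [Nat.succ_add]; exact .step h1 (ih h')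

theorem lab_val {L l : ℕ} (h : l < L) : ((lab L l : Fin (L + 1)) : ℕ) = l := by
  unfold lab; simp; omega

theorem pc_lt {P : List Instr} {pc : ℕ} {i : Instr} (h : P[pc]? = some i) : pc < P.length := by
  by_contra hc
  rw [List.getElem?_eq_none (by omega)] at h
  cases h

theorem reg_lt {P : List Instr} {pc : ℕ} {i : Instr} (h : P[pc]? = some i) :
    i.reg < regBound P + 2 := by
  have : i ∈ P := List.mem_of_getElem? h
  have := reg_le this
  omega

theorem step_move {M : TM} {A : Set (List Bool)} {c : Cfg M} {f}
    (h : M.act c.q = .move f) {r} (hr : f (fun i => c.tape i (c.head i)) = r) :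
    M.step A c = some ⟨r.1, fun i => update (c.tape i) (c.head i) (r.2 i).1,
      fun i => c.head i + (r.2 i).2.disp, c.ch⟩ := by
  subst hr
  unfold TM.step
  rw [h]

theorem step_ask_yes {M : TM} {A : Set (List Bool)} {c : Cfg M} {yes no}
    (h : M.act c.q = .ask yes no) (hA : ∃ w ∈ A, OnTape (c.tape 1) (c.head 1) w) :
    M.step A c = some ⟨yes, c.tape, c.head, c.ch⟩ := by
  unfold TM.step
  rw [h]
  simp only [if_pos hA]

theorem step_ask_no {M : TM} {A : Set (List Bool)} {c : Cfg M} {yes no}
    (h : M.act c.q = .ask yes no) (hA : ¬ ∃ w ∈ A, OnTape (c.tape 1) (c.head 1) w) :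
    M.step A c = some ⟨no, c.tape, c.head, c.ch⟩ := by
  unfold TM.step
  rw [h]
  simp only [if_neg hA]

theorem mact_ask {P : List Instr} {q : MQ P} {ly ln : ℕ}
    (h : P[(q.1 : ℕ)]? = some (.ask ly ln)) : mact P q =
    .ask (lab P.length ly, false) (lab P.length ln, false) := by
  unfold mact
  simp only [h]

theorem mact_pop {P : List Instr} {q : MQ P} {k le lf lt : ℕ}
    (h : P[(q.1 : ℕ)]? = some (.pop k le lf lt)) : mact P q =
    .move fun s => popRes P k le lf lt s (if h : k < regBound P + 2 then s ⟨k, h⟩ else none) := by
  unfold mact
  simp only [h]

theorem sim_step {A P c s s'} (hr : Rep P c s) (hs : gstep A P s = some s') :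
    ∃ n ≤ 2, 1 ≤ n ∧ ∃ c', MRun (mach P) A n c c' ∧ Rep P c' s' := by
  obtain ⟨hq, ht, hch⟩ := id hr
  unfold gstep at hs
  cases hi : P[s.pc]? with
  | none => rw [hi] at hs; cases hs
  | some i =>
    have hlt := pc_lt hi
    have hreg := reg_lt hi
    have hP : P[((lab P.length s.pc : Fin (P.length + 1)) : ℕ)]? = some i := by
      rw [lab_val hlt]; exact hi
    rw [hi] at hs
    cases i with
    | push k b =>
      simp only [Option.some.injEq] at hs
      subst hs
      let c1 : Cfg (mach P) := ⟨(lab P.length s.pc, true),
        fun i => update (c.tape i) (c.head i) (c.tape i (c.head i)),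
        fun i => c.head i + (if (i : ℕ) = k then Dir.left else Dir.stay).disp, c.ch⟩
      have h1 : (mach P).step A c = some c1 := by
        unfold TM.step
        have : (mach P).act c.q = mact P (lab P.length s.pc, false) := by rw [hq]; rfl
        rw [this]
        unfold mact
        simp only [hP, if_true]
        rfl
      let c2 : Cfg (mach P) := ⟨(lab P.length (s.pc + 1), false),
        fun i => update (c1.tape i) (c1.head i)
          (if (i : ℕ) = k then some b else c1.tape i (c1.head i)),
        fun i => c1.head i + Dir.stay.disp, c.ch⟩
      have h2 : (mach P).step A c1 = some c2 := by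
        unfold TM.step
        have : (mach P).act c1.q = mact P (lab P.length s.pc, true) := rfl
        rw [this]
        unfold mact
        simp only [hP]
        rw [lab_val hlt]
        rfl
      refine ⟨2, le_rfl, by omega, c2, .step h1 (.step h2 .refl), ?_⟩
      constructor
      · rfl
      · intro j z
        by_cases hj : (j : ℕ) = k
        · have e : (update s.σ k (b :: s.σ k)) (j : ℕ) = b :: s.σ k := by rw [hj]; simp
          rw [show (({ pc := s.pc + 1, σ := update s.σ k (b :: s.σ k), β := s.β } : GS).σ (j : ℕ))
            = b :: s.σ k from e, wordTape_cons]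
          simp only [c2, c1, hj, if_true, Dir.disp]
          by_cases hz : z = 0
          · subst hz; simp
          · rw [if_neg hz, update_of_ne (by omega), update_apply]
            have h3 := ht j (z - 1)
            rw [hj] at h3
            rw [← h3]
            have e2 : c.head j + -1 + 0 + z = c.head j + (z - 1) := by ring
            rw [e2]
            split_ifs with h4
            · rw [h4]
            · rfl
        · have e : (update s.σ k (b :: s.σ k)) (j : ℕ) = s.σ j := update_of_ne hj _ _
          rw [show (({ pc := s.pc + 1, σ := update s.σ k (b :: s.σ k), β := s.β } : GS).σ (j : ℕ))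
            = s.σ j from e]
          simp only [c2, c1, if_neg hj, Dir.disp, update_eq_self, add_zero]
          exact ht j z
      · exact hch
    | pop k le lf lt =>
      have hk : k < regBound P + 2 := hreg
      have hhead : c.tape ⟨k, hk⟩ (c.head ⟨k, hk⟩) = (s.σ k)[0]? := rep_head hr ⟨k, hk⟩
      have hact : (mach P).act c.q = mact P (lab P.length s.pc, false) := by rw [hq]; rfl
      cases hσ : s.σ k with
      | nil =>
        rw [hσ] at hhead
        simp only [hσ, Option.some.injEq] at hs
        subst hs
        let c1 : Cfg (mach P) := ⟨(lab P.length le, false),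
          fun i => update (c.tape i) (c.head i) (c.tape i (c.head i)),
          fun i => c.head i + Dir.stay.disp, c.ch⟩
        have h1 : (mach P).step A c = some c1 := by
          refine (step_move (hact.trans (mact_pop hP))
            (r := popRes P k le lf lt (fun i => c.tape i (c.head i)) none) ?_).trans rfl
          refine congrArg (popRes P k le lf lt (fun i => c.tape i (c.head i))) ?_
          rw [dif_pos hk]
          exact hhead
        refine ⟨1, by omega, le_rfl, c1, .step h1 .refl, ?_⟩
        constructor
        · rfl
        · intro j z
          simp only [c1, Dir.disp, update_eq_self, add_zero]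
          exact ht j z
        · exact hch
      | cons b r =>
        let l := if b then lt else lf
        have hs' : s' = ⟨l, update s.σ k r, s.β⟩ := by
          cases b
          · simp only [hσ, Option.some.injEq] at hs; exact hs.symm
          · simp only [hσ, Option.some.injEq] at hs; exact hs.symm
        subst hs'
        let c1 : Cfg (mach P) := ⟨(lab P.length l, false),
          fun i => update (c.tape i) (c.head i)
            (if (i : ℕ) = k then (none, Dir.right) else (c.tape i (c.head i), Dir.stay)).1,
          fun i => c.head i +
            (if (i : ℕ) = k then (none, Dir.right) else (c.tape i (c.head i), Dir.stay)).2.disp,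
          c.ch⟩
        have h1 : (mach P).step A c = some c1 := by
          refine (step_move (hact.trans (mact_pop hP))
            (r := popRes P k le lf lt (fun i => c.tape i (c.head i)) (some b)) ?_).trans ?_
          · refine congrArg (popRes P k le lf lt (fun i => c.tape i (c.head i))) ?_
            rw [dif_pos hk]
            rw [hσ] at hhead
            exact hhead
          · cases b <;> rfl
        refine ⟨1, by omega, le_rfl, c1, .step h1 .refl, ?_⟩
        constructor
        · rfl
        · intro j z
          by_cases hj : (j : ℕ) = k
          · have e : (update s.σ k r) (j : ℕ) = r := by rw [hj]; simp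
            rw [show (({ pc := l, σ := update s.σ k r, β := s.β } : GS).σ (j : ℕ)) = r from e]
            have hjk : j = ⟨k, hk⟩ := Fin.ext hj
            have h3 := ht j (z + 1)
            rw [hj, hσ, wordTape_cons] at h3
            simp only [c1, hj, if_true, Dir.disp]
            by_cases hz : z = -1
            · subst hz
              rw [show c.head j + 1 + -1 = c.head j by ring, update_self]
              rfl
            · rw [update_of_ne (by omega), show c.head j + 1 + z = c.head j + (z + 1) by ring, h3,
                if_neg (by omega)]
              congr 1; ring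
          · have e : (update s.σ k r) (j : ℕ) = s.σ j := update_of_ne hj _ _
            rw [show (({ pc := l, σ := update s.σ k r, β := s.β } : GS).σ (j : ℕ)) = s.σ j from e]
            simp only [c1, if_neg hj, Dir.disp, update_eq_self, add_zero]
            exact ht j z
        · exact hch
    | jmp l =>
      simp only [Option.some.injEq] at hs
      subst hs
      let c1 : Cfg (mach P) := ⟨(lab P.length l, false),
        fun i => update (c.tape i) (c.head i) (c.tape i (c.head i)),
        fun i => c.head i + Dir.stay.disp, c.ch⟩
      have h1 : (mach P).step A c = some c1 := by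
        unfold TM.step
        have : (mach P).act c.q = mact P (lab P.length s.pc, false) := by rw [hq]; rfl
        rw [this]
        unfold mact
        simp only [hP]
        rfl
      refine ⟨1, by omega, le_rfl, c1, .step h1 .refl, ?_⟩
      constructor
      · rfl
      · intro j z
        simp only [c1, Dir.disp, update_eq_self, add_zero]
        exact ht j z
      · exact hch
    | choose l₀ l₁ =>
      simp only [Option.some.injEq] at hs
      subst hs
      let c1 : Cfg (mach P) := ⟨if c.ch 0 then (lab P.length l₁, false) else (lab P.length l₀, false),
        c.tape, c.head, fun n => c.ch (n + 1)⟩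
      have h1 : (mach P).step A c = some c1 := by
        unfold TM.step
        have : (mach P).act c.q = mact P (lab P.length s.pc, false) := by rw [hq]; rfl
        rw [this]
        unfold mact
        simp only [hP]
        rfl
      refine ⟨1, by omega, le_rfl, c1, .step h1 .refl, ?_⟩
      constructor
      · simp only [c1, hch]
        split_ifs with hb
        · first | rfl | exact if_pos hb
        · first | rfl | exact if_neg hb
      · intro j z
        exact ht j z
      · simp only [c1, hch]; rfl
    | ask ly ln =>
      simp only [Option.some.injEq] at hs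
      subst hs
      have hq1 : (∃ w ∈ A, OnTape (c.tape 1) (c.head 1) w) ↔ s.σ 1 ∈ A := by
        have h1 := rep_onTape hr 1
        constructor
        · rintro ⟨w, hw, hw'⟩
          have := onTape_unique hw' h1
          rw [this] at hw
          exact hw
        · intro h
          exact ⟨_, h, h1⟩
      by_cases hA : s.σ 1 ∈ A
      · let c1 : Cfg (mach P) := ⟨(lab P.length ly, false), c.tape, c.head, c.ch⟩
        have h1 : (mach P).step A c = some c1 := by
          have : (mach P).act c.q = mact P (lab P.length s.pc, false) := by rw [hq]; rfl
          exact step_ask_yes (this.trans (mact_ask hP)) (hq1.2 hA)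
        refine ⟨1, by omega, le_rfl, c1, .step h1 .refl, ?_⟩
        constructor
        · rw [if_pos hA]
        · intro j z
          exact ht j z
        · exact hch
      · let c1 : Cfg (mach P) := ⟨(lab P.length ln, false), c.tape, c.head, c.ch⟩
        have h1 : (mach P).step A c = some c1 := by
          have : (mach P).act c.q = mact P (lab P.length s.pc, false) := by rw [hq]; rfl
          exact step_ask_no (this.trans (mact_ask hP)) (fun h => hA (hq1.1 h))
        refine ⟨1, by omega, le_rfl, c1, .step h1 .refl, ?_⟩
        constructor
        · rw [if_neg hA]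
        · intro j z
          exact ht j z
        · exact hch
    | halt b => cases hs

theorem sim_run {A P n c s s'} (hr : Rep P c s) (hs : GRun A P n s s') :
    ∃ m ≤ 2 * n, ∃ c', MRun (mach P) A m c c' ∧ Rep P c' s' := by
  induction hs generalizing c with
  | refl => exact ⟨0, by omega, c, .refl, hr⟩
  | step h1 _ ih =>
    obtain ⟨a, ha, -, c1, hc1, hr1⟩ := sim_step hr h1
    obtain ⟨m, hm, c2, hc2, hr2⟩ := ih hr1
    exact ⟨a + m, by omega, c2, hc1.trans hc2, hr2⟩

theorem run_eq_of_MRun (M : TM) (A : Set (List Bool)) (w : List Bool) (β : ℕ → Bool) :
    ∀ (n : ℕ) (c c' : Cfg M) (k : ℕ), M.run A w β k = some c → MRun M A n c c' →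
      M.run A w β (k + n) = some c' := by
  intro n
  induction n with
  | zero =>
    intro c c' k hk h
    cases h
    exact hk
  | succ n ih =>
    intro c c' k hk h
    cases h with
    | step h1 h2 =>
      rename_i c1
      have : M.run A w β (k + 1) = some c1 := by
        unfold TM.run at hk ⊢
        rw [Function.iterate_succ_apply', hk]
        exact h1
      have := ih c1 c' (k + 1) this h2
      rwa [add_assoc, add_comm 1 n] at this

/-- initial registers -/
def inp (w : List Bool) : Regs := fun k => if k = 0 then w else []

theorem init_tape_zero (M : TM) (w : List Bool) (β : Bits) :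
    (M.init w β).tape 0 = wordTape w := by
  show (if (0 : Fin (M.K + 2)) = 0 then wordTape w else fun _ => none) = wordTape w
  exact if_pos rfl

theorem init_tape_ne (M : TM) (w : List Bool) (β : Bits) {j : Fin (M.K + 2)} (hj : j ≠ 0) :
    (M.init w β).tape j = fun _ => none := if_neg hj

theorem rep_init (P : List Instr) (w : List Bool) (β : Bits) :
    Rep P ((mach P).init w β) ⟨0, inp w, β⟩ := by
  constructor
  · rfl
  · intro j z
    have h0 : ((mach P).init w β).head j = 0 := rfl
    rw [h0, zero_add]
    by_cases hj : (j : ℕ) = 0
    · have : j = 0 := Fin.ext hj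
      subst this
      exact congrFun (init_tape_zero (mach P) w β) z
    · have h1 : j ≠ 0 := fun h => hj (by rw [h]; rfl)
      refine (congrFun (init_tape_ne (mach P) w β h1) z).trans ?_
      show none = wordTape (inp w (j : ℕ)) z
      unfold inp
      rw [if_neg hj]
      unfold wordTape
      split_ifs <;> simp
  · rfl

theorem mach_det {P : List Instr} (h : ∀ i ∈ P, ∀ l₀ l₁, i ≠ .choose l₀ l₁) : (mach P).Det := by
  intro q q₀ q₁ hq
  change mact P q = _ at hq
  unfold mact at hq
  cases hi : P[(q.1 : ℕ)]? with
  | none => rw [hi] at hq; cases hq
  | some i =>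
    rw [hi] at hq
    cases i with
    | push k b =>
      simp only at hq
      split_ifs at hq
    | pop k le lf lt => cases hq
    | jmp l => cases hq
    | choose l₀ l₁ => exact h _ (List.mem_of_getElem? hi) l₀ l₁ rfl
    | ask ly ln => cases hq
    | halt b => cases hq

theorem comp_det {c : Com} (h : c.Det) : ∀ off, ∀ i ∈ comp c off, ∀ l₀ l₁, i ≠ .choose l₀ l₁ := by
  induction c with
  | skip => intro off i hi; cases hi
  | push k b =>
    intro off i hi l₀ l₁
    simp only [comp, List.mem_singleton] at hi
    rw [hi]; intro h; cases h
  | seq c d ihc ihd =>
    intro off i hi l₀ l₁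
    simp only [comp, List.mem_append] at hi
    rcases hi with hi | hi
    · exact ihc h.1 _ i hi _ _
    · exact ihd h.2 _ i hi _ _
  | cas k ce cf ct ihe ihf iht =>
    intro off i hi l₀ l₁
    simp only [comp, List.mem_append, List.mem_singleton] at hi
    rcases hi with (((hi | (hi | hi)) | (hi | hi)) | (hi | hi))
    · rw [hi]; intro h; cases h
    · exact ihe h.1 _ i hi _ _
    · rw [hi]; intro h; cases h
    · exact ihf h.2.1 _ i hi _ _
    · rw [hi]; intro h; cases h
    · exact iht h.2.2 _ i hi _ _
    · rw [hi]; intro h; cases h
  | loop k cf ct ihf iht =>
    intro off i hi l₀ l₁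
    simp only [comp, List.mem_append, List.mem_singleton] at hi
    rcases hi with ((hi | (hi | hi)) | (hi | hi))
    · rw [hi]; intro h; cases h
    · exact ihf h.1 _ i hi _ _
    · rw [hi]; intro h; cases h
    · exact iht h.2 _ i hi _ _
    · rw [hi]; intro h; cases h
  | choose c d _ _ => exact absurd h (by simp [Com.Det])
  | ask c d ihc ihd =>
    intro off i hi l₀ l₁
    simp only [comp, List.mem_append, List.mem_singleton] at hi
    rcases hi with ((hi | (hi | hi)) | (hi | hi))
    · rw [hi]; intro h; cases h
    · exact ihc h.1 _ i hi _ _
    · rw [hi]; intro h; cases h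
    · exact ihd h.2 _ i hi _ _
    · rw [hi]; intro h; cases h

/-- Turing machine for a program that computes a function. -/
theorem exists_tm_fun (c : Com) : ∃ M : TM, (c.Det → M.Det) ∧
    ∀ A w β σ' β' t, Exec A c (inp w) β σ' β' t →
      ∃ cf, M.Halts A w β (2 * t) cf true ∧ OnTape (cf.tape 0) (cf.head 0) (σ' 0) := by
  let P : List Instr := comp c 0 ++ [.halt true]
  refine ⟨mach P, ?_, ?_⟩
  · intro hc
    apply mach_det
    intro i hi l₀ l₁
    simp only [P, List.mem_append, List.mem_singleton] at hi
    rcases hi with hi | hi
    · exact comp_det hc _ i hi _ _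
    · rw [hi]; intro h; cases h
  · intro A w β σ' β' t h
    have hcode : CodeAt P 0 (comp c 0) := by
      intro i hi
      rw [Nat.zero_add]
      exact List.getElem?_append_left hi
    have h1 := comp_correct h P 0 hcode
    obtain ⟨m, hm, cf, hcf, hr⟩ := sim_run (rep_init P w β) h1
    have h2 : P[clen c]? = some (.halt true) := by
      simp only [P]
      rw [List.getElem?_append_right (by rw [length_comp]), length_comp]
      simp
    refine ⟨cf, ⟨m, hm, ?_, ?_⟩, rep_onTape hr 0⟩
    · have := run_eq_of_MRun (mach P) A w β m _ _ 0 rfl hcf
      rwa [Nat.zero_add] at this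
    · have h3 : (mach P).act cf.q = mact P (lab P.length (0 + clen c), false) := by rw [hr.q]; rfl
      rw [h3]
      unfold mact
      have h4 : P[((lab P.length (0 + clen c) : Fin (P.length + 1)) : ℕ)]? = some (.halt true) := by
        rw [Nat.zero_add, lab_val (pc_lt h2)]; exact h2
      simp only [h4]
      rfl

/-- Turing machine for a program that decides: the answer is the top symbol of register `0`. -/
theorem exists_tm_dec (c : Com) : ∃ M : TM, (c.Det → M.Det) ∧
    ∀ A w β σ' β' t (b : Bool) r, Exec A c (inp w) β σ' β' t → σ' 0 = b :: r →
      ∃ cf, M.Halts A w β (2 * (t + 1)) cf b := by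
  let n := clen c
  let P : List Instr := comp c 0 ++ [.pop 0 (n + 1) (n + 1) (n + 2), .halt false, .halt true]
  have hP0 : P[n]? = some (.pop 0 (n + 1) (n + 1) (n + 2)) := by
    simp only [P]
    rw [List.getElem?_append_right (by rw [length_comp]), length_comp]
    simp [n]
  have hP1 : P[n + 1]? = some (.halt false) := by
    simp only [P]
    rw [List.getElem?_append_right (by rw [length_comp]; omega), length_comp]
    simp [n]
  have hP2 : P[n + 2]? = some (.halt true) := by
    simp only [P]
    rw [List.getElem?_append_right (by rw [length_comp]; omega), length_comp]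
    simp [n]
  refine ⟨mach P, ?_, ?_⟩
  · intro hc
    apply mach_det
    intro i hi l₀ l₁
    simp only [P, List.mem_append, List.mem_cons, List.not_mem_nil, or_false] at hi
    rcases hi with hi | hi | hi | hi
    · exact comp_det hc _ i hi _ _
    · rw [hi]; intro h; cases h
    · rw [hi]; intro h; cases h
    · rw [hi]; intro h; cases h
  · intro A w β σ' β' t b r h hσ
    have hcode : CodeAt P 0 (comp c 0) := by
      intro i hi
      rw [Nat.zero_add]
      exact List.getElem?_append_left hi
    have h1 := comp_correct h P 0 hcode
    rw [Nat.zero_add] at h1
    let l := if b then n + 2 else n + 1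
    have h2 : gstep A P ⟨n, σ', β'⟩ = some ⟨l, update σ' 0 r, β'⟩ := by
      unfold gstep
      simp only [hP0, hσ]
      cases b <;> rfl
    obtain ⟨m, hm, cf, hcf, hr⟩ := sim_run (rep_init P w β) (h1.trans (GRun.one h2))
    refine ⟨cf, m, hm, ?_, ?_⟩
    · have := run_eq_of_MRun (mach P) A w β m _ _ 0 rfl hcf
      rwa [Nat.zero_add] at this
    · have h3 : (mach P).act cf.q = mact P (lab P.length l, false) := by rw [hr.q]; rfl
      rw [h3]
      unfold mact
      have h5 : P[l]? = some (.halt b) := by
        cases b
        · exact hP1
        · exact hP2
      have h4 : P[((lab P.length l : Fin (P.length + 1)) : ℕ)]? = some (.halt b) := by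
        rw [lab_val (pc_lt h5)]; exact h5
      simp only [h4]
      rfl

end Pool.Agent.LibComplexity
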