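import Pool.Agent.LibComplexity.Runs

/-!
Polynomial-time functions on encoded data: binary trees, encodings, and the basic closure
properties.
-/

namespace Pool.Agent.LibComplexity

open Function

/-- Binary trees. -/
inductive Tr
  | nil
  | cons (a b : Tr)

namespace Tr

/-- the size of a tree -/
def size : Tr → ℕ
  | nil => 1
  | cons a b => a.size + b.size + 1

/-- prefix encoding -/
def enc : Tr → List Bool
  | nil => [false]
  | cons a b => true :: (a.enc ++ b.enc)

theorem length_enc (t : Tr) : t.enc.length = t.size := by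
  induction t with
  | nil => rfl
  | cons a b iha ihb => simp [enc, size, iha, ihb]

theorem size_pos (t : Tr) : 1 ≤ t.size := by cases t <;> simp [size]

end Tr

/-- three registers determine the state -/
theorem upd3 {σ τ : Regs} {a b c : ℕ} (ha : σ a = τ a) (hb : σ b = τ b) (hc : σ c = τ c)
    (h : ∀ k, k ≠ a → k ≠ b → k ≠ c → σ k = τ k) : σ = τ := by
  funext k
  by_cases h1 : k = a
  · rw [h1, ha]
  · by_cases h2 : k = b
    · rw [h2, hb]
    · by_cases h3 : k = c
      · rw [h3, hc]
      · exact h k h1 h2 h3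

/-- one step of `parse` -/
def parseBody (a b c : ℕ) : Com :=
  .cas a .skip (.push b false) (.seq (.push b true) (.seq (.push c true) (.push c true)))

/-- Remove trees from the front of register `a`, one for each symbol in register `c`, and push
their encodings, reversed, on register `b`. -/
def parse (a b c : ℕ) : Com := .loop c (parseBody a b c) (parseBody a b c)

theorem det_parse (a b c : ℕ) : (parse a b c).Det :=
  ⟨⟨trivial, trivial, trivial, trivial, trivial⟩, ⟨trivial, trivial, trivial, trivial, trivial⟩⟩

theorem parse_step {A : Set (List Bool)} {a b c : ℕ} (hab : a ≠ b) (hac : a ≠ c) (hbc : b ≠ c)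
    (t : Tr) : ∀ (σ : Regs) (r s : List Bool) (fin : Regs) (n : ℕ), σ a = t.enc ++ r →
    σ c = true :: s →
    Runs A (parse a b c) (update (update (update σ a r) b (t.enc.reverse ++ σ b)) c s) fin n →
    Runs A (parse a b c) σ fin (n + 7 * t.size) := by
  induction t with
  | nil =>
    intro σ r s fin n ha hc h
    have h1 : Runs A (parseBody a b c) (update σ c s)
        (update (update (update σ a r) b ((Tr.nil).enc.reverse ++ σ b)) c s) (1 + 2) := by
      have h2 : (update σ c s) a = false :: r := by rw [update_of_ne hac]; exact ha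
      have h3 := Runs.push (A := A) (k := b) (b := false) (σ := update (update σ c s) a r)
      refine (Runs.casF h2 h3).cast ?_ le_rfl
      apply upd3 (a := a) (b := b) (c := c)
      · simp [update_of_ne hab, update_of_ne hac]
      · simp [update_of_ne hbc, update_of_ne hab.symm, Tr.enc]
      · simp [update_of_ne hbc.symm, update_of_ne hac.symm]
      · intro k k1 k2 k3
        simp [k1, k2, k3]
    refine (Runs.loopT hc h1 h).mono ?_
    simp only [Tr.size]; omega
  | cons x y ihx ihy =>
    intro σ r s fin n ha hc h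
    let σ1 : Regs := update (update (update σ a (x.enc ++ (y.enc ++ r))) b (true :: σ b)) c
      (true :: true :: s)
    have h1 : Runs A (parseBody a b c) (update σ c s) σ1 (1 + (1 + 1) + 2) := by
      have h2 : (update σ c s) a = true :: (x.enc ++ (y.enc ++ r)) := by
        rw [update_of_ne hac, ha]; simp [Tr.enc]
      have h3 := Runs.push (A := A) (k := b) (b := true)
        (σ := update (update σ c s) a (x.enc ++ (y.enc ++ r)))
      have h4 := Runs.push (A := A) (k := c) (b := true) (σ := update (update (update σ c s) a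
        (x.enc ++ (y.enc ++ r))) b (true :: (update (update σ c s) a (x.enc ++ (y.enc ++ r))) b))
      have h5 := h3.seq (h4.seq (Runs.push (A := A) (k := c) (b := true)))
      refine (Runs.casT h2 h5).cast ?_ le_rfl
      apply upd3 (a := a) (b := b) (c := c)
      · simp [σ1, update_of_ne hab, update_of_ne hac]
      · simp [σ1, update_of_ne hbc, update_of_ne hab.symm]
      · simp [σ1, update_of_ne hbc.symm, update_of_ne hac.symm]
      · intro k k1 k2 k3
        simp [σ1, k1, k2, k3]
    let σ2 : Regs := update (update (update σ1 a (y.enc ++ r)) b (x.enc.reverse ++ σ1 b)) c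
      (true :: s)
    have h6 : Runs A (parse a b c) σ2 fin (n + 7 * y.size) := by
      apply ihy σ2 r s fin n
      · simp [σ2, update_of_ne hab, update_of_ne hac]
      · simp [σ2]
      · have : update (update (update σ2 a r) b (y.enc.reverse ++ σ2 b)) c s =
            update (update (update σ a r) b ((Tr.cons x y).enc.reverse ++ σ b)) c s := by
          apply upd3 (a := a) (b := b) (c := c)
          · simp [update_of_ne hab, update_of_ne hac]
          · simp [σ2, σ1, update_of_ne hbc, Tr.enc]
          · simp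
          · intro k k1 k2 k3
            simp [σ2, σ1, k1, k2, k3]
        rw [this]
        exact h
    have h7 : Runs A (parse a b c) σ1 fin (n + 7 * y.size + 7 * x.size) := by
      apply ihx σ1 (y.enc ++ r) (true :: s) fin (n + 7 * y.size)
      · simp [σ1, update_of_ne hab, update_of_ne hac]
      · simp [σ1]
      · exact h6
    refine (Runs.loopT hc h1 h7).mono ?_
    simp only [Tr.size]; omega

/-- Removing one tree. -/
theorem runs_parse {A : Set (List Bool)} {a b c : ℕ} (hab : a ≠ b) (hac : a ≠ c) (hbc : b ≠ c)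
    (t : Tr) (σ : Regs) (r : List Bool) (ha : σ a = t.enc ++ r) (hc : σ c = [true]) :
    Runs A (parse a b c) σ (update (update (update σ a r) b (t.enc.reverse ++ σ b)) c [])
      (1 + 7 * t.size) :=
  parse_step hab hac hbc t σ r [] _ 1 ha hc (Runs.loopE (by simp))

/-- Removing two trees. -/
theorem runs_parse2 {A : Set (List Bool)} {a b c : ℕ} (hab : a ≠ b) (hac : a ≠ c) (hbc : b ≠ c)
    (t u : Tr) (σ : Regs) (r : List Bool) (ha : σ a = t.enc ++ (u.enc ++ r))
    (hc : σ c = [true, true]) :
    Runs A (parse a b c) σ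
      (update (update (update σ a r) b (u.enc.reverse ++ (t.enc.reverse ++ σ b))) c [])
      (1 + 7 * u.size + 7 * t.size) := by
  refine parse_step hab hac hbc t σ (u.enc ++ r) [true] _ (1 + 7 * u.size) ha hc ?_
  refine (runs_parse hab hac hbc u _ r ?_ ?_).cast ?_ le_rfl
  · simp [update_of_ne hab, update_of_ne hac]
  · simp
  · apply upd3 (a := a) (b := b) (c := c)
    · simp [update_of_ne hab, update_of_ne hac]
    · simp [update_of_ne hbc]
    · simp
    · intro k k1 k2 k3
      simp [k1, k2, k3]

/-! ### Encodings -/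

/-- Types whose elements are encoded by binary trees. -/
class Enc (α : Type) where
  e : α → Tr
  inj : Injective e

open Enc

/-- the size of an encoded object -/
def sz {α : Type} [Enc α] (x : α) : ℕ := (e x).size

instance : Enc Tr := ⟨id, injective_id⟩

instance : Enc Unit := ⟨fun _ => .nil, fun _ _ _ => rfl⟩

/-- truth values -/
def eBool : Bool → Tr
  | false => .nil
  | true => .cons .nil .nil

instance : Enc Bool := ⟨eBool, by intro a b h; cases a <;> cases b <;> simp_all [eBool]⟩

/-- numbers in unary -/
def eNat : ℕ → Tr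
  | 0 => .nil
  | n + 1 => .cons .nil (eNat n)

theorem eNat_injective : Injective eNat := by
  intro a
  induction a with
  | zero => intro b h; cases b with
    | zero => rfl
    | succ b => simp [eNat] at h
  | succ a ih => intro b h; cases b with
    | zero => simp [eNat] at h
    | succ b =>
      simp only [eNat, Tr.cons.injEq, true_and] at h
      rw [ih h]

instance : Enc ℕ := ⟨eNat, eNat_injective⟩

instance {α β : Type} [Enc α] [Enc β] : Enc (α × β) :=
  ⟨fun p => .cons (e p.1) (e p.2), by
    rintro ⟨a, b⟩ ⟨c, d⟩ h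
    simp only [Tr.cons.injEq] at h
    rw [Enc.inj h.1, Enc.inj h.2]⟩

/-- lists -/
def eList {α : Type} [Enc α] : List α → Tr
  | [] => .nil
  | x :: l => .cons (e x) (eList l)

theorem eList_injective {α : Type} [Enc α] : Injective (eList (α := α)) := by
  intro a
  induction a with
  | nil => intro b h; cases b with
    | nil => rfl
    | cons y b => simp [eList] at h
  | cons x a ih => intro b h; cases b with
    | nil => simp [eList] at h
    | cons y b =>
      simp only [eList, Tr.cons.injEq] at h
      rw [Enc.inj h.1, ih h.2]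

instance {α : Type} [Enc α] : Enc (List α) := ⟨eList, eList_injective⟩

instance {α : Type} [Enc α] (p : α → Prop) : Enc {x // p x} :=
  ⟨fun x => e x.1, fun _ _ h => Subtype.ext (Enc.inj h)⟩

/-- options -/
def eOption {α : Type} [Enc α] : Option α → Tr
  | none => .nil
  | some x => .cons (e x) .nil

instance {α : Type} [Enc α] : Enc (Option α) := ⟨eOption, by
  intro a b h
  cases a <;> cases b <;> simp_all [eOption]
  rename_i x y
  exact Enc.inj h⟩

theorem e_nil {α : Type} [Enc α] : e ([] : List α) = .nil := rfl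
theorem e_cons {α : Type} [Enc α] (x : α) (l : List α) : e (x :: l) = .cons (e x) (e l) := rfl
theorem e_pair {α β : Type} [Enc α] [Enc β] (x : α) (y : β) : e (x, y) = .cons (e x) (e y) := rfl
theorem e_none {α : Type} [Enc α] : e (none : Option α) = .nil := rfl
theorem e_some {α : Type} [Enc α] (x : α) : e (some x) = .cons (e x) .nil := rfl
theorem e_false : e false = .nil := rfl
theorem e_true : e true = .cons .nil .nil := rfl
theorem e_zero : e (0 : ℕ) = .nil := rfl
theorem e_succ (n : ℕ) : e (n + 1) = .cons .nil (e n) := rfl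

theorem sz_pair {α β : Type} [Enc α] [Enc β] (x : α) (y : β) : sz (x, y) = sz x + sz y + 1 := rfl
theorem sz_nil {α : Type} [Enc α] : sz ([] : List α) = 1 := rfl
theorem sz_cons {α : Type} [Enc α] (x : α) (l : List α) : sz (x :: l) = sz x + sz l + 1 := rfl
theorem sz_zero : sz (0 : ℕ) = 1 := rfl
theorem sz_succ (n : ℕ) : sz (n + 1) = sz n + 2 := by
  show (eNat (n + 1)).size = (eNat n).size + 2
  simp only [eNat, Tr.size]; omega
theorem sz_nat (n : ℕ) : sz n = 2 * n + 1 := by
  induction n with
  | zero => rfl
  | succ n ih => rw [sz_succ, ih]; ring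
theorem sz_pos {α : Type} [Enc α] (x : α) : 1 ≤ sz x := Tr.size_pos _
theorem sz_bool (b : Bool) : sz b ≤ 3 := by cases b <;> decide
theorem sz_val {α : Type} [Enc α] {p : α → Prop} (x : {x // p x}) : sz x = sz x.1 := rfl
theorem sz_none {α : Type} [Enc α] : sz (none : Option α) = 1 := rfl
theorem sz_some {α : Type} [Enc α] (x : α) : sz (some x) = sz x + 2 := rfl

/-! ### Polynomials -/

theorem peval_mono (P : Polynomial ℕ) {a b : ℕ} (h : a ≤ b) : P.eval a ≤ P.eval b := by
  rw [Polynomial.eval_eq_sum_range, Polynomial.eval_eq_sum_range]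
  exact Finset.sum_le_sum fun i _ => Nat.mul_le_mul_left _ (Nat.pow_le_pow_left h i)

/-! ### Polynomial-time functions -/

/-- An oracle. -/
abbrev Orc := Set (List Bool)

/-- `f` is computable in polynomial time, by one program for all the oracles in `𝒜`. -/
def PTf (𝒜 : Set Orc) {α β : Type} [Enc α] [Enc β] (f : Orc → α → β) : Prop :=
  ∃ c : Com, c.Det ∧ ∃ P : Polynomial ℕ, ∀ A ∈ 𝒜, ∀ x : α,
    Runs A c (R [(e x).enc]) (R [(e (f A x)).enc]) (P.eval (sz x))

variable {𝒜 : Set Orc} {α β γ δ τ : Type} [Enc α] [Enc β] [Enc γ] [Enc δ] [Enc τ]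

namespace PTf

theorem congr {f g : Orc → α → β} (hf : PTf 𝒜 f) (h : ∀ A ∈ 𝒜, ∀ x, f A x = g A x) :
    PTf 𝒜 g := by
  obtain ⟨c, hc, P, hP⟩ := hf
  refine ⟨c, hc, P, fun A hA x => ?_⟩
  rw [← h A hA x]
  exact hP A hA x

/-- changing the types without changing the encodings -/
theorem retype {f : Orc → α → β} {α' β' : Type} [Enc α'] [Enc β'] (hf : PTf 𝒜 f)
    (φ : α' → α) (hφ : ∀ x, e (φ x) = e x) {g : Orc → α' → β'}
    (h : ∀ A ∈ 𝒜, ∀ x, e (g A x) = e (f A (φ x))) : PTf 𝒜 g := by
  obtain ⟨c, hc, P, hP⟩ := hf
  refine ⟨c, hc, P, fun A hA x => ?_⟩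
  have := hP A hA (φ x)
  rw [hφ x] at this
  rw [h A hA x]
  have e1 : sz (φ x) = sz x := by unfold sz; rw [hφ]
  rw [e1] at this
  exact this

theorem size_le {f : Orc → α → β} (hf : PTf 𝒜 f) :
    ∃ Q : Polynomial ℕ, ∀ A ∈ 𝒜, ∀ x, sz (f A x) ≤ Q.eval (sz x) := by
  obtain ⟨c, hc, P, hP⟩ := hf
  refine ⟨Polynomial.X + P, fun A hA x => ?_⟩
  obtain ⟨t, ht, h⟩ := hP A hA x (fun _ => false)
  have := h.growth 0
  simp only [R, List.getD_cons_zero, Tr.length_enc] at this
  rw [Polynomial.eval_add, Polynomial.eval_X]
  unfold sz at *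
  omega

theorem id : PTf 𝒜 (fun _ (x : α) => x) :=
  ⟨.skip, trivial, 0, fun _ _ _ => by simpa using Runs.skip⟩

theorem comp {g : Orc → β → γ} {f : Orc → α → β} (hg : PTf 𝒜 g) (hf : PTf 𝒜 f) :
    PTf 𝒜 (fun A x => g A (f A x)) := by
  obtain ⟨Q, hQ⟩ := hf.size_le
  obtain ⟨c, hc, P, hP⟩ := hf
  obtain ⟨c', hc', P', hP'⟩ := hg
  refine ⟨.seq c c', ⟨hc, hc'⟩, P + P'.comp Q, fun A hA x => ?_⟩
  refine ((hP A hA x).seq (hP' A hA (f A x))).mono ?_
  rw [Polynomial.eval_add, Polynomial.eval_comp]
  exact Nat.add_le_add_left (peval_mono _ (hQ A hA x)) _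

theorem const (b : β) : PTf 𝒜 (fun _ (_ : α) => b) := by
  refine ⟨.seq (clear 0) (pushw 0 (e b).enc), ⟨det_clear 0, det_pushw _ _⟩,
    2 * Polynomial.X + 1 + Polynomial.C (sz b), fun A _ x => ?_⟩
  have h1 := runs_clear (A := A) (a := 0) (e x).enc (R [(e x).enc]) rfl
  have h2 := runs_pushw (A := A) (a := 0) (e b).enc (update (R [(e x).enc]) 0 [])
  refine (h1.seq h2).cast ?_ ?_
  · simp [R_update]
  · simp only [Tr.length_enc, Polynomial.eval_add, Polynomial.eval_mul, Polynomial.eval_X,
      Polynomial.eval_C, Polynomial.eval_ofNat, Polynomial.eval_one]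
    unfold sz
    omega

end PTf

/-- copy register `0` to register `2` -/
def copy : Com := .seq (mv 0 3) (mv2 3 0 2)

theorem det_copy : copy.Det := ⟨det_mv _ _, det_mv2 _ _ _⟩

theorem runs_copy {A : Set (List Bool)} (w : List Bool) :
    Runs A copy (R [w]) (R [w, [], w]) (7 * w.length + 2) := by
  have h0 : R [w] = R [w, [], [], []] := by
    rw [R_pad3, R_pad2, R_pad1]
  have h1 := runs_mv (A := A) (a := 0) (b := 3) (by decide) w (R [w, [], [], []]) rfl
  have e1 : update (update (R [w, [], [], []]) 0 []) 3 (w.reverse ++ (R [w, [], [], []]) 3) =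
      R [[], [], [], w.reverse] := by
    simp [R_update, R]
  rw [e1] at h1
  have h2 := runs_mv2 (A := A) (a := 3) (b := 0) (c := 2) (by decide) (by decide) (by decide)
    w.reverse (R [[], [], [], w.reverse]) rfl
  have e2 : update (update (update (R [[], [], [], w.reverse]) 3 []) 0
      (w.reverse.reverse ++ (R [[], [], [], w.reverse]) 0)) 2
      (w.reverse.reverse ++ (R [[], [], [], w.reverse]) 2) = R [w, [], w] := by
    rw [← R_pad3]
    simp [R_update, R]
  rw [e2] at h2
  rw [h0]
  refine (h1.seq h2).mono ?_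
  rw [List.length_reverse]
  omega

end Pool.Agent.LibComplexity
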